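import Pool.Agent.MP_244be3_lc.Boolean

set_option autoImplicit false

/-!
Wild neurons: definitions.
-/

namespace Pool.Agent.MP_244be3_lc.WN

open Finset Pool.Agent.MP_244be3_lc

/-- All but at most `d` of the first `N` entries of `w` are integer combinations, with coefficients
of absolute value at most `M`, of `r` real numbers. -/
def Structured (r M d N : ℕ) (w : ℕ → ℝ) : Prop :=
  ∃ E : Finset ℕ, E.card ≤ d ∧ ∃ t : Fin r → ℝ, ∀ j < N, j ∉ E →
    ∃ c : Fin r → ℤ, (∀ i, |c i| ≤ M) ∧ w j = ∑ i, (c i : ℝ) * t i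

open Classical in
/-- The wild neurons of the second hidden layer of a network with two hidden layers: the output
weight has absolute value larger than `A` and the incoming weights are not `Structured r M d`.
A network with another number of hidden layers has no wild neurons. -/
noncomputable def wild {n : ℕ} (N : Net n) (A : ℝ) (r M d : ℕ) : Finset ℕ :=
  if N.depth = 2 then
    (range (N.width 2)).filter fun j => A < |N.a j| ∧ ¬ Structured r M d (N.width 1) (N.W 1 j)
  else ∅

/-- Threshold gate on bits indexed by `ι`. -/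
noncomputable def gate {ι : Type} [Fintype ι] (θ : ι → ℝ) (b : ℝ) (y : ι → Bool) : ℝ :=
  if 0 < (∑ i, θ i * bit (y i)) + b then 1 else 0

/-- All but at most `d` entries are integer combinations, coefficients at most `M`, of `r` reals. -/
def NT {ι : Type} (r M d : ℕ) (θ : ι → ℝ) : Prop :=
  ∃ E : Finset ι, E.card ≤ d ∧ ∃ t : Fin r → ℝ, ∀ i, i ∉ E →
    ∃ c : Fin r → ℤ, (∀ e, |c e| ≤ M) ∧ θ i = ∑ e, (c e : ℝ) * t e

/-- `F` is, up to an error `δ`, a constant plus a real combination of at most `S` gates, all but at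
most `W` of which have coefficient at most `A` in absolute value or a weight vector with property
`NT r M d`. -/
def Rep {ι : Type} [Fintype ι] (F : (ι → Bool) → ℝ) (δ : ℝ) (S W : ℕ) (A : ℝ) (r M d : ℕ) : Prop :=
  ∃ g ≤ S, ∃ (θ : Fin g → ι → ℝ) (b a : Fin g → ℝ) (a0 : ℝ) (E : Finset (Fin g)),
    E.card ≤ W ∧ (∀ j, j ∉ E → |a j| ≤ A ∨ NT r M d (θ j)) ∧
    ∀ y, |F y - (a0 + ∑ j, a j * gate (θ j) (b j) y)| ≤ δ

/-- Parity of a list of bits. -/
def par {m : ℕ} (s : Fin m → Bool) : Bool := decide (Odd (#{j : Fin m | s j = true}))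

/-- Parity of the bits other than the alive one. -/
def restpar {m : ℕ} (a : Fin m) (s : Fin m → Bool) : Bool :=
  decide (Odd (#{j : Fin m | j ≠ a ∧ s j = true}))

/-- The assignment with alive bits `al`, fixed bits from `x`, and block parities `y`. -/
def put {ι : Type} {m : ℕ} (al : ι → Fin m) (x : ι → Fin m → Bool) (y : ι → Bool) :
    ι × Fin m → Bool :=
  fun p => if p.2 = al p.1 then xor (y p.1) (restpar (al p.1) (x p.1)) else x p.1 p.2

end Pool.Agent.MP_244be3_lc.WN
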