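import Pool.Agent.MP_244be3_lc.WN.Params

set_option autoImplicit false

/-!
The finite form at the chosen parameters.
-/

namespace Pool.Agent.MP_244be3_lc.WN

open Finset Filter Topology Pool.Agent.MP_244be3_lc

theorem at_params {b i W : ℕ} (hq : 8 * b + 44 ≤ 2 ^ i) (hW : W ≤ (2 ^ i) ^ (10 * b + 6)) :
    ∃ h : (Fin (4 * (b + 3) * i) ⊕ Fin (4 * (b + 3) * i) → Bool) → Bool,
      ∀ N : Net (Fintype.card (Blk ((2 ^ i) ^ 4) (4 * (b + 3) * i) × Fin (4 ^ (2 * (b + 3) * i)))),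
        N.depth ≤ 2 →
        (∀ x : Blk ((2 ^ i) ^ 4) (4 * (b + 3) * i) × Fin (4 ^ (2 * (b + 3) * i)) → ℝ,
          |N.eval (fun j => x ((Fintype.equivFin _).symm j)) -
            fn ((2 ^ i) ^ 4) (4 * (b + 3) * i) (4 ^ (2 * (b + 3) * i)) h x| ≤
              1 / (sz (b + 3) i : ℝ) ^ 2) →
        N.size ≤ 2 ^ (2 ^ i) →
          W < #(wild N (2 ^ (2 ^ i)) (2 ^ i) (2 ^ (2 ^ i)) (4 ^ (2 * (b + 3) * i) / 2)) := by
  have hiq : i < 2 ^ i := Nat.lt_two_pow_self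
  have hi0 : i ≠ 0 := by
    rintro rfl
    rw [pow_zero] at hq
    omega
  have hi1 : 1 ≤ i := Nat.one_le_iff_ne_zero.2 hi0
  have e1 : 2 ^ (i * (8 * b + 12)) = (2 ^ i) ^ (8 * b + 12) := pow_mul _ _ _
  have e2 : 2 ^ (2 * (b + 3) * i) = (2 ^ i) ^ (2 * b + 6) := by
    rw [← pow_mul]; congr 1; ring
  have e3 : 2 ^ (4 * (b + 3) * i + 4 * (b + 3) * i) = (2 ^ i) ^ (8 * b + 24) := by
    rw [← pow_mul]; congr 1; ring
  have hp0 : 4 * (b + 3) * i + 4 * (b + 3) * i ≤ (2 ^ i) ^ 2 := by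
    have : 8 * (b + 3) * i ≤ 2 ^ i * 2 ^ i := Nat.mul_le_mul (by omega) hiq.le
    rw [pow_two]
    linarith
  have hq1 : 1 ≤ 2 ^ i := Nat.one_le_two_pow
  have hq4 : 44 ^ 4 ≤ (2 ^ i) ^ 4 := Nat.pow_le_pow_left (by omega) 4
  have hq24 : (2 ^ i) ^ 2 ≤ (2 ^ i) ^ 4 := Nat.pow_le_pow_right hq1 (by norm_num)
  -- the total number of blocks
  have hk : 2 * (2 ^ i) ^ 4 + 2 * (4 * (b + 3) * i) ≤ 3 * (2 ^ i) ^ 4 := by linarith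
  have hS0 : ∃ n1 : ℕ, n1 + 2 = 2 ^ (i * (8 * b + 12)) := by
    have h1 : 2 ^ 1 ≤ 2 ^ (i * (8 * b + 12)) :=
      Nat.pow_le_pow_right (by norm_num) (Nat.mul_pos hi1 (by omega))
    exact ⟨2 ^ (i * (8 * b + 12)) - 2, by omega⟩
  obtain ⟨n1, hn1⟩ := hS0
  have c1 : 4 * W * (2 * (2 ^ i) ^ 4 + 2 * (4 * (b + 3) * i)) ^ 2 ≤
      2 ^ (2 * (b + 3) * i) * (n1 + 1) := by
    rw [e2]
    have h1 : (2 ^ i) ^ (8 * b + 12) ≤ 2 * (n1 + 1) := by rw [← e1]; omega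
    have h2 : 4 * W * (2 * (2 ^ i) ^ 4 + 2 * (4 * (b + 3) * i)) ^ 2 ≤
        4 * (2 ^ i) ^ (10 * b + 6) * (3 * (2 ^ i) ^ 4) ^ 2 := by gcongr
    have h3 : 2 * (4 * (2 ^ i) ^ (10 * b + 6) * (3 * (2 ^ i) ^ 4) ^ 2) ≤
        (2 ^ i) ^ (2 * b + 6) * (2 ^ i) ^ (8 * b + 12) := by
      calc 2 * (4 * (2 ^ i) ^ (10 * b + 6) * (3 * (2 ^ i) ^ 4) ^ 2) =
            72 * (2 ^ i) ^ (10 * b + 14) := by ring
        _ ≤ (2 ^ i) ^ 4 * (2 ^ i) ^ (10 * b + 14) := by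
            apply Nat.mul_le_mul_right
            omega
        _ = (2 ^ i) ^ (2 * b + 6) * (2 ^ i) ^ (8 * b + 12) := by ring
    have h4 : (2 ^ i) ^ (2 * b + 6) * (2 ^ i) ^ (8 * b + 12) ≤
        (2 ^ i) ^ (2 * b + 6) * (2 * (n1 + 1)) := by gcongr
    have h5 : (2 ^ i) ^ (2 * b + 6) * (2 * (n1 + 1)) = 2 * ((2 ^ i) ^ (2 * b + 6) * (n1 + 1)) := by
      ring
    omega
  have c2 : 4 * 2 ^ (2 ^ i) ≤ 2 ^ (2 ^ i + 2) := by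
    rw [pow_add]; omega
  have c3 : 2 * (4 ^ (2 * (b + 3) * i) / 2) ≤ 4 ^ (2 * (b + 3) * i) := Nat.mul_div_le _ _
  have c4 : n1 + 1 < 2 ^ (i * (8 * b + 12)) := by omega
  have c5 : (2 * (2 ^ i) ^ 4 + 2 * (4 * (b + 3) * i) + 1) ^ 2 * n1 +
      (4 * (b + 3) * i + 4 * (b + 3) * i) * 2 ^ (i * (8 * b + 12)) <
        2 ^ (4 * (b + 3) * i + 4 * (b + 3) * i) := by
    rw [e3]
    have h1 : n1 ≤ (2 ^ i) ^ (8 * b + 12) := by rw [← e1]; omega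
    rw [e1]
    have h2 : (2 * (2 ^ i) ^ 4 + 2 * (4 * (b + 3) * i) + 1) ≤ 4 * (2 ^ i) ^ 4 := by omega
    calc (2 * (2 ^ i) ^ 4 + 2 * (4 * (b + 3) * i) + 1) ^ 2 * n1 +
      (4 * (b + 3) * i + 4 * (b + 3) * i) * (2 ^ i) ^ (8 * b + 12) ≤
        (4 * (2 ^ i) ^ 4) ^ 2 * (2 ^ i) ^ (8 * b + 12) + (2 ^ i) ^ 8 * (2 ^ i) ^ (8 * b + 12) := by
          gcongr
          exact hp0.trans (Nat.pow_le_pow_right hq1 (by norm_num))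
      _ = 17 * (2 ^ i) ^ (8 * b + 20) := by ring
      _ < (2 ^ i) ^ 4 * (2 ^ i) ^ (8 * b + 20) := by
          apply Nat.mul_lt_mul_of_pos_right
          · omega
          · positivity
      _ = (2 ^ i) ^ (8 * b + 24) := by ring
  -- exponents
  have hexp : i * (8 * b + 12) + 2 ^ i + ((2 * 2 ^ i + 4 * i + 2) * 2 ^ i + (2 ^ i + 2)) + 2 <
      (2 ^ i) ^ 4 := by
    set q := 2 ^ i
    have h1 : i * (8 * b + 12) ≤ q * q := Nat.mul_le_mul hiq.le (by omega)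
    have h2 : (2 * q + 4 * i + 2) * q ≤ (7 * q) * q := Nat.mul_le_mul_right _ (by omega)
    have h3 : 44 * q ≤ q * q := Nat.mul_le_mul_right _ (by omega)
    have h4 : 44 * (44 * (q * q)) ≤ q ^ 4 := by
      calc 44 * (44 * (q * q)) ≤ q * (q * (q * q)) := by gcongr <;> omega
        _ = q ^ 4 := by ring
    have h5 : (7 * q) * q = 7 * (q * q) := by ring
    omega
  have hMSK : 2 * (2 ^ (2 ^ i) * 2 ^ (2 ^ i) * (2 ^ i) ^ 4) + 1 ≤ 2 ^ (2 * 2 ^ i + 4 * i + 2) := by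
    have h1 : 2 * (2 ^ (2 ^ i) * 2 ^ (2 ^ i) * (2 ^ i) ^ 4) = 2 ^ (2 * 2 ^ i + 4 * i + 1) := by
      rw [← pow_mul, ← pow_add, ← pow_add, mul_comm, ← pow_succ]
      congr 1
      ring
    rw [h1, pow_succ 2 (2 * 2 ^ i + 4 * i + 1)]
    have : 1 ≤ 2 ^ (2 * 2 ^ i + 4 * i + 1) := Nat.one_le_two_pow
    omega
  have c6 : 2 * (1 + (2 ^ (i * (8 * b + 12)) * 2 ^ (2 ^ i)) *
      ((2 * (2 ^ (2 ^ i) * 2 ^ (2 ^ i) * (2 ^ i) ^ 4) + 1) ^ (2 ^ i) * 2 ^ (2 ^ i + 2))) <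
        2 ^ ((2 ^ i) ^ 4) := by
    have h1 : (2 ^ (i * (8 * b + 12)) * 2 ^ (2 ^ i)) *
      ((2 * (2 ^ (2 ^ i) * 2 ^ (2 ^ i) * (2 ^ i) ^ 4) + 1) ^ (2 ^ i) * 2 ^ (2 ^ i + 2)) ≤
        2 ^ (i * (8 * b + 12) + 2 ^ i + ((2 * 2 ^ i + 4 * i + 2) * 2 ^ i + (2 ^ i + 2))) := by
      rw [pow_add 2 (i * (8 * b + 12) + 2 ^ i), pow_add 2 (i * (8 * b + 12)),
        pow_add 2 ((2 * 2 ^ i + 4 * i + 2) * 2 ^ i), pow_mul 2 (2 * 2 ^ i + 4 * i + 2)]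
      exact Nat.mul_le_mul_left _ (Nat.mul_le_mul_right _ (Nat.pow_le_pow_left hMSK _))
    set E := i * (8 * b + 12) + 2 ^ i + ((2 * 2 ^ i + 4 * i + 2) * 2 ^ i + (2 ^ i + 2)) with hE
    have h2 : 2 ^ (E + 2) < 2 ^ ((2 ^ i) ^ 4) := Nat.pow_lt_pow_right (by norm_num) hexp
    have h3 : 1 ≤ 2 ^ E := Nat.one_le_two_pow
    have h4 : 2 ^ (E + 2) = 4 * 2 ^ E := by rw [pow_add]; ring
    omega
  have hA : (0 : ℝ) ≤ 2 ^ (2 ^ i) := by positivity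
  have c7 : (8 * ((((2 ^ i) ^ 4 : ℕ) : ℝ) + 1) * ((2 ^ (i * (8 * b + 12)) * ((2 ^ (2 ^ i) : ℕ) : ℝ)) *
      (4 * 2 ^ (2 ^ i)))) ^ 2 < 2 ^ ((2 ^ i) ^ 4) := by
    have h1 : 8 * ((2 ^ i) ^ 4 + 1) ≤ 2 ^ (4 * i + 4) := by
      have h2 : (2 ^ i) ^ 4 = 2 ^ (4 * i) := by rw [← pow_mul]; congr 1; ring
      rw [h2, pow_add]
      have : 1 ≤ 2 ^ (4 * i) := Nat.one_le_two_pow
      omega
    have h2 : (8 * ((2 ^ i) ^ 4 + 1) * ((2 ^ (i * (8 * b + 12)) * 2 ^ (2 ^ i)) *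
        (4 * 2 ^ (2 ^ i)))) ^ 2 < 2 ^ ((2 ^ i) ^ 4) := by
      have h3 : 8 * ((2 ^ i) ^ 4 + 1) * ((2 ^ (i * (8 * b + 12)) * 2 ^ (2 ^ i)) *
        (4 * 2 ^ (2 ^ i))) ≤ 2 ^ (4 * i + 4 + (i * (8 * b + 12) + 2 ^ i + (2 + 2 ^ i))) := by
        rw [pow_add 2 (4 * i + 4), pow_add 2 (i * (8 * b + 12) + 2 ^ i),
          pow_add 2 (i * (8 * b + 12)), pow_add 2 2 (2 ^ i)]
        exact Nat.mul_le_mul_right _ h1
      calc _ ≤ (2 ^ (4 * i + 4 + (i * (8 * b + 12) + 2 ^ i + (2 + 2 ^ i)))) ^ 2 :=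
            Nat.pow_le_pow_left h3 2
        _ = 2 ^ ((4 * i + 4 + (i * (8 * b + 12) + 2 ^ i + (2 + 2 ^ i))) * 2) := (pow_mul _ _ _).symm
        _ < 2 ^ ((2 ^ i) ^ 4) := by
            apply Nat.pow_lt_pow_right (by norm_num)
            set q := 2 ^ i
            have g1 : i * (8 * b + 12) ≤ q * q := Nat.mul_le_mul hiq.le (by omega)
            have g3 : 44 * q ≤ q * q := Nat.mul_le_mul_right _ (by omega)
            have g4 : 44 * (44 * (q * q)) ≤ q ^ 4 := by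
              calc 44 * (44 * (q * q)) ≤ q * (q * (q * q)) := by gcongr <;> omega
                _ = q ^ 4 := by ring
            omega
    exact_mod_cast h2
  have c8 : 8 * 2 ^ (i * (8 * b + 12)) * (1 / (sz (b + 3) i : ℝ) ^ 2) ≤ 1 := by
    have h1 : (2 ^ i) ^ (4 * (b + 3)) ≤ sz (b + 3) i := le_sz _ _
    have h2 : 8 * 2 ^ (i * (8 * b + 12)) ≤ sz (b + 3) i ^ 2 := by
      rw [e1]
      calc 8 * (2 ^ i) ^ (8 * b + 12) ≤ (2 ^ i) ^ 12 * (2 ^ i) ^ (8 * b + 12) := by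
            apply Nat.mul_le_mul_right
            calc 8 ≤ (2 ^ i) ^ 4 := by omega
              _ ≤ (2 ^ i) ^ 12 := Nat.pow_le_pow_right hq1 (by norm_num)
        _ = ((2 ^ i) ^ (4 * (b + 3))) ^ 2 := by ring
        _ ≤ sz (b + 3) i ^ 2 := Nat.pow_le_pow_left h1 2
    have h3 : (0 : ℝ) < (sz (b + 3) i : ℝ) ^ 2 := by
      have : 0 < sz (b + 3) i := by unfold sz; omega
      positivity
    rw [mul_one_div, div_le_one h3]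
    exact_mod_cast h2
  exact finite_form (hp := by
      have : 1 ≤ 4 * (b + 3) := by omega
      exact Nat.mul_pos this hi1)
    (hr := hq1) (hM := Nat.one_le_two_pow) (hA := hA) c1 c2 c3 c4 c5 c6 c7 c8

end Pool.Agent.MP_244be3_lc.WN
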