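import Pool.Agent.MP_244be3_lc.WN.Base
import Pool.Agent.MP_244be3_lc.Boolean

set_option autoImplicit false

/-!
[WN-U1] Networks on finite index types, built layer by layer.

Proof. `comp_zero`: depth 0 network. `comp_succ`: `prepend`, `prepend_eval`, `prepend_size` in
`Boolean.lean`.
-/

namespace Pool.Agent.MP_244be3_lc.WN

open Finset Pool.Agent.MP_244be3_lc

/-- There is a network with `d` hidden layers and `s` neurons that computes `G`. -/
def Comp (L : Type) [Fintype L] (G : (L → ℝ) → ℝ) (s d : ℕ) : Prop :=
  ∃ (N : Net (Fintype.card L)), N.depth = d ∧ N.size = s ∧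
    ∀ x : L → ℝ, N.eval (fun i => x ((Fintype.equivFin L).symm i)) = G x

theorem comp_zero (L : Type) [Fintype L] (a : L → ℝ) (a0 : ℝ) :
    Comp L (fun x => a0 + ∑ l, a l * x l) 0 0 := by
  classical
  refine ⟨{ depth := 0
            width := fun _ => Fintype.card L
            W := fun _ _ _ => 0
            B := fun _ _ => 0
            a := fun j => if h : j < Fintype.card L then a ((Fintype.equivFin L).symm ⟨j, h⟩) else 0
            a0 := a0
            width_zero := rfl }, rfl, ?_, ?_⟩
  · simp [Net.size]
  · intro x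
    unfold Net.eval
    simp only [Net.act]
    congr 1
    rw [Finset.sum_range, ← Equiv.sum_comp (Fintype.equivFin L).symm]
    apply Finset.sum_congr rfl
    intro i _
    rw [dif_pos i.2, dif_pos i.2]

theorem comp_succ {L L' : Type} [Fintype L] [Fintype L'] (W : L' → L → ℝ) (B : L' → ℝ)
    {G : (L' → ℝ) → ℝ} {s d : ℕ} (h : Comp L' G s d) :
    Comp L (fun x => G fun j => if 0 < (∑ l, W j l * x l) + B j then 1 else 0)
      (Fintype.card L' + s) (d + 1) := by
  classical
  obtain ⟨M, hd, hs, hM⟩ := h
  refine ⟨prepend (d := Fintype.card L)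
    (fun j l => if hj : j < Fintype.card L' then
      (if hl : l < Fintype.card L then
        W ((Fintype.equivFin L').symm ⟨j, hj⟩) ((Fintype.equivFin L).symm ⟨l, hl⟩) else 0) else 0)
    (fun j => if hj : j < Fintype.card L' then B ((Fintype.equivFin L').symm ⟨j, hj⟩) else 0) M,
    ?_, ?_, ?_⟩
  · simp [prepend, hd]
  · rw [prepend_size, hs]
  · intro x
    dsimp only
    rw [← hM]
    apply prepend_eval
    intro j
    rw [dif_pos j.2]
    have h1 : ∑ l : Fin (Fintype.card L), (if hj : (j : ℕ) < Fintype.card L' then
        (if hl : (l : ℕ) < Fintype.card L then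
          W ((Fintype.equivFin L').symm ⟨j, hj⟩) ((Fintype.equivFin L).symm ⟨l, hl⟩) else 0) else 0)
          * x ((Fintype.equivFin L).symm l)
        = ∑ l, W ((Fintype.equivFin L').symm j) l * x l := by
      rw [← Equiv.sum_comp (Fintype.equivFin L).symm]
      apply Finset.sum_congr rfl
      intro l _
      rw [dif_pos j.2, dif_pos l.2]
    rw [h1]

end Pool.Agent.MP_244be3_lc.WN
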