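import Pool.Agent.MP_244be3_lc.WN.Base

set_option autoImplicit false

/-!
[WN-C] The number of threshold functions of `k` bits is at most `2 ^ ((k + 1) ^ 2)`.

Proof. Identify `f` with the set `{y | f y = true}`. By `Finset.card_le_card_shatterer` and
`Finset.card_shatterer_le_sum_vcDim` the number is at most `∑ i ≤ vcDim, choose (2 ^ k) i`; the
family shatters no set of `k + 2` points (Radon: `Convex.radon_partition` for the points
`(bit (y i)) ∈ ℝ^k`, which are affinely dependent), so `vcDim ≤ k + 1`, and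
`∑ i ≤ k + 1, (2 ^ k) ^ i ≤ 2 ^ ((k + 1) ^ 2)`.
-/

namespace Pool.Agent.MP_244be3_lc.WN

open Finset Pool.Agent.MP_244be3_lc

/-- a set of points on which every partition is realised by an affine threshold has at most `k + 1`
elements -/
theorem WNC_card_le {ι κ : Type} [Fintype ι] [Fintype κ] (p : κ → ι → ℝ)
    (h : ∀ I : Set κ, ∃ (θ : ι → ℝ) (b : ℝ), ∀ y, y ∈ I ↔ 0 < (∑ i, θ i * p y i) + b) :
    Fintype.card κ ≤ Fintype.card ι + 1 := by
  by_contra hc
  push Not at hc
  have hna : ¬ AffineIndependent ℝ p := by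
    intro ha
    have h1 := ha.card_le_finrank_succ
    have h2 : Module.finrank ℝ (vectorSpan ℝ (Set.range p)) ≤ Module.finrank ℝ (ι → ℝ) :=
      Submodule.finrank_le _
    rw [Module.finrank_fintype_fun_eq_card] at h2
    omega
  obtain ⟨I, x, hx1, hx2⟩ := Convex.radon_partition hna
  obtain ⟨θ, b, hθ⟩ := h I
  have hconv : Convex ℝ {z : ι → ℝ | 0 < (∑ i, θ i * z i) + b} := by
    intro z hz z' hz' s t hs ht hst
    simp only [Set.mem_ofPred_eq] at hz hz' ⊢
    have e : (∑ i, θ i * (s • z + t • z') i) + b =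
        s * ((∑ i, θ i * z i) + b) + t * ((∑ i, θ i * z' i) + b) := by
      have e1 : ∑ i, θ i * (s • z + t • z') i = s * ∑ i, θ i * z i + t * ∑ i, θ i * z' i := by
        rw [Finset.mul_sum, Finset.mul_sum, ← Finset.sum_add_distrib]
        refine Finset.sum_congr rfl fun i _ => ?_
        simp only [Pi.add_apply, Pi.smul_apply, smul_eq_mul]
        ring
      rw [e1]
      have : b = s * b + t * b := by rw [← add_mul, hst, one_mul]
      linear_combination this
    rw [e]
    rcases hs.eq_or_lt with h0 | h0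
    · have : t = 1 := by linarith
      rw [← h0, this]
      linarith
    · have h3 : 0 < s * ((∑ i, θ i * z i) + b) := mul_pos h0 hz
      have h4 : 0 ≤ t * ((∑ i, θ i * z' i) + b) := mul_nonneg ht hz'.le
      linarith
  have hconv' : Convex ℝ {z : ι → ℝ | (∑ i, θ i * z i) + b ≤ 0} := by
    intro z hz z' hz' s t hs ht hst
    simp only [Set.mem_ofPred_eq] at hz hz' ⊢
    have e : (∑ i, θ i * (s • z + t • z') i) + b =
        s * ((∑ i, θ i * z i) + b) + t * ((∑ i, θ i * z' i) + b) := by
      have e1 : ∑ i, θ i * (s • z + t • z') i = s * ∑ i, θ i * z i + t * ∑ i, θ i * z' i := by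
        rw [Finset.mul_sum, Finset.mul_sum, ← Finset.sum_add_distrib]
        refine Finset.sum_congr rfl fun i _ => ?_
        simp only [Pi.add_apply, Pi.smul_apply, smul_eq_mul]
        ring
      rw [e1]
      have : b = s * b + t * b := by rw [← add_mul, hst, one_mul]
      linear_combination this
    rw [e]
    have h3 : s * ((∑ i, θ i * z i) + b) ≤ 0 := mul_nonpos_of_nonneg_of_nonpos hs hz
    have h4 : t * ((∑ i, θ i * z' i) + b) ≤ 0 := mul_nonpos_of_nonneg_of_nonpos ht hz'
    linarith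
  have h5 : x ∈ {z : ι → ℝ | 0 < (∑ i, θ i * z i) + b} := by
    refine convexHull_min ?_ hconv hx1
    rintro _ ⟨y, hy, rfl⟩
    exact (hθ y).mp hy
  have h6 : x ∈ {z : ι → ℝ | (∑ i, θ i * z i) + b ≤ 0} := by
    refine convexHull_min ?_ hconv' hx2
    rintro _ ⟨y, hy, rfl⟩
    exact not_lt.mp fun h7 => hy ((hθ y).mpr h7)
  have h7 : 0 < (∑ i, θ i * x i) + b := h5
  have h8 : (∑ i, θ i * x i) + b ≤ 0 := h6
  linarith

open Classical in
theorem card_gates (ι : Type) [Fintype ι] :
    #{f : (ι → Bool) → Bool | ∃ (θ : ι → ℝ) (b : ℝ), ∀ y, f y = true ↔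
      0 < (∑ i, θ i * bit (y i)) + b} ≤ 2 ^ ((Fintype.card ι + 1) ^ 2) := by
  set F : Finset ((ι → Bool) → Bool) := {f : (ι → Bool) → Bool | ∃ (θ : ι → ℝ) (b : ℝ),
    ∀ y, f y = true ↔ 0 < (∑ i, θ i * bit (y i)) + b} with hF
  set k := Fintype.card ι with hk
  let φ : ((ι → Bool) → Bool) → Finset (ι → Bool) := fun f => univ.filter fun y => f y = true
  have hφ : Function.Injective φ := by
    intro f g hfg
    funext y
    have h1 : y ∈ φ f ↔ y ∈ φ g := by rw [hfg]
    simp only [φ, Finset.mem_filter, Finset.mem_univ, true_and] at h1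
    exact Bool.eq_iff_iff.mpr h1
  set 𝒜 : Finset (Finset (ι → Bool)) := F.image φ with h𝒜
  have hcard : #F = #𝒜 := (Finset.card_image_of_injective F hφ).symm
  have hvc : 𝒜.vcDim ≤ k + 1 := by
    refine Finset.sup_le fun s hs => ?_
    rw [Finset.mem_shatterer] at hs
    have h1 := WNC_card_le (κ := s) (fun y i => bit ((y : ι → Bool) i)) (by
      intro I
      have hsub : (Finset.univ.filter fun y : s => y ∈ I).map (Function.Embedding.subtype _) ⊆ s := by
        intro y hy
        rw [Finset.mem_map] at hy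
        obtain ⟨z, _, rfl⟩ := hy
        exact z.2
      obtain ⟨u, hu, hsu⟩ := hs hsub
      rw [h𝒜, Finset.mem_image] at hu
      obtain ⟨f, hf, rfl⟩ := hu
      rw [hF, Finset.mem_filter] at hf
      obtain ⟨θ, b, hθ⟩ := hf.2
      refine ⟨θ, b, fun y => ?_⟩
      rw [← hθ]
      have h2 : (y : ι → Bool) ∈ s ∩ φ f ↔ y ∈ I := by
        rw [hsu]
        simp
      rw [← h2]
      simp [φ])
    rw [Fintype.card_coe] at h1
    exact h1
  rw [hcard]
  calc #𝒜 ≤ #𝒜.shatterer := Finset.card_le_card_shatterer 𝒜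
    _ ≤ ∑ i ∈ Iic 𝒜.vcDim, (Fintype.card (ι → Bool)).choose i := Finset.card_shatterer_le_sum_vcDim
    _ ≤ ∑ i ∈ Iic (k + 1), (Fintype.card (ι → Bool)).choose i :=
        Finset.sum_le_sum_of_subset (Finset.Iic_subset_Iic.mpr hvc)
    _ ≤ ∑ i ∈ Iic (k + 1), (2 ^ k) ^ (k + 1) := by
        refine Finset.sum_le_sum fun i hi => ?_
        rw [Finset.mem_Iic] at hi
        rw [Fintype.card_fun, Fintype.card_bool, ← hk]
        exact (Nat.choose_le_pow _ _).trans (Nat.pow_le_pow_right (by positivity) hi)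
    _ = (k + 2) * (2 ^ k) ^ (k + 1) := by
        rw [Finset.sum_const, Nat.card_Iic, smul_eq_mul]
    _ ≤ 2 ^ (k + 1) * (2 ^ k) ^ (k + 1) := by
        refine Nat.mul_le_mul_right _ ?_
        have := Nat.lt_two_pow_self (n := k + 1)
        omega
    _ = 2 ^ ((k + 1) ^ 2) := by
        rw [← pow_mul, ← pow_add]
        congr 1
        ring

end Pool.Agent.MP_244be3_lc.WN
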