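import Pool.Agent.MP_244be3_lc.WN.Kernel

set_option autoImplicit false

/-!
[WN-F2] The inner product matrix is not close to the sum of a matrix of low rank and a combination
of threshold matrices with small coefficients.

Proof. Let `J2` be the set of `j` with `#(image (U j)) ≤ R` and `J1` the rest (there `|b j| ≤ B`).
Suppose `2 (1 + |J| R) < 2 ^ K`. Let `X` be the span in `EuclideanSpace ℝ (Fin K → Bool)` of the
constant function and the indicators of `{u | U j u = τ}`, `j ∈ J2`, `τ ∈ image (U j)`;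
`dim X ≤ 1 + |J| R` (`finrank_span_le_card` or similar), so `Z = Xᗮ` has dimension `d ≥ 2 ^ K / 2`.
Let `z l` (`l < d`) be an orthonormal basis of `Z`, `z' l v = ∑ u, z l u * chi u v`,
`Φ u v = ∑ l, z l u * z' l v`. With `Err u v = chi u v - (C0 + ∑ j, ..)`:
`∑ u v, chi u v * Φ u v = ∑ l, ∑ v, (z' l v) ^ 2 = d * 2 ^ K` (`chi_orth`);
the constant and the terms `j ∈ J2` contribute `0` (for fixed `v`, `∑ u, z l u * [0 < U j u + V j v]`
is a combination of the `∑ u, z l u * [U j u = τ] = 0`);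
`|∑ u v, Err u v * Φ u v| ≤ 1 / 2 * √(2 ^ K * 2 ^ K * ∑ Φ ^ 2)` and `∑ u v, Φ u v ^ 2 = 2 ^ K * d`, so this
is at most `1 / 2 * 2 ^ K * √(2 ^ K * d) ≤ √2 / 2 * 2 ^ K * d`;
the terms `j ∈ J1` contribute at most `|J| * B * (K + 1) * √(2 ^ K * 2 ^ K * 2 ^ K)` by
`kernel_threshold` with `c = 2 ^ K`, where the rectangle bound is Cauchy-Schwarz over `l` and Bessel:
`∑ l, ⟨z l, 1_X⟩ ^ 2 ≤ #X` and `∑ l, (∑ v ∈ Y, z' l v) ^ 2 = ∑ l, ⟨z l, chi 1_Y⟩ ^ 2 ≤
‖chi 1_Y‖ ^ 2 = 2 ^ K * #Y` (`sum_sq`).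
So `(1 - √2 / 2) * d * 2 ^ K ≤ |J| * B * (K + 1) * √(2 ^ K * 2 ^ K * 2 ^ K)`, and
`2 * 8 * (1 - √2 / 2) ≥ 4`.
-/

namespace Pool.Agent.MP_244be3_lc.WN

open Finset Pool.Agent.MP_244be3_lc

/-- orthonormal vectors orthogonal to a given finite family -/
theorem lr_basis {α ι : Type} [Fintype α] [Fintype ι] (g : ι → α → ℝ) :
    ∃ (d : ℕ) (z : Fin d → α → ℝ), Fintype.card α ≤ d + Fintype.card ι ∧
      (∀ l m, ∑ u, z l u * z m u = if l = m then 1 else 0) ∧
      (∀ l i, ∑ u, z l u * g i u = 0) ∧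
      (∀ x : α → ℝ, ∑ l, (∑ u, z l u * x u) ^ 2 ≤ ∑ u, x u ^ 2) := by
  classical
  let G : ι → EuclideanSpace ℝ α := fun i => WithLp.toLp 2 (g i)
  let X : Submodule ℝ (EuclideanSpace ℝ α) := Submodule.span ℝ (Set.range G)
  let b := stdOrthonormalBasis ℝ Xᗮ
  have hin : ∀ x y : EuclideanSpace ℝ α, inner ℝ x y = ∑ u, x u * y u := by
    intro x y
    rw [PiLp.inner_apply]
    apply Finset.sum_congr rfl
    intro u _
    simp [mul_comm]
  refine ⟨Module.finrank ℝ Xᗮ, fun l u => (b l : EuclideanSpace ℝ α) u, ?_, ?_, ?_, ?_⟩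
  · have h1 := Submodule.finrank_add_finrank_orthogonal X
    have h2 : Module.finrank ℝ X ≤ Fintype.card ι := finrank_range_le_card G
    rw [finrank_euclideanSpace] at h1
    omega
  · intro l m
    have h1 := orthonormal_iff_ite.mp b.orthonormal l m
    rw [Submodule.coe_inner, hin] at h1
    exact h1
  · intro l i
    have h1 : G i ∈ X := Submodule.subset_span ⟨i, rfl⟩
    have h2 : inner ℝ (G i) (b l : EuclideanSpace ℝ α) = 0 := (b l).2 _ h1
    rw [hin] at h2
    rw [← h2]
    apply Finset.sum_congr rfl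
    intro u _
    exact mul_comm _ _
  · intro x
    have ho : Orthonormal ℝ (fun l => (b l : EuclideanSpace ℝ α)) :=
      b.orthonormal.comp_linearIsometry (Xᗮ).subtypeₗᵢ
    have h1 := ho.sum_inner_products_le (WithLp.toLp 2 x) (s := Finset.univ)
    rw [EuclideanSpace.norm_sq_eq] at h1
    refine le_trans (le_of_eq ?_) (h1.trans (le_of_eq ?_))
    · apply Finset.sum_congr rfl
      intro l _
      rw [hin, Real.norm_eq_abs, sq_abs]
    · apply Finset.sum_congr rfl
      intro u _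
      rw [Real.norm_eq_abs, sq_abs]

theorem lr_card {J : Type} [Fintype J] (P : J → Prop) [DecidablePred P] (s : J → Finset ℝ) (R : ℕ)
    (h : ∀ j, P j → #(s j) ≤ R) :
    Fintype.card (Unit ⊕ (Σ j : {j : J // P j}, {τ : ℝ // τ ∈ s j.1})) ≤ 1 + Fintype.card J * R := by
  rw [Fintype.card_sum, Fintype.card_sigma, Fintype.card_unit]
  apply Nat.add_le_add_left
  calc ∑ j : {j : J // P j}, Fintype.card {τ : ℝ // τ ∈ s j.1} ≤ ∑ j : {j : J // P j}, R := by
        apply Finset.sum_le_sum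
        intro j _
        rw [Fintype.card_coe]
        exact h _ j.2
    _ = Fintype.card {j : J // P j} * R := by simp
    _ ≤ Fintype.card J * R := Nat.mul_le_mul_right _ (Fintype.card_subtype_le _)

theorem lr_comm {K : ℕ} (u v : Fin K → Bool) : chi u v = chi v u := by
  unfold chi
  apply Finset.prod_congr rfl
  intro i _
  rw [Bool.and_comm]

section
variable {K d : ℕ} (z : Fin d → (Fin K → Bool) → ℝ)

/-- transform -/
noncomputable def lrz (l : Fin d) (v : Fin K → Bool) : ℝ := ∑ u, z l u * chi u v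

/-- kernel -/
noncomputable def lrP (u v : Fin K → Bool) : ℝ := ∑ l, z l u * lrz z l v

theorem lr_norm (hz : ∀ l m, ∑ u, z l u * z m u = if l = m then 1 else 0) (l : Fin d) :
    ∑ v, (lrz z l v) ^ 2 = (2 : ℝ) ^ K := by
  unfold lrz
  have h1 : ∀ v : Fin K → Bool, (∑ u, z l u * chi u v) ^ 2 =
      ∑ u, ∑ u', z l u * z l u' * (chi u v * chi u' v) := by
    intro v
    rw [pow_two, Finset.sum_mul_sum]
    apply Finset.sum_congr rfl
    intro u _
    apply Finset.sum_congr rfl
    intro u' _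
    ring
  simp_rw [h1]
  rw [Finset.sum_comm]
  have h2 : ∀ u : Fin K → Bool, ∑ v, ∑ u', z l u * z l u' * (chi u v * chi u' v) =
      z l u * z l u * 2 ^ K := by
    intro u
    rw [Finset.sum_comm]
    simp_rw [← Finset.mul_sum, chi_orth]
    simp
  simp_rw [h2]
  rw [← Finset.sum_mul, hz l l, if_pos rfl, one_mul]

theorem lr_corr (hz : ∀ l m, ∑ u, z l u * z m u = if l = m then 1 else 0) :
    ∑ v, ∑ u, chi u v * lrP z u v = d * (2 : ℝ) ^ K := by
  have h1 : ∀ v : Fin K → Bool, ∑ u, chi u v * lrP z u v = ∑ l, (lrz z l v) ^ 2 := by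
    intro v
    unfold lrP
    simp_rw [Finset.mul_sum]
    rw [Finset.sum_comm]
    apply Finset.sum_congr rfl
    intro l _
    rw [pow_two]
    change _ = (∑ u, z l u * chi u v) * lrz z l v
    rw [Finset.sum_mul]
    apply Finset.sum_congr rfl
    intro u _
    ring
  simp_rw [h1]
  rw [Finset.sum_comm]
  simp_rw [lr_norm z hz]
  simp

theorem lr_sq (hz : ∀ l m, ∑ u, z l u * z m u = if l = m then 1 else 0) :
    ∑ v, ∑ u, (lrP z u v) ^ 2 = d * (2 : ℝ) ^ K := by
  have h1 : ∀ v : Fin K → Bool, ∑ u, (lrP z u v) ^ 2 = ∑ l, (lrz z l v) ^ 2 := by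
    intro v
    unfold lrP
    have h2 : ∀ u : Fin K → Bool, (∑ l, z l u * lrz z l v) ^ 2 =
        ∑ l, ∑ m, lrz z l v * lrz z m v * (z l u * z m u) := by
      intro u
      rw [pow_two, Finset.sum_mul_sum]
      apply Finset.sum_congr rfl
      intro l _
      apply Finset.sum_congr rfl
      intro m _
      ring
    simp_rw [h2]
    rw [Finset.sum_comm]
    apply Finset.sum_congr rfl
    intro l _
    rw [Finset.sum_comm]
    simp_rw [← Finset.mul_sum, hz]
    simp
    ring
  simp_rw [h1]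
  rw [Finset.sum_comm]
  simp_rw [lr_norm z hz]
  simp

theorem lr_rect (hB : ∀ x : (Fin K → Bool) → ℝ, ∑ l, (∑ u, z l u * x u) ^ 2 ≤ ∑ u, x u ^ 2)
    (X Y : Finset (Fin K → Bool)) :
    |∑ v ∈ Y, ∑ u ∈ X, lrP z u v| ≤ √((2 : ℝ) ^ K * (#X : ℝ) * #Y) := by
  classical
  apply Real.abs_le_sqrt
  have h1 : ∑ v ∈ Y, ∑ u ∈ X, lrP z u v = ∑ l, (∑ u ∈ X, z l u) * (∑ v ∈ Y, lrz z l v) := by
    unfold lrP
    have e1 : ∀ v, ∑ u ∈ X, ∑ l, z l u * lrz z l v = ∑ l, (∑ u ∈ X, z l u) * lrz z l v := by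
      intro v
      rw [Finset.sum_comm]
      apply Finset.sum_congr rfl
      intro l _
      rw [Finset.sum_mul]
    simp_rw [e1]
    rw [Finset.sum_comm]
    apply Finset.sum_congr rfl
    intro l _
    rw [Finset.mul_sum]
  rw [h1]
  refine (Finset.sum_mul_sq_le_sq_mul_sq _ _ _).trans ?_
  have h2 : ∑ l, (∑ u ∈ X, z l u) ^ 2 ≤ (#X : ℝ) := by
    have := hB (fun u => if u ∈ X then 1 else 0)
    simpa using this
  have h3 : ∑ l, (∑ v ∈ Y, lrz z l v) ^ 2 ≤ (2 : ℝ) ^ K * #Y := by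
    have e1 : ∀ l, ∑ v ∈ Y, lrz z l v = ∑ u, z l u * (∑ v ∈ Y, chi v u) := by
      intro l
      unfold lrz
      rw [Finset.sum_comm]
      apply Finset.sum_congr rfl
      intro u _
      rw [Finset.mul_sum]
      apply Finset.sum_congr rfl
      intro v _
      rw [lr_comm]
    simp_rw [e1]
    refine (hB _).trans ?_
    rw [sum_sq]
  calc _ ≤ (#X : ℝ) * ((2 : ℝ) ^ K * #Y) := by
        apply mul_le_mul h2 h3 _ (by positivity)
        exact Finset.sum_nonneg fun _ _ => sq_nonneg _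
    _ = _ := by ring

theorem lr_kill (f : (Fin K → Bool) → (Fin K → Bool) → ℝ)
    (h : ∀ l v, ∑ u, z l u * f u v = 0) : ∑ v, ∑ u, f u v * lrP z u v = 0 := by
  apply Finset.sum_eq_zero
  intro v _
  unfold lrP
  simp_rw [Finset.mul_sum]
  rw [Finset.sum_comm]
  apply Finset.sum_eq_zero
  intro l _
  have : ∑ u, f u v * (z l u * lrz z l v) = (∑ u, z l u * f u v) * lrz z l v := by
    rw [Finset.sum_mul]
    apply Finset.sum_congr rfl
    intro u _
    ring
  rw [this, h, zero_mul]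

end

open Classical in
theorem chi_bound {K : ℕ} {J : Type} [Fintype J] (C0 : ℝ) (b : J → ℝ)
    (U V : J → (Fin K → Bool) → ℝ) (B : ℝ) (hB : 0 ≤ B) (R : ℕ)
    (h : ∀ u v : Fin K → Bool,
      |chi u v - (C0 + ∑ j, b j * (if 0 < U j u + V j v then 1 else 0))| ≤ 1 / 2)
    (hJ : ∀ j, |b j| ≤ B ∨ #(univ.image (U j)) ≤ R) :
    (2 : ℝ) ^ K ≤ 2 * (1 + Fintype.card J * R) ∨
      (2 : ℝ) ^ K ≤ (8 * (K + 1) * (Fintype.card J * B)) ^ 2 := by
  by_cases hbig : (2 : ℝ) ^ K ≤ 2 * (1 + Fintype.card J * R)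
  · exact Or.inl hbig
  right
  push Not at hbig
  -- the family to be killed
  let I := Unit ⊕ (Σ j : {j : J // #(univ.image (U j)) ≤ R}, {τ : ℝ // τ ∈ univ.image (U j.1)})
  let g : I → (Fin K → Bool) → ℝ := fun i u => match i with
    | Sum.inl _ => 1
    | Sum.inr p => if U p.1.1 u = p.2.1 then 1 else 0
  have hI : Fintype.card I ≤ 1 + Fintype.card J * R :=
    lr_card (fun j => #(univ.image (U j)) ≤ R) (fun j => univ.image (U j)) R (fun j hj => hj)
  obtain ⟨d, z, hd, hz, hg, hB'⟩ := lr_basis g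
  set N : ℝ := (2 : ℝ) ^ K with hN
  have hNpos : 0 < N := by positivity
  have hdN : N ≤ 2 * d := by
    rw [Fintype.card_fun, Fintype.card_bool, Fintype.card_fin] at hd
    have h1 : (2 : ℝ) ^ K ≤ d + (1 + Fintype.card J * R) := by
      exact_mod_cast hd.trans (Nat.add_le_add_left hI d)
    rw [← hN] at h1
    linarith
  have hone : ∑ v, ∑ u, C0 * lrP z u v = 0 := by
    apply lr_kill z (fun _ _ => C0)
    intro l v
    have := hg l (Sum.inl ())
    simp only [g] at this
    rw [← Finset.sum_mul]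
    simp only [mul_one] at this
    rw [this, zero_mul]
  have hJ2 : ∀ j, #(univ.image (U j)) ≤ R →
      ∑ v, ∑ u, (if 0 < U j u + V j v then (1 : ℝ) else 0) * lrP z u v = 0 := by
    intro j hj
    apply lr_kill z (fun u v => if 0 < U j u + V j v then (1 : ℝ) else 0)
    intro l v
    have h1 : ∀ u, (if 0 < U j u + V j v then (1 : ℝ) else 0) =
        ∑ τ ∈ univ.image (U j), (if 0 < τ + V j v then (1 : ℝ) else 0) *
          (if U j u = τ then 1 else 0) := by
      intro u
      rw [Finset.sum_eq_single (U j u)]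
      · simp
      · intro τ _ hτ
        have hne : ¬ U j u = τ := fun e => hτ e.symm
        simp [hne]
      · intro h
        exact absurd (Finset.mem_image_of_mem _ (Finset.mem_univ u)) h
    simp_rw [h1, Finset.mul_sum]
    rw [Finset.sum_comm]
    apply Finset.sum_eq_zero
    intro τ hτ
    have h2 := hg l (Sum.inr ⟨⟨j, hj⟩, ⟨τ, hτ⟩⟩)
    simp only [g] at h2
    have h3 : ∑ u, z l u * ((if 0 < τ + V j v then (1 : ℝ) else 0) *
        (if U j u = τ then 1 else 0)) = (if 0 < τ + V j v then (1 : ℝ) else 0) *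
        ∑ u, z l u * (if U j u = τ then 1 else 0) := by
      rw [Finset.mul_sum]
      apply Finset.sum_congr rfl
      intro u _
      ring
    rw [h3, h2, mul_zero]
  have hker := fun j => kernel_threshold (lrP z) N hNpos.le (lr_rect z hB') (U j) (V j)
  have hJ1 : ∀ j, |b j * ∑ v, ∑ u, (if 0 < U j u + V j v then (1 : ℝ) else 0) * lrP z u v| ≤
      B * ((K + 1) * √(N * N * N)) := by
    intro j
    have e1 : ∑ v, ∑ u, (if 0 < U j u + V j v then (1 : ℝ) else 0) * lrP z u v =
        ∑ v, ∑ u, if 0 < U j u + V j v then lrP z u v else 0 := by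
      apply Finset.sum_congr rfl
      intro v _
      apply Finset.sum_congr rfl
      intro u _
      split_ifs <;> simp
    rcases hJ j with h1 | h1
    · rw [abs_mul, e1]
      exact mul_le_mul h1 (hker j) (abs_nonneg _) hB
    · rw [hJ2 j h1, mul_zero, abs_zero]
      positivity
  -- the error
  set Err : (Fin K → Bool) → (Fin K → Bool) → ℝ := fun u v =>
    chi u v - (C0 + ∑ j, b j * (if 0 < U j u + V j v then 1 else 0)) with hErr
  have hEle : |∑ v, ∑ u, Err u v * lrP z u v| ≤ 1 / 2 * (N * √(N * d)) := by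
    have h1 : |∑ v, ∑ u, Err u v * lrP z u v| ≤ ∑ v, ∑ u, 1 / 2 * |lrP z u v| := by
      refine (Finset.abs_sum_le_sum_abs _ _).trans (Finset.sum_le_sum fun v _ => ?_)
      refine (Finset.abs_sum_le_sum_abs _ _).trans (Finset.sum_le_sum fun u _ => ?_)
      rw [abs_mul]
      exact mul_le_mul_of_nonneg_right (h u v) (abs_nonneg _)
    refine h1.trans ?_
    simp_rw [← Finset.mul_sum]
    apply mul_le_mul_of_nonneg_left _ (by norm_num)
    have hcard : ((#(univ : Finset (Fin K → Bool)) : ℕ) : ℝ) = N := by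
      rw [Finset.card_univ, Fintype.card_fun, Fintype.card_bool, Fintype.card_fin, hN]
      push_cast
      rfl
    have h2 : (∑ v, ∑ u, |lrP z u v|) ^ 2 ≤ N ^ 2 * (N * d) := by
      have h3 : (∑ v, ∑ u, |lrP z u v|) ^ 2 ≤ N * ∑ v, (∑ u, |lrP z u v|) ^ 2 := by
        have := sq_sum_le_card_mul_sum_sq (s := (univ : Finset (Fin K → Bool)))
          (f := fun v => ∑ u, |lrP z u v|)
        rwa [hcard] at this
      have h4 : ∀ v, (∑ u, |lrP z u v|) ^ 2 ≤ N * ∑ u, (lrP z u v) ^ 2 := by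
        intro v
        have := sq_sum_le_card_mul_sum_sq (s := (univ : Finset (Fin K → Bool)))
          (f := fun u => |lrP z u v|)
        rw [hcard] at this
        simpa [sq_abs] using this
      calc _ ≤ N * ∑ v, (∑ u, |lrP z u v|) ^ 2 := h3
        _ ≤ N * ∑ v, N * ∑ u, (lrP z u v) ^ 2 :=
            mul_le_mul_of_nonneg_left (Finset.sum_le_sum fun v _ => h4 v) hNpos.le
        _ = N ^ 2 * (N * d) := by
            rw [← Finset.mul_sum, lr_sq z hz, hN]
            ring
    have h5 : ∑ v, ∑ u, |lrP z u v| ≤ √(N ^ 2 * (N * d)) := Real.le_sqrt_of_sq_le h2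
    rwa [Real.sqrt_mul (by positivity), Real.sqrt_sq hNpos.le] at h5
  -- decomposition
  have hdec : (d : ℝ) * N = ∑ v, ∑ u, Err u v * lrP z u v + ∑ v, ∑ u, C0 * lrP z u v +
      ∑ j, b j * ∑ v, ∑ u, (if 0 < U j u + V j v then (1 : ℝ) else 0) * lrP z u v := by
    rw [hN, ← lr_corr z hz]
    have e1 : ∑ j, b j * ∑ v, ∑ u, (if 0 < U j u + V j v then (1 : ℝ) else 0) * lrP z u v =
        ∑ v, ∑ u, (∑ j, b j * (if 0 < U j u + V j v then 1 else 0)) * lrP z u v := by
      simp_rw [Finset.mul_sum]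
      rw [Finset.sum_comm]
      apply Finset.sum_congr rfl
      intro v _
      rw [Finset.sum_comm]
      apply Finset.sum_congr rfl
      intro u _
      rw [Finset.sum_mul]
      apply Finset.sum_congr rfl
      intro j _
      ring
    rw [e1, ← Finset.sum_add_distrib, ← Finset.sum_add_distrib]
    apply Finset.sum_congr rfl
    intro v _
    rw [← Finset.sum_add_distrib, ← Finset.sum_add_distrib]
    apply Finset.sum_congr rfl
    intro u _
    rw [hErr]
    ring
  have hsum : |∑ j, b j * ∑ v, ∑ u, (if 0 < U j u + V j v then (1 : ℝ) else 0) * lrP z u v| ≤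
      Fintype.card J * (B * ((K + 1) * √(N * N * N))) := by
    refine (Finset.abs_sum_le_sum_abs _ _).trans ?_
    refine (Finset.sum_le_sum fun j _ => hJ1 j).trans ?_
    rw [Finset.sum_const, Finset.card_univ, nsmul_eq_mul]
  rw [hone, add_zero] at hdec
  have hmain : (d : ℝ) * N ≤ 1 / 2 * (N * √(N * d)) +
      Fintype.card J * (B * ((K + 1) * √(N * N * N))) := by
    have h1 := (abs_le.mp hEle).2
    have h2 := (abs_le.mp hsum).2
    linarith
  -- arithmetic
  set s : ℝ := √N with hs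
  have hspos : 0 < s := Real.sqrt_pos.mpr hNpos
  have hss : s * s = N := Real.mul_self_sqrt hNpos.le
  have hNNN : √(N * N * N) = N * s := by
    rw [Real.sqrt_mul (by positivity), Real.sqrt_mul_self hNpos.le]
  have hd0 : (0 : ℝ) ≤ d := Nat.cast_nonneg d
  have hNd : √(N * d) ≤ 29 / 20 * d := by
    apply Real.sqrt_le_iff.mpr
    constructor
    · positivity
    · nlinarith
  rw [hNNN] at hmain
  set c : ℝ := (K + 1) * (Fintype.card J * B) with hc
  have hc0 : 0 ≤ c := by positivity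
  have h1 : (d : ℝ) ≤ 29 / 40 * d + c * s := by
    have h2 : (d : ℝ) * N ≤ (29 / 40 * d + c * s) * N := by
      have h3 : 1 / 2 * (N * √(N * d)) ≤ 1 / 2 * (N * (29 / 20 * d)) := by
        apply mul_le_mul_of_nonneg_left _ (by norm_num)
        exact mul_le_mul_of_nonneg_left hNd hNpos.le
      calc (d : ℝ) * N ≤ _ := hmain
        _ ≤ 1 / 2 * (N * (29 / 20 * d)) + Fintype.card J * (B * ((K + 1) * (N * s))) := by
            linarith
        _ = _ := by rw [hc]; ring
    exact le_of_mul_le_mul_right h2 hNpos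
  have h4 : s ≤ 8 * c := by
    have h5 : 11 / 40 * (s * s) ≤ 2 * (c * s) := by
      rw [hss]
      linarith
    have h6 : 11 / 80 * s ≤ c := by
      have : (11 / 80 * s) * s ≤ c * s := by linarith
      exact le_of_mul_le_mul_right this hspos
    linarith
  have h7 : N = s ^ 2 := by rw [pow_two, hss]
  rw [h7]
  have h8 : 8 * ((K : ℝ) + 1) * (Fintype.card J * B) = 8 * c := by rw [hc]; ring
  rw [h8]
  exact pow_le_pow_left₀ hspos.le h4 2

end Pool.Agent.MP_244be3_lc.WN
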