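import Pool.Agent.MP_244be3_lc.WN.Base

set_option autoImplicit false

/-!
[WN-B2] Exponential moment of the number of exceptional alive bits.

Proof. `∑ al, ∏ i, (if (i, al i) ∈ E then 2 else 1) = ∏ i, (m + d i)` (`Finset.prod_univ_sum`),
`d i` the number of `j` with `(i, j) ∈ E`; `∏ (1 + d i / m) ≤ exp (∑ d i / m) ≤ exp (1 / 2) ≤ 7 / 4`.
-/

namespace Pool.Agent.MP_244be3_lc.WN

open Finset

theorem hits_exp_half : Real.exp (1 / 2) ≤ 7 / 4 := by
  have h1 : Real.exp (1 / 2) * Real.exp (1 / 2) = Real.exp 1 := by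
    rw [← Real.exp_add]; norm_num
  have h2 := Real.exp_one_lt_d9
  have h3 := Real.exp_pos (1 / 2 : ℝ)
  nlinarith

theorem hits_prod {ι : Type} [Fintype ι] [DecidableEq ι] {m : ℕ} (d : ι → ℕ)
    (h : 2 * ∑ i, d i ≤ m) :
    ∏ i, ((m : ℝ) + d i) ≤ 7 / 4 * (m : ℝ) ^ Fintype.card ι := by
  rcases Nat.eq_zero_or_pos m with rfl | hm
  · have hd : ∀ i, d i = 0 := by
      intro i
      have := Finset.single_le_sum (f := d) (fun _ _ => Nat.zero_le _) (Finset.mem_univ i)
      omega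
    simp only [hd, Nat.cast_zero, add_zero, Finset.prod_const, Finset.card_univ]
    have : (0 : ℝ) ≤ (0 : ℝ) ^ Fintype.card ι := by positivity
    linarith
  · have hm' : (0 : ℝ) < m := by exact_mod_cast hm
    have e1 : ∏ i, ((m : ℝ) + d i) = (m : ℝ) ^ Fintype.card ι * ∏ i, (1 + (d i : ℝ) / m) := by
      rw [← Finset.card_univ, ← Finset.prod_const, ← Finset.prod_mul_distrib]
      refine Finset.prod_congr rfl fun i _ => ?_
      field_simp
    have e2 : ∏ i, (1 + (d i : ℝ) / m) ≤ Real.exp (∑ i, (d i : ℝ) / m) := by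
      rw [Real.exp_sum]
      refine Finset.prod_le_prod (fun i _ => by positivity) fun i _ => ?_
      rw [add_comm]
      exact Real.add_one_le_exp _
    have e3 : ∑ i, (d i : ℝ) / m ≤ 1 / 2 := by
      rw [← Finset.sum_div, div_le_iff₀ hm']
      have : (2 : ℝ) * ∑ i, (d i : ℝ) ≤ m := by exact_mod_cast h
      linarith
    have e4 : ∏ i, (1 + (d i : ℝ) / m) ≤ 7 / 4 :=
      e2.trans ((Real.exp_le_exp.2 e3).trans hits_exp_half)
    rw [e1, mul_comm (7 / 4 : ℝ)]
    exact mul_le_mul_of_nonneg_left e4 (by positivity)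

theorem hits_moment {ι : Type} [Fintype ι] [DecidableEq ι] {m : ℕ} (E : Finset (ι × Fin m))
    (h : 2 * E.card ≤ m) :
    ∑ al : ι → Fin m, (2 : ℝ) ^ #{i : ι | (i, al i) ∈ E} ≤ 7 / 4 * (m : ℝ) ^ Fintype.card ι := by
  have e1 : ∀ al : ι → Fin m, (2 : ℝ) ^ #{i : ι | (i, al i) ∈ E} =
      ∏ i, (if (i, al i) ∈ E then (2 : ℝ) else 1) := by
    intro al
    rw [← Finset.prod_filter, Finset.prod_const]
  simp_rw [e1]
  have e2 := Finset.prod_univ_sum (fun _ : ι => (Finset.univ : Finset (Fin m)))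
    (fun i j => if (i, j) ∈ E then (2 : ℝ) else 1)
  rw [Fintype.piFinset_univ] at e2
  rw [← e2]
  have e3 : ∀ i : ι, ∑ j : Fin m, (if (i, j) ∈ E then (2 : ℝ) else 1) =
      m + (#{j : Fin m | (i, j) ∈ E} : ℕ) := by
    intro i
    have : ∀ j : Fin m, (if (i, j) ∈ E then (2 : ℝ) else 1) = 1 + if (i, j) ∈ E then 1 else 0 := by
      intro j; split_ifs <;> norm_num
    simp_rw [this]
    rw [Finset.sum_add_distrib, Finset.sum_boole]
    simp
  simp_rw [e3]
  refine hits_prod _ ?_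
  have e4 : ∑ i : ι, #{j : Fin m | (i, j) ∈ E} = E.card := by
    rw [Finset.card_eq_sum_card_fiberwise (f := Prod.fst) (t := Finset.univ) (by simp)]
    refine Finset.sum_congr rfl fun i _ => ?_
    refine Finset.card_bij (fun j _ => (i, j)) ?_ ?_ ?_
    · intro j hj
      simpa using hj
    · intro a _ b _ hab
      simpa using hab
    · rintro ⟨a, b⟩ hab
      rw [Finset.mem_filter] at hab
      obtain ⟨h1, h2⟩ := hab
      simp only at h2
      subst h2
      exact ⟨b, by simpa using h1, rfl⟩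
  rw [e4]
  exact h

end Pool.Agent.MP_244be3_lc.WN
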