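import Pool.Agent.MP_244be3_lc.WN.Nonconst
import Pool.Agent.MP_244be3_lc.WN.Hits

set_option autoImplicit false

/-!
[WN-B3] Random restriction of a representation.

Proof. `par (fun j => put al x y (i, j)) = y i`. The gate `θ, b` at `put al x y` is the gate with
weights `(1 - 2 bit (restpar (al i) (x i))) * θ (i, al i)` and bias
`b + ∑ i, ∑ j ≠ al i, θ (i, j) bit (x i j) + ∑ i, θ (i, al i) bit (restpar ..)`. Sum over all
pairs `(al, x)` the quantity
`#{j ∈ E | gate j not constant on put al x} / (S2 + 1) + ∑ j ∉ E with NT, 2 ^ hits_j(al) / 2 ^ t`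
(`hits_j(al) = #{i | (i, al i) ∈ E_j}`, `E_j` the exceptional set of gate `j`): by `nonconst_count`
and `hits_moment` it is less than the number of pairs (`W * 2 k ^ 2 / (2 ^ μ (S2 + 1)) ≤ 1 / 2`,
`S * (7 / 4) / 2 ^ t ≤ 7 / 16`), so some pair has value `< 1`: at most `S2` wild gates are not
constant, and all structured gates have less than `t` exceptional alive bits. Wild gates that are
constant `c` are replaced by the gate with zero weights and bias `c`; zero weights have `NT`.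
-/

namespace Pool.Agent.MP_244be3_lc.WN

open Finset Pool.Agent.MP_244be3_lc

theorem Restr_par {ι : Type} {m : ℕ} (al : ι → Fin m) (x : ι → Fin m → Bool) (y : ι → Bool)
    (i : ι) : par (fun j => put al x y (i, j)) = y i := by
  classical
  unfold par put restpar
  simp only
  set R : ℕ := #{j : Fin m | j ≠ al i ∧ x i j = true} with hR
  have h1 : #{j : Fin m | (if j = al i then xor (y i) (decide (Odd R)) else x i j) = true} =
      R + (if xor (y i) (decide (Odd R)) = true then 1 else 0) := by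
    have h2 : (Finset.univ.filter fun j : Fin m =>
        (if j = al i then xor (y i) (decide (Odd R)) else x i j) = true) =
        (Finset.univ.filter fun j : Fin m => j ≠ al i ∧ x i j = true) ∪
          (if xor (y i) (decide (Odd R)) = true then {al i} else ∅) := by
      ext j
      rw [Finset.mem_union, Finset.mem_filter, Finset.mem_filter]
      by_cases hj : j = al i
      · subst hj
        by_cases hx : xor (y i) (decide (Odd R)) = true
        · simp [hx]
        · simp [hx]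
      · have h3 : j ∉ (if xor (y i) (decide (Odd R)) = true then ({al i} : Finset (Fin m)) else ∅) := by
          split_ifs
          · simpa using hj
          · simp
        simp only [hj, h3, if_false, Finset.mem_univ, true_and, or_false, ne_eq, not_false_eq_true]
    rw [h2, Finset.card_union_of_disjoint]
    · congr 1
      split_ifs <;> simp
    · rw [Finset.disjoint_left]
      intro j hj hj2
      rw [Finset.mem_filter] at hj
      split_ifs at hj2
      · rw [Finset.mem_singleton] at hj2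
        exact hj.2.1 hj2
      · simp at hj2
  rw [h1]
  by_cases hodd : Odd R
  · cases hy : y i
    · have h4 : ¬ Odd (R + 1) := by
        rw [Nat.not_odd_iff_even]
        exact hodd.add_one
      simp [hodd, h4]
    · simp [hodd]
  · cases hy : y i
    · simp [hodd]
    · have h4 : Odd (R + 1) := (Nat.not_odd_iff_even.1 hodd).add_one
      simp [hodd, h4]

theorem Restr_bit (a r : Bool) : bit (xor a r) = (1 - 2 * bit r) * bit a + bit r := by
  cases a <;> cases r <;> norm_num [bit]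

/-- the restricted weights -/
noncomputable def Restr_th {ι : Type} {m : ℕ} (al : ι → Fin m) (x : ι → Fin m → Bool)
    (θ : ι × Fin m → ℝ) (i : ι) : ℝ :=
  (1 - 2 * bit (restpar (al i) (x i))) * θ (i, al i)

/-- the restricted bias -/
noncomputable def Restr_b {ι : Type} [Fintype ι] {m : ℕ} (al : ι → Fin m)
    (x : ι → Fin m → Bool) (θ : ι × Fin m → ℝ) (b : ℝ) : ℝ :=
  b + ∑ i, ((∑ j ∈ univ.erase (al i), θ (i, j) * bit (x i j)) +
    θ (i, al i) * bit (restpar (al i) (x i)))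

theorem Restr_gate {ι : Type} [Fintype ι] {m : ℕ} (al : ι → Fin m) (x : ι → Fin m → Bool)
    (θ : ι × Fin m → ℝ) (b : ℝ) (y : ι → Bool) :
    gate (Restr_th al x θ) (Restr_b al x θ b) y = gate θ b (put al x y) := by
  have h1 : (∑ i, Restr_th al x θ i * bit (y i)) + Restr_b al x θ b =
      (∑ p, θ p * bit (put al x y p)) + b := by
    rw [Fintype.sum_prod_type]
    unfold Restr_b
    rw [add_comm b, ← add_assoc, ← Finset.sum_add_distrib]
    congr 1
    refine Finset.sum_congr rfl fun i _ => ?_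
    rw [← Finset.add_sum_erase _ _ (Finset.mem_univ (al i))]
    have h2 : put al x y (i, al i) = xor (y i) (restpar (al i) (x i)) := by
      unfold put
      simp
    have h3 : ∑ j ∈ univ.erase (al i), θ (i, j) * bit (put al x y (i, j)) =
        ∑ j ∈ univ.erase (al i), θ (i, j) * bit (x i j) := by
      refine Finset.sum_congr rfl fun j hj => ?_
      have h4 : put al x y (i, j) = x i j := by
        unfold put
        simp [Finset.ne_of_mem_erase hj]
      rw [h4]
    rw [h2, h3, Restr_bit]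
    unfold Restr_th
    ring
  unfold gate
  rw [h1]

theorem Restr_NT {ι : Type} [Fintype ι] [DecidableEq ι] {m : ℕ} (al : ι → Fin m)
    (x : ι → Fin m → Bool) (θ : ι × Fin m → ℝ) {r M t : ℕ} (D : Finset (ι × Fin m))
    (hD : ∃ u : Fin r → ℝ, ∀ i, i ∉ D → ∃ c : Fin r → ℤ, (∀ e, |c e| ≤ M) ∧
      θ i = ∑ e, (c e : ℝ) * u e)
    (hc : #{i : ι | (i, al i) ∈ D} ≤ t) : NT r M t (Restr_th al x θ) := by
  obtain ⟨u, hu⟩ := hD
  refine ⟨univ.filter fun i : ι => (i, al i) ∈ D, hc, u, fun i hi => ?_⟩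
  have hi' : (i, al i) ∉ D := fun h => hi (by simp [h])
  obtain ⟨c, hcM, hcs⟩ := hu (i, al i) hi'
  unfold Restr_th
  cases restpar (al i) (x i)
  · refine ⟨c, hcM, ?_⟩
    rw [hcs]
    simp [bit]
  · refine ⟨fun e => - c e, fun e => by rw [abs_neg]; exact hcM e, ?_⟩
    rw [hcs]
    have h1 : (1 - 2 * bit true : ℝ) = -1 := by norm_num [bit]
    rw [h1, neg_one_mul, ← Finset.sum_neg_distrib]
    refine Finset.sum_congr rfl fun e _ => ?_
    push_cast
    ring

theorem Restr_NT_zero {ι : Type} (r M t : ℕ) : NT r M t (fun _ : ι => (0 : ℝ)) :=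
  ⟨∅, by simp, fun _ => 0, fun _ _ => ⟨fun _ => 0, fun _ => by simp, by simp⟩⟩

theorem restrict {ι : Type} [Fintype ι] {μ : ℕ} (G : (ι → Bool) → ℝ)
    {δ : ℝ} {S W S2 t r M d : ℕ} {A : ℝ}
    (hrep : Rep (fun s : ι × Fin (4 ^ μ) → Bool => G (fun i => par (fun j => s (i, j)))) δ S W A
      r M d)
    (h1 : 4 * W * Fintype.card ι ^ 2 ≤ 2 ^ μ * (S2 + 1)) (h2 : 4 * S ≤ 2 ^ t)
    (h3 : 2 * d ≤ 4 ^ μ) : Rep G δ S S2 A r M t := by
  classical
  obtain ⟨g, hg, θ, b, a, a0, E, hE, hA, hF⟩ := hrep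
  -- exceptional sets
  have hDex : ∀ j, ∃ D : Finset (ι × Fin (4 ^ μ)), D.card ≤ d ∧ (NT r M d (θ j) →
      ∃ u : Fin r → ℝ, ∀ i, i ∉ D → ∃ c : Fin r → ℤ, (∀ e, |c e| ≤ M) ∧
        θ j i = ∑ e, (c e : ℝ) * u e) := by
    intro j
    by_cases h : NT r M d (θ j)
    · obtain ⟨D, hD1, hD2⟩ := h
      exact ⟨D, hD1, fun _ => hD2⟩
    · exact ⟨∅, by simp, fun h' => absurd h' h⟩
  choose D hDcard hD using hDex
  -- the set of pairs
  set NC : Fin g → Finset ((ι → Fin (4 ^ μ)) × (ι → Fin (4 ^ μ) → Bool)) := fun j =>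
    univ.filter fun p => ¬ ∃ c, ∀ y, gate (θ j) (b j) (put p.1 p.2 y) = c with hNC
  set P : ℝ := (Fintype.card ((ι → Fin (4 ^ μ)) × (ι → Fin (4 ^ μ) → Bool)) : ℝ) with hP
  have hPpos : 0 < P := by
    rw [hP]
    have : 0 < Fintype.card ((ι → Fin (4 ^ μ)) × (ι → Fin (4 ^ μ) → Bool)) := by
      have h4 : 0 < 4 ^ μ := by positivity
      exact Fintype.card_pos_iff.2 ⟨(fun _ => ⟨0, h4⟩, fun _ _ => false)⟩
    exact_mod_cast this
  set f : (ι → Fin (4 ^ μ)) × (ι → Fin (4 ^ μ) → Bool) → ℝ := fun p =>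
    (∑ j ∈ E, (if p ∈ NC j then (1 : ℝ) else 0)) / (S2 + 1) +
      ∑ j, (2 : ℝ) ^ #{i : ι | (i, p.1 i) ∈ D j} / 2 ^ t with hf
  have hsum1 : ∑ p, (∑ j ∈ E, (if p ∈ NC j then (1 : ℝ) else 0)) / (S2 + 1) ≤ P / 2 := by
    rw [← Finset.sum_div, Finset.sum_comm]
    have h4 : ∀ j, ∑ p, (if p ∈ NC j then (1 : ℝ) else 0) = ((NC j).card : ℝ) := by
      intro j
      rw [Finset.sum_ite_mem, Finset.univ_inter, Finset.sum_const, nsmul_eq_mul, mul_one]
    have h5 : ∀ j, (2 : ℝ) ^ μ * ((NC j).card : ℝ) ≤ 2 * (Fintype.card ι : ℝ) ^ 2 * P := by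
      intro j
      have h6 := nonconst_count μ (θ j) (b j)
      have h7 : 2 ^ μ * (NC j).card ≤ 2 * Fintype.card ι ^ 2 *
          Fintype.card ((ι → Fin (4 ^ μ)) × (ι → Fin (4 ^ μ) → Bool)) := by
        convert h6
      rw [hP]
      exact_mod_cast h7
    rw [Finset.sum_congr rfl fun j _ => h4 j, div_le_iff₀ (by positivity)]
    have h8 : (2 : ℝ) ^ μ * ∑ j ∈ E, ((NC j).card : ℝ) ≤
        W * (2 * (Fintype.card ι : ℝ) ^ 2 * P) := by
      rw [Finset.mul_sum]
      calc ∑ j ∈ E, (2 : ℝ) ^ μ * ((NC j).card : ℝ)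
          ≤ ∑ j ∈ E, 2 * (Fintype.card ι : ℝ) ^ 2 * P := Finset.sum_le_sum fun j _ => h5 j
        _ = (E.card : ℝ) * (2 * (Fintype.card ι : ℝ) ^ 2 * P) := by
            rw [Finset.sum_const, nsmul_eq_mul]
        _ ≤ W * (2 * (Fintype.card ι : ℝ) ^ 2 * P) := by
            refine mul_le_mul_of_nonneg_right ?_ (by positivity)
            exact_mod_cast hE
    have h9 : (4 : ℝ) * W * (Fintype.card ι : ℝ) ^ 2 ≤ 2 ^ μ * (S2 + 1) := by exact_mod_cast h1
    have h10 : (0 : ℝ) < 2 ^ μ := by positivity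
    have h11 : (4 : ℝ) * W * (Fintype.card ι : ℝ) ^ 2 * P ≤ 2 ^ μ * (S2 + 1) * P :=
      mul_le_mul_of_nonneg_right h9 hPpos.le
    have h12 : (2 : ℝ) ^ μ * ∑ j ∈ E, ((NC j).card : ℝ) ≤ 2 ^ μ * (P / 2 * (S2 + 1)) := by
      linarith
    exact le_of_mul_le_mul_left h12 h10
  have hsum2 : ∑ p : (ι → Fin (4 ^ μ)) × (ι → Fin (4 ^ μ) → Bool),
      ∑ j, (2 : ℝ) ^ #{i : ι | (i, p.1 i) ∈ D j} / 2 ^ t ≤ 7 / 16 * P := by
    rw [Finset.sum_comm]
    have h4 : ∀ j : Fin g, ∑ p : (ι → Fin (4 ^ μ)) × (ι → Fin (4 ^ μ) → Bool),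
        (2 : ℝ) ^ #{i : ι | (i, p.1 i) ∈ D j} / 2 ^ t ≤ 7 / 4 * P / 2 ^ t := by
      intro j
      rw [← Finset.sum_div]
      refine div_le_div_of_nonneg_right ?_ (by positivity)
      rw [Fintype.sum_prod_type]
      simp only [Finset.sum_const, nsmul_eq_mul]
      rw [← Finset.mul_sum]
      have h5 := hits_moment (D j) ((Nat.mul_le_mul_left 2 (hDcard j)).trans h3)
      have h6 : P = (((4 ^ μ : ℕ) : ℝ) ^ Fintype.card ι) *
          ((univ : Finset (ι → Fin (4 ^ μ) → Bool)).card : ℝ) := by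
        rw [hP, Fintype.card_prod, Finset.card_univ, Nat.cast_mul]
        congr 1
        rw [Fintype.card_fun, Fintype.card_fin, Nat.cast_pow]
      rw [h6]
      have h7 : (0 : ℝ) ≤ ((univ : Finset (ι → Fin (4 ^ μ) → Bool)).card : ℝ) :=
        Nat.cast_nonneg _
      calc ((univ : Finset (ι → Fin (4 ^ μ) → Bool)).card : ℝ) *
            ∑ al : ι → Fin (4 ^ μ), (2 : ℝ) ^ #{i : ι | (i, al i) ∈ D j}
          ≤ ((univ : Finset (ι → Fin (4 ^ μ) → Bool)).card : ℝ) *
            (7 / 4 * ((4 ^ μ : ℕ) : ℝ) ^ Fintype.card ι) := mul_le_mul_of_nonneg_left h5 h7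
        _ = _ := by ring
    have h5 : ((g : ℝ)) * 4 ≤ 2 ^ t := by
      have : g * 4 ≤ 2 ^ t := by omega
      exact_mod_cast this
    calc ∑ j : Fin g, ∑ p : (ι → Fin (4 ^ μ)) × (ι → Fin (4 ^ μ) → Bool),
          (2 : ℝ) ^ #{i : ι | (i, p.1 i) ∈ D j} / 2 ^ t
        ≤ ∑ j : Fin g, 7 / 4 * P / 2 ^ t := Finset.sum_le_sum fun j _ => h4 j
      _ = (g : ℝ) * (7 / 4 * P / 2 ^ t) := by
          rw [Finset.sum_const, Finset.card_univ, Fintype.card_fin, nsmul_eq_mul]
      _ = 7 / 16 * P * ((g : ℝ) * 4 / 2 ^ t) := by ring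
      _ ≤ 7 / 16 * P * 1 := by
          refine mul_le_mul_of_nonneg_left ?_ (by positivity)
          rw [div_le_one (by positivity)]
          exact h5
      _ = 7 / 16 * P := by ring
  obtain ⟨p, -, hp⟩ : ∃ p ∈ (univ : Finset ((ι → Fin (4 ^ μ)) × (ι → Fin (4 ^ μ) → Bool))),
      f p < 1 := by
    refine Finset.exists_lt_of_sum_lt ?_
    rw [Finset.sum_const, Finset.card_univ, nsmul_eq_mul, mul_one]
    simp only [hf]
    rw [Finset.sum_add_distrib]
    have : P / 2 + 7 / 16 * P < P := by linarith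
    exact lt_of_le_of_lt (add_le_add hsum1 hsum2) this
  have hp1 : 0 ≤ (∑ j ∈ E, (if p ∈ NC j then (1 : ℝ) else 0)) / (S2 + 1) := by
    refine div_nonneg (Finset.sum_nonneg fun j _ => ?_) (by positivity)
    split_ifs <;> norm_num
  have hp2 : ∀ j, 0 ≤ (2 : ℝ) ^ #{i : ι | (i, p.1 i) ∈ D j} / 2 ^ t := fun j => by positivity
  have hp3 : (∑ j ∈ E, (if p ∈ NC j then (1 : ℝ) else 0)) / (S2 + 1) < 1 := by
    have h4 : 0 ≤ ∑ j, (2 : ℝ) ^ #{i : ι | (i, p.1 i) ∈ D j} / 2 ^ t :=
      Finset.sum_nonneg fun j _ => hp2 j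
    simp only [hf] at hp
    linarith
  have hp4 : ∀ j, #{i : ι | (i, p.1 i) ∈ D j} ≤ t := by
    intro j
    have h4 : (2 : ℝ) ^ #{i : ι | (i, p.1 i) ∈ D j} / 2 ^ t ≤
        ∑ j, (2 : ℝ) ^ #{i : ι | (i, p.1 i) ∈ D j} / 2 ^ t :=
      Finset.single_le_sum (f := fun j => (2 : ℝ) ^ #{i : ι | (i, p.1 i) ∈ D j} / 2 ^ t)
        (fun j _ => hp2 j) (Finset.mem_univ j)
    have h5 : (2 : ℝ) ^ #{i : ι | (i, p.1 i) ∈ D j} / 2 ^ t < 1 := by
      simp only [hf] at hp
      linarith
    rw [div_lt_one (by positivity)] at h5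
    exact ((pow_lt_pow_iff_right₀ (by norm_num : (1 : ℝ) < 2)).1 h5).le
  set E' : Finset (Fin g) := E.filter fun j => p ∈ NC j with hE'
  have hE'card : E'.card ≤ S2 := by
    rw [div_lt_one (by positivity), ← Finset.sum_filter, Finset.sum_const, nsmul_eq_mul,
      mul_one] at hp3
    have : E'.card < S2 + 1 := by exact_mod_cast hp3
    omega
  -- constants of the constant wild gates
  have hconst : ∀ j, ∃ c : ℝ, j ∈ E → j ∉ E' →
      ∀ y, gate (θ j) (b j) (put p.1 p.2 y) = c := by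
    intro j
    by_cases hj : j ∈ E ∧ j ∉ E'
    · have h4 : p ∉ NC j := fun h => hj.2 (Finset.mem_filter.2 ⟨hj.1, h⟩)
      have h5 : ∃ c, ∀ y, gate (θ j) (b j) (put p.1 p.2 y) = c := by
        by_contra h6
        exact h4 (Finset.mem_filter.2 ⟨Finset.mem_univ _, h6⟩)
      obtain ⟨c, hc⟩ := h5
      exact ⟨c, fun _ _ => hc⟩
    · exact ⟨0, fun h h' => absurd ⟨h, h'⟩ hj⟩
  choose c hc using hconst
  refine ⟨g, hg, fun j => if j ∈ E ∧ j ∉ E' then fun _ => 0 else Restr_th p.1 p.2 (θ j),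
    fun j => if j ∈ E ∧ j ∉ E' then c j else Restr_b p.1 p.2 (θ j) (b j), a, a0, E',
    hE'card, ?_, ?_⟩
  · intro j hj
    by_cases h : j ∈ E
    · right
      have h4 : j ∈ E ∧ j ∉ E' := ⟨h, hj⟩
      simp only [if_pos h4]
      exact Restr_NT_zero r M t
    · rcases hA j h with h5 | h5
      · exact Or.inl h5
      · right
        have h4 : ¬ (j ∈ E ∧ j ∉ E') := fun h' => h h'.1
        simp only [if_neg h4]
        exact Restr_NT p.1 p.2 (θ j) (D j) (hD j h5) (hp4 j)
  · intro y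
    have h4 := hF (put p.1 p.2 y)
    have h5 : (fun i => par (fun j => put p.1 p.2 y (i, j))) = y := by
      funext i
      exact Restr_par p.1 p.2 y i
    have h6 : ∀ j, gate (if j ∈ E ∧ j ∉ E' then fun _ => 0 else Restr_th p.1 p.2 (θ j))
        (if j ∈ E ∧ j ∉ E' then c j else Restr_b p.1 p.2 (θ j) (b j)) y =
        gate (θ j) (b j) (put p.1 p.2 y) := by
      intro j
      by_cases h : j ∈ E ∧ j ∉ E'
      · rw [if_pos h, if_pos h]
        have h7 := hc j h.1 h.2 y
        rw [h7]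
        have h8 : c j = 0 ∨ c j = 1 := by
          rw [← h7]
          unfold gate
          split_ifs
          · exact Or.inr rfl
          · exact Or.inl rfl
        unfold gate
        rcases h8 with h8 | h8
        · rw [h8]
          simp
        · rw [h8]
          simp
      · rw [if_neg h, if_neg h, Restr_gate]
    simp only [h5] at h4
    have h9 : ∑ j, a j * gate (if j ∈ E ∧ j ∉ E' then fun _ => 0 else Restr_th p.1 p.2 (θ j))
        (if j ∈ E ∧ j ∉ E' then c j else Restr_b p.1 p.2 (θ j) (b j)) y =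
        ∑ j, a j * gate (θ j) (b j) (put p.1 p.2 y) :=
      Finset.sum_congr rfl fun j _ => by rw [h6 j]
    rw [h9]
    exact h4

end Pool.Agent.MP_244be3_lc.WN
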