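import Pool.Agent.MP_244be3_lc.WN.Base
import Pool.Agent.MP_244be3_lc.Disc

set_option autoImplicit false

/-!
[WN-D] Pigeonhole, shattering and Hadamard rows.

Proof. Let `N = 2 ^ q`, `D = 2 ^ e`. Some label `l` is shared by more than `N ^ D` tables `h`
(`Finset.exists_lt_card_fiber_of_mul_lt_card_of_maps_to`). Since
`∑ i < D, choose N i ≤ ∑ i < D, N ^ i ≤ N ^ D`, the family of sets `{w | h w = true}` of these
tables shatters a set `T` of size `D` (`Finset.card_le_card_shatterer`). Identify `T` with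
`Fin e → Bool` by a bijection and choose for each `α` a table `H α` with label `l` and
`H α w = true ↔ chi α w = -1` on `T`. There is `λ ≠ 0` with `∑ α, λ α * c (H α) i = 0` for all `i`
and `∑ α, λ α = 0` (fewer than `D` equations). For `w ∈ T`: `∑ α, λ α * bit (H α w) =
- 1 / 2 * ∑ α, λ α * chi α w`. By `chi_orth`, `∑ w, (∑ α, λ α * chi α w) ^ 2 = D * ∑ α, λ α ^ 2`,
so some `w0` has `(∑ α, λ α * chi α w0) ^ 2 ≥ ∑ α, λ α ^ 2 > 0`. Divide `λ` by
`∑ α, λ α * bit (H α w0)`.
-/

namespace Pool.Agent.MP_244be3_lc.WN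

open Finset Pool.Agent.MP_244be3_lc

/-- a large family shatters a set of size `D` -/
theorem WND_shatter {α : Type} [Fintype α] [DecidableEq α] (𝒜 : Finset (Finset α)) (D : ℕ)
    (hN : 2 ≤ Fintype.card α) (h : Fintype.card α ^ D < #𝒜) : ∃ T : Finset α, #T = D ∧ 𝒜.Shatters T := by
  classical
  by_contra hc
  push Not at hc
  have h1 : ∀ T ∈ 𝒜.shatterer, #T < D := by
    intro T hT
    rw [Finset.mem_shatterer] at hT
    by_contra hlt
    push Not at hlt
    obtain ⟨T', hT', hcard⟩ := Finset.exists_subset_card_eq hlt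
    exact hc T' hcard (hT.mono_right hT')
  set N := Fintype.card α with hNdef
  have h2 : #𝒜.shatterer ≤ ∑ i ∈ Finset.range D, N.choose i := by
    have h3 : 𝒜.shatterer ⊆ (Finset.range D).biUnion fun i => powersetCard i univ := by
      intro T hT
      rw [Finset.mem_biUnion]
      exact ⟨#T, Finset.mem_range.mpr (h1 T hT), Finset.mem_powersetCard_univ.mpr rfl⟩
    calc #𝒜.shatterer ≤ #((Finset.range D).biUnion fun i => powersetCard i (univ : Finset α)) :=
          Finset.card_le_card h3
      _ ≤ ∑ i ∈ Finset.range D, #(powersetCard i (univ : Finset α)) := Finset.card_biUnion_le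
      _ = ∑ i ∈ Finset.range D, N.choose i := by
          refine Finset.sum_congr rfl fun i _ => ?_
          rw [Finset.card_powersetCard, Finset.card_univ]
  have h4 : ∑ i ∈ Finset.range D, N.choose i ≤ ∑ i ∈ Finset.range D, N ^ i :=
    Finset.sum_le_sum fun i _ => Nat.choose_le_pow _ _
  have h5 : ∑ i ∈ Finset.range D, N ^ i ≤ N ^ D := by
    have : ∀ D, ∑ i ∈ Finset.range D, N ^ i ≤ N ^ D := by
      intro D
      induction D with
      | zero => simp
      | succ D ih =>
        rw [Finset.sum_range_succ, pow_succ]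
        nlinarith [Nat.pow_pos (n := D) (show 0 < N by omega)]
    exact this D
  have h6 := Finset.card_le_card_shatterer 𝒜
  omega

theorem WND_sq {e : ℕ} (lam : (Fin e → Bool) → ℝ) :
    ∑ w, (∑ α, lam α * chi α w) ^ 2 = (2 : ℝ) ^ e * ∑ α, lam α ^ 2 := by
  have h1 : ∀ w : Fin e → Bool, (∑ α, lam α * chi α w) ^ 2 =
      ∑ α, ∑ β, lam α * lam β * (chi α w * chi β w) := by
    intro w
    rw [pow_two, Finset.sum_mul_sum]
    refine Finset.sum_congr rfl fun α _ => Finset.sum_congr rfl fun β _ => ?_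
    ring
  simp_rw [h1]
  rw [Finset.sum_comm, Finset.mul_sum]
  refine Finset.sum_congr rfl fun α _ => ?_
  rw [Finset.sum_comm]
  simp_rw [← Finset.mul_sum, chi_orth]
  simp only [mul_ite, mul_zero]
  rw [Finset.sum_ite_eq, if_pos (Finset.mem_univ _)]
  ring

theorem WND_ker {e n0 : ℕ} (h1 : n0 + 1 < 2 ^ e) (c : (Fin e → Bool) → Fin n0 → ℝ) :
    ∃ lam : (Fin e → Bool) → ℝ, lam ≠ 0 ∧ (∀ i, ∑ α, lam α * c α i = 0) ∧ ∑ α, lam α = 0 := by
  let f : ((Fin e → Bool) → ℝ) →ₗ[ℝ] (Option (Fin n0) → ℝ) :=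
    { toFun := fun lam o => match o with
        | none => ∑ α, lam α
        | some i => ∑ α, lam α * c α i
      map_add' := by
        intro x y
        funext o
        cases o with
        | none => simp [Finset.sum_add_distrib]
        | some i => simp [add_mul, Finset.sum_add_distrib]
      map_smul' := by
        intro r x
        funext o
        cases o with
        | none => simp [Finset.mul_sum]
        | some i => simp [Finset.mul_sum, mul_assoc] }
  have hlt : Module.finrank ℝ (Option (Fin n0) → ℝ) < Module.finrank ℝ ((Fin e → Bool) → ℝ) := by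
    rw [Module.finrank_fintype_fun_eq_card, Module.finrank_fintype_fun_eq_card]
    simp only [Fintype.card_option, Fintype.card_fin, Fintype.card_fun, Fintype.card_bool]
    exact h1
  have hker := LinearMap.ker_ne_bot_of_finrank_lt (f := f) hlt
  obtain ⟨lam, hlam, hne⟩ := (Submodule.ne_bot_iff _).mp hker
  rw [LinearMap.mem_ker] at hlam
  refine ⟨lam, hne, fun i => ?_, ?_⟩
  · exact congrFun hlam (some i)
  · exact congrFun hlam none

theorem select {Λ : Type} [Fintype Λ] (q e n0 : ℕ) (hq : 1 ≤ q)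
    (L : ((Fin q → Bool) → Bool) → Λ) (c : ((Fin q → Bool) → Bool) → Fin n0 → ℝ)
    (h1 : n0 + 1 < 2 ^ e) (h2 : Fintype.card Λ * 2 ^ (q * 2 ^ e) < 2 ^ (2 ^ q)) :
    ∃ (l : Λ) (H : (Fin e → Bool) → ((Fin q → Bool) → Bool)) (lam : (Fin e → Bool) → ℝ)
      (w0 : Fin q → Bool), (∀ α, L (H α) = l) ∧ (∀ α, |lam α| ≤ 2) ∧
      (∀ i, ∑ α, lam α * c (H α) i = 0) ∧ ∑ α, lam α * bit (H α w0) = 1 := by
  classical
  -- pigeonhole
  obtain ⟨l, _, hl⟩ := Finset.exists_lt_card_fiber_of_mul_lt_card_of_maps_to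
    (s := (Finset.univ : Finset ((Fin q → Bool) → Bool))) (t := (Finset.univ : Finset Λ))
    (f := L) (n := 2 ^ (q * 2 ^ e)) (fun _ _ => Finset.mem_univ _) (by
      rw [Finset.card_univ, Finset.card_univ, Fintype.card_fun, Fintype.card_bool, Fintype.card_fun,
        Fintype.card_bool, Fintype.card_fin]
      exact h2)
  let φ : ((Fin q → Bool) → Bool) → Finset (Fin q → Bool) := fun f => univ.filter fun y => f y = true
  have hφ : Function.Injective φ := by
    intro f g hfg
    funext y
    have h1 : y ∈ φ f ↔ y ∈ φ g := by rw [hfg]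
    simp only [φ, Finset.mem_filter, Finset.mem_univ, true_and] at h1
    exact Bool.eq_iff_iff.mpr h1
  have hcq : Fintype.card (Fin q → Bool) = 2 ^ q := by
    rw [Fintype.card_fun, Fintype.card_bool, Fintype.card_fin]
  obtain ⟨T, hT, hsh⟩ := WND_shatter ((univ.filter fun h => L h = l).image φ) (2 ^ e)
    (by rw [hcq]; calc 2 = 2 ^ 1 := rfl
          _ ≤ 2 ^ q := Nat.pow_le_pow_right (by norm_num) hq)
    (by rw [Finset.card_image_of_injective _ hφ, hcq, ← pow_mul]; exact hl)
  have hcT : Fintype.card (Fin e → Bool) = Fintype.card T := by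
    rw [Fintype.card_fun, Fintype.card_bool, Fintype.card_fin, Fintype.card_coe, hT]
  let β : (Fin e → Bool) ≃ T := Fintype.equivOfCardEq hcT
  have hH : ∀ α : Fin e → Bool, ∃ f : (Fin q → Bool) → Bool, L f = l ∧
      ∀ w : Fin e → Bool, f (β w) = true ↔ chi α w = -1 := by
    intro α
    have hsub : (Finset.univ.filter fun y : T => chi α (β.symm y) = -1).map
        (Function.Embedding.subtype _) ⊆ T := by
      intro y hy
      rw [Finset.mem_map] at hy
      obtain ⟨z, _, rfl⟩ := hy
      exact z.2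
    obtain ⟨u, hu, hsu⟩ := hsh hsub
    rw [Finset.mem_image] at hu
    obtain ⟨f, hf, rfl⟩ := hu
    rw [Finset.mem_filter] at hf
    refine ⟨f, hf.2, fun w => ?_⟩
    have h3 : ((β w : T) : Fin q → Bool) ∈ T ∩ φ f ↔ chi α w = -1 := by
      rw [hsu, Finset.mem_map]
      constructor
      · rintro ⟨z, hz, hzw⟩
        rw [Finset.mem_filter] at hz
        have : z = β w := Subtype.ext hzw
        rw [this, Equiv.symm_apply_apply] at hz
        exact hz.2
      · intro h4
        refine ⟨β w, ?_, rfl⟩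
        rw [Finset.mem_filter, Equiv.symm_apply_apply]
        exact ⟨Finset.mem_univ _, h4⟩
    rw [← h3]
    simp [φ]
  choose H hHl hHw using hH
  obtain ⟨lam, hne, hlc, hl0⟩ := WND_ker h1 (fun α => c (H α))
  have hbit : ∀ (α w : Fin e → Bool), bit (H α (β w)) = (1 - chi α w) / 2 := by
    intro α w
    have h3 := hHw α w
    have h4 := abs_chi α w
    rcases (abs_eq one_pos.le).mp h4 with h5 | h5
    · have h6 : H α (β w) = false := by
        rw [← Bool.not_eq_true, h3, h5]
        norm_num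
      rw [h6, h5]
      simp [bit]
    · have h6 : H α (β w) = true := h3.mpr h5
      rw [h6, h5]
      norm_num [bit]
  have hsum : ∀ w : Fin e → Bool, ∑ α, lam α * bit (H α (β w)) = -(∑ α, lam α * chi α w) / 2 := by
    intro w
    have h3 : ∀ α, lam α * bit (H α (β w)) = lam α / 2 - lam α * chi α w / 2 := by
      intro α
      rw [hbit]
      ring
    simp_rw [h3]
    rw [Finset.sum_sub_distrib, ← Finset.sum_div, ← Finset.sum_div, hl0]
    ring
  have hpos : 0 < ∑ α, lam α ^ 2 := by
    obtain ⟨α, hα⟩ := Function.ne_iff.mp hne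
    refine Finset.sum_pos' (fun _ _ => sq_nonneg _) ⟨α, Finset.mem_univ _, ?_⟩
    have : lam α ≠ 0 := hα
    positivity
  obtain ⟨w0, hw0⟩ : ∃ w0 : Fin e → Bool, ∑ α, lam α ^ 2 ≤ (∑ α, lam α * chi α w0) ^ 2 := by
    by_contra hc
    push Not at hc
    have h3 : ∑ w : Fin e → Bool, (∑ α, lam α * chi α w) ^ 2 <
        ∑ _w : Fin e → Bool, ∑ α, lam α ^ 2 :=
      Finset.sum_lt_sum_of_nonempty Finset.univ_nonempty fun w _ => hc w
    rw [WND_sq, Finset.sum_const, Finset.card_univ, Fintype.card_fun, Fintype.card_bool,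
      Fintype.card_fin, nsmul_eq_mul] at h3
    push_cast at h3
    exact lt_irrefl _ h3
  set s := ∑ α, lam α * bit (H α (β w0)) with hs
  have hs2 : ∑ α, lam α ^ 2 ≤ (2 * s) ^ 2 := by
    rw [hs, hsum w0]
    calc ∑ α, lam α ^ 2 ≤ (∑ α, lam α * chi α w0) ^ 2 := hw0
      _ = _ := by ring
  have hs0 : s ≠ 0 := by
    intro h0
    rw [h0] at hs2
    norm_num at hs2
    linarith
  refine ⟨l, H, fun α => lam α / s, (β w0 : T), hHl, fun α => ?_, fun i => ?_, ?_⟩
  · rw [abs_div, div_le_iff₀ (abs_pos.mpr hs0)]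
    have h3 : lam α ^ 2 ≤ (2 * s) ^ 2 :=
      (Finset.single_le_sum (fun β _ => sq_nonneg (lam β)) (Finset.mem_univ α)).trans hs2
    have h4 := sq_le_sq.mp h3
    rw [abs_mul, abs_two] at h4
    exact h4
  · have h3 : ∀ α, lam α / s * c (H α) i = lam α * c (H α) i / s := fun α => by ring
    simp_rw [h3]
    rw [← Finset.sum_div, hlc i, zero_div]
  · have h3 : ∀ α, lam α / s * bit (H α (β w0)) = lam α * bit (H α (β w0)) / s := fun α => by ring
    simp_rw [h3]
    rw [← Finset.sum_div, ← hs, div_self hs0]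

end Pool.Agent.MP_244be3_lc.WN
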