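import Pool.Agent.MP_244be3_lc.WN.Comp
import Pool.Agent.MP_244be3_lc.Upper

set_option autoImplicit false

/-!
[WN-U2] The network with four hidden layers.

The function: blocks of `m` real inputs indexed by `Fin K ⊕ Fin K ⊕ (Fin p ⊕ Fin p)`; the bits are the
parities of the sign bits of the blocks; the value is `ip u v * bit (h w)`.

Layer 1: `[0 < x l]` (`k m` neurons, `k = K + K + (p + p)`). Layer 2: `[∑ j', z1 (i, j') > j]` for every
block `i` and `j < m` (`k m` neurons), so the parity of block `i` is `∑ j, (-1) ^ j z2 (i, j)`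
(`alt_sum`). Layer 3: `[u i + v i > 1]` (`K` neurons), `[w1 = α]`, `[w2 = β]` for `α, β : Fin p → Bool`
(`2 ^ p + 2 ^ p` neurons; `[∑ b, (2 α b - 1) y b - ∑ b, α b + 1 > 0]`). Layer 4, for `l < K` and `β`:
`[∑ i, z3 i + (K + 1) z3 β + (K + 1) ∑ α, h (α, β) z3 α > l + 2 (K + 1)]` (`K 2 ^ p` neurons); it is `1`
iff `w2 = β`, `h (w1, β) = 1` and `∑ i, z3 i > l`. Output weights `(-1) ^ l`.
Route: `comp_zero` and four times `comp_succ` (`Comp.lean`), then evaluate the substitutions.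
-/

namespace Pool.Agent.MP_244be3_lc.WN

open Finset Pool.Agent.MP_244be3_lc

/-- Index type of the blocks. -/
abbrev Blk (K p : ℕ) : Type := Fin K ⊕ Fin K ⊕ (Fin p ⊕ Fin p)

/-- The function of the block bits. -/
noncomputable def core {K p : ℕ} (h : (Fin p ⊕ Fin p → Bool) → Bool) (y : Blk K p → Bool) : ℝ :=
  ip (fun i => y (Sum.inl i)) (fun i => y (Sum.inr (Sum.inl i))) *
    bit (h fun i => y (Sum.inr (Sum.inr i)))

theorem U2_bit_pos (b : Bool) (P : Prop) [Decidable P] (h : P ↔ b = true) :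
    (if P then (1 : ℝ) else 0) = bit b := by
  unfold bit
  by_cases hb : b = true
  · rw [if_pos (h.2 hb), if_pos hb]
  · rw [if_neg (fun k => hb (h.1 k)), if_neg hb]

theorem U2_alt {m : ℕ} (c : ℕ) (hc : c ≤ m) :
    ∑ j : Fin m, (-1 : ℝ) ^ (j : ℕ) * (if (j : ℕ) < c then 1 else 0) = if Odd c then 1 else 0 := by
  rw [← alt_sum, ← Finset.sum_range (f := fun j => (-1 : ℝ) ^ j * (if j < c then 1 else 0))]
  simp_rw [mul_ite, mul_one, mul_zero]
  rw [← Finset.sum_filter]
  congr 1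
  ext j
  rw [mem_filter, mem_range, mem_range]
  omega

theorem U2_card {m : ℕ} (s : Fin m → Bool) :
    ∑ j : Fin m, bit (s j) = (#{j : Fin m | s j = true} : ℝ) := by
  unfold bit
  rw [Finset.sum_boole]

theorem U2_card_le {m : ℕ} (s : Fin m → Bool) : #{j : Fin m | s j = true} ≤ m := by
  have := Finset.card_le_univ (univ.filter fun j : Fin m => s j = true)
  rwa [Fintype.card_fin] at this

/-- weights of the first layer -/
def U2_W1 {L : Type} [DecidableEq L] (j l : L) : ℝ := if l = j then 1 else 0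

theorem U2_E1 {L : Type} [Fintype L] [DecidableEq L] (x : L → ℝ) :
    (fun j => if 0 < (∑ l, U2_W1 j l * x l) + 0 then (1 : ℝ) else 0) =
      fun j => bit (decide (0 < x j)) := by
  funext j
  apply U2_bit_pos
  have : ∑ l, U2_W1 j l * x l = x j := by
    unfold U2_W1
    simp
  rw [this, add_zero, decide_eq_true_iff]

/-- weights of the second layer -/
def U2_W2 {B : Type} [DecidableEq B] {m : ℕ} (j l : B × Fin m) : ℝ := if l.1 = j.1 then 1 else 0

theorem U2_E2 {B : Type} [Fintype B] [DecidableEq B] {m : ℕ} (s : B × Fin m → Bool) :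
    (fun j : B × Fin m => if 0 < (∑ l, U2_W2 j l * bit (s l)) + -((j.2 : ℕ) : ℝ) then (1 : ℝ)
      else 0) =
      fun j => if (j.2 : ℕ) < #{j' : Fin m | s (j.1, j') = true} then (1 : ℝ) else 0 := by
  funext j
  have : ∑ l, U2_W2 j l * bit (s l) = (#{j' : Fin m | s (j.1, j') = true} : ℝ) := by
    unfold U2_W2
    rw [Fintype.sum_prod_type]
    simp only [ite_mul, one_mul, zero_mul]
    rw [Finset.sum_comm]
    simp only [Finset.sum_ite_eq', Finset.mem_univ, if_true]
    exact U2_card (fun j' => s (j.1, j'))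
  rw [this]
  have e : (0 : ℝ) < (#{j' : Fin m | s (j.1, j') = true} : ℝ) + -((j.2 : ℕ) : ℝ) ↔
      (j.2 : ℕ) < #{j' : Fin m | s (j.1, j') = true} := by
    rw [← sub_eq_add_neg, sub_pos, Nat.cast_lt]
  simp only [e]

/-- coefficients of the third layer -/
def U2_k3 {K p : ℕ} : Fin K ⊕ ((Fin p → Bool) ⊕ (Fin p → Bool)) → Blk K p → ℝ
  | Sum.inl i, Sum.inl i' => if i' = i then 1 else 0
  | Sum.inl i, Sum.inr (Sum.inl i') => if i' = i then 1 else 0
  | Sum.inl _, Sum.inr (Sum.inr _) => 0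
  | Sum.inr (Sum.inl α), Sum.inr (Sum.inr (Sum.inl b)) => sg (α b)
  | Sum.inr (Sum.inl _), Sum.inr (Sum.inr (Sum.inr _)) => 0
  | Sum.inr (Sum.inr β), Sum.inr (Sum.inr (Sum.inr b)) => sg (β b)
  | Sum.inr (Sum.inr _), Sum.inr (Sum.inr (Sum.inl _)) => 0
  | Sum.inr _, Sum.inl _ => 0
  | Sum.inr _, Sum.inr (Sum.inl _) => 0

/-- weights of the third layer -/
def U2_W3 {K p m : ℕ} (j : Fin K ⊕ ((Fin p → Bool) ⊕ (Fin p → Bool))) (l : Blk K p × Fin m) : ℝ :=
  U2_k3 j l.1 * (-1) ^ (l.2 : ℕ)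

/-- biases of the third layer -/
noncomputable def U2_B3 {K p : ℕ} : Fin K ⊕ ((Fin p → Bool) ⊕ (Fin p → Bool)) → ℝ
  | Sum.inl _ => -1
  | Sum.inr (Sum.inl α) => 1 - ∑ b, bit (α b)
  | Sum.inr (Sum.inr β) => 1 - ∑ b, bit (β b)

theorem U2_sum3 {K p m : ℕ} (j : Fin K ⊕ ((Fin p → Bool) ⊕ (Fin p → Bool)))
    (s : Blk K p × Fin m → Bool) :
    ∑ l : Blk K p × Fin m, U2_W3 j l *
      (if (l.2 : ℕ) < #{j' : Fin m | s (l.1, j') = true} then (1 : ℝ) else 0) =
    ∑ b : Blk K p, U2_k3 j b * bit (par fun j' => s (b, j')) := by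
  rw [Fintype.sum_prod_type]
  refine Finset.sum_congr rfl (fun b _ => ?_)
  unfold U2_W3
  simp only [mul_assoc]
  rw [← Finset.mul_sum]
  congr 1
  rw [U2_alt _ (U2_card_le _)]
  unfold par bit
  simp only [decide_eq_true_eq]

theorem U2_gate {p : ℕ} (α y : Fin p → Bool) :
    0 < (∑ b, sg (α b) * bit (y b)) + (1 - ∑ b, bit (α b)) ↔ α = y := by
  have h1 : ∀ b, sg (α b) * bit (y b) - bit (α b) = -(if α b ≠ y b then (1 : ℝ) else 0) := by
    intro b
    unfold sg bit
    cases α b <;> cases y b <;> simp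
  have h2 : (∑ b, sg (α b) * bit (y b)) + (1 - ∑ b, bit (α b)) =
      1 - (#{b : Fin p | α b ≠ y b} : ℝ) := by
    have h3 : (∑ b, sg (α b) * bit (y b)) - ∑ b, bit (α b) = -(#{b : Fin p | α b ≠ y b} : ℝ) := by
      rw [← Finset.sum_sub_distrib, Finset.sum_congr rfl (fun b _ => h1 b),
        Finset.sum_neg_distrib, Finset.sum_boole]
    linarith
  rw [h2, sub_pos]
  constructor
  · intro h
    have h4 : #{b : Fin p | α b ≠ y b} < 1 := by exact_mod_cast h
    have h5 : #{b : Fin p | α b ≠ y b} = 0 := by omega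
    rw [Finset.card_eq_zero, Finset.filter_eq_empty_iff] at h5
    funext b
    by_contra hb
    exact h5 (Finset.mem_univ b) hb
  · intro h
    subst h
    simp

/-- the values of the third layer -/
def U2_z3 {K p : ℕ} (y : Blk K p → Bool) : Fin K ⊕ ((Fin p → Bool) ⊕ (Fin p → Bool)) → Bool
  | Sum.inl i => y (Sum.inl i) && y (Sum.inr (Sum.inl i))
  | Sum.inr (Sum.inl α) => decide (α = fun b => y (Sum.inr (Sum.inr (Sum.inl b))))
  | Sum.inr (Sum.inr β) => decide (β = fun b => y (Sum.inr (Sum.inr (Sum.inr b))))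

theorem U2_E3 {K p m : ℕ} (s : Blk K p × Fin m → Bool) :
    (fun j => if 0 < (∑ l : Blk K p × Fin m, U2_W3 j l *
      (if (l.2 : ℕ) < #{j' : Fin m | s (l.1, j') = true} then (1 : ℝ) else 0)) + U2_B3 j
      then (1 : ℝ) else 0) = fun j => bit (U2_z3 (fun b => par fun j' => s (b, j')) j) := by
  funext j
  rw [U2_sum3]
  set y : Blk K p → Bool := fun b => par fun j' => s (b, j') with hy
  apply U2_bit_pos
  have hsplit : ∀ f : Blk K p → ℝ, ∑ b : Blk K p, f b = ∑ i, f (Sum.inl i) +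
      (∑ i, f (Sum.inr (Sum.inl i)) + (∑ b, f (Sum.inr (Sum.inr (Sum.inl b))) +
        ∑ b, f (Sum.inr (Sum.inr (Sum.inr b))))) := by
    intro f
    rw [Fintype.sum_sum_type, Fintype.sum_sum_type, Fintype.sum_sum_type]
  have hyb : ∀ b, par (fun j' => s (b, j')) = y b := fun b => rfl
  simp only [hyb]
  rw [hsplit]
  rcases j with i | α | β
  · simp only [U2_k3, U2_B3, U2_z3, ite_mul, one_mul, zero_mul, Finset.sum_ite_eq',
      Finset.mem_univ, if_true, Finset.sum_const_zero, add_zero]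
    cases h1 : y (Sum.inl i) <;> cases h2 : y (Sum.inr (Sum.inl i)) <;> simp [bit]
  · simp only [U2_k3, U2_B3, U2_z3, zero_mul, Finset.sum_const_zero, add_zero, zero_add,
      decide_eq_true_eq]
    exact U2_gate α _
  · simp only [U2_k3, U2_B3, U2_z3, zero_mul, Finset.sum_const_zero, zero_add,
      decide_eq_true_eq]
    exact U2_gate β _

/-- weights of the fourth layer -/
noncomputable def U2_W4 {K p : ℕ} (h : (Fin p ⊕ Fin p → Bool) → Bool) (j : Fin K × (Fin p → Bool)) :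
    Fin K ⊕ ((Fin p → Bool) ⊕ (Fin p → Bool)) → ℝ
  | Sum.inl _ => 1
  | Sum.inr (Sum.inl α) => (K + 1) * bit (h (Sum.elim α j.2))
  | Sum.inr (Sum.inr β') => if β' = j.2 then K + 1 else 0

/-- biases of the fourth layer -/
noncomputable def U2_B4 {K p : ℕ} (j : Fin K × (Fin p → Bool)) : ℝ :=
  -(((j.1 : ℕ) : ℝ) + 2 * (K + 1))

/-- values of the fourth layer -/
noncomputable def U2_z4 {K p : ℕ} (h : (Fin p ⊕ Fin p → Bool) → Bool) (y : Blk K p → Bool)
    (j : Fin K × (Fin p → Bool)) : ℝ :=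
  (if (j.1 : ℕ) < #{i : Fin K | (y (Sum.inl i) && y (Sum.inr (Sum.inl i))) = true}
      then 1 else 0) *
    (if j.2 = (fun b => y (Sum.inr (Sum.inr (Sum.inr b)))) then
      bit (h fun i => y (Sum.inr (Sum.inr i))) else 0)

theorem U2_elim {K p : ℕ} (y : Blk K p → Bool) :
    Sum.elim (fun b => y (Sum.inr (Sum.inr (Sum.inl b))))
      (fun b => y (Sum.inr (Sum.inr (Sum.inr b)))) = fun i => y (Sum.inr (Sum.inr i)) := by
  funext i
  cases i <;> rfl

theorem U2_E4 {K p : ℕ} (h : (Fin p ⊕ Fin p → Bool) → Bool) (y : Blk K p → Bool) :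
    (fun j => if 0 < (∑ l, U2_W4 h j l * bit (U2_z3 y l)) + U2_B4 j then (1 : ℝ) else 0) =
      U2_z4 h y := by
  funext j
  obtain ⟨l, β⟩ := j
  rw [Fintype.sum_sum_type, Fintype.sum_sum_type]
  simp only [U2_W4, U2_B4, U2_z3, U2_z4, one_mul]
  rw [U2_card (fun i => y (Sum.inl i) && y (Sum.inr (Sum.inl i)))]
  set w1 : Fin p → Bool := fun b => y (Sum.inr (Sum.inr (Sum.inl b))) with hw1
  set w2 : Fin p → Bool := fun b => y (Sum.inr (Sum.inr (Sum.inr b))) with hw2
  have e1 : ∑ α : Fin p → Bool, (K + 1 : ℝ) * bit (h (Sum.elim α β)) * bit (decide (α = w1)) =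
      (K + 1) * bit (h (Sum.elim w1 β)) := by
    rw [Finset.sum_eq_single w1]
    · simp [bit]
    · intro α _ hα
      simp [bit, hα]
    · intro hh
      exact absurd (Finset.mem_univ _) hh
  have e2 : ∑ β' : Fin p → Bool, (if β' = β then (K + 1 : ℝ) else 0) * bit (decide (β' = w2)) =
      (K + 1) * bit (decide (β = w2)) := by
    simp only [ite_mul, zero_mul, Finset.sum_ite_eq', Finset.mem_univ, if_true]
  rw [e1, e2]
  have hc : #{i : Fin K | (y (Sum.inl i) && y (Sum.inr (Sum.inl i))) = true} ≤ K :=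
    U2_card_le _
  set c := #{i : Fin K | (y (Sum.inl i) && y (Sum.inr (Sum.inl i))) = true} with hcdef
  have hc' : (c : ℝ) ≤ K := by exact_mod_cast hc
  have hl : (0 : ℝ) ≤ ((l : ℕ) : ℝ) := Nat.cast_nonneg _
  have hK : (0 : ℝ) ≤ (K : ℝ) := Nat.cast_nonneg _
  by_cases hβ : β = w2
  · subst hβ
    rw [if_pos rfl, hw1, hw2, U2_elim]
    cases hh : h (fun i => y (Sum.inr (Sum.inr i)))
    · rw [if_neg]
      · simp [bit]
      · simp only [bit, decide_true, if_true, Bool.false_eq_true, if_false]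
        linarith
    · have e : (0 : ℝ) < (c : ℝ) + ((K : ℝ) + 1 + (K + 1)) +
          -(((l : ℕ) : ℝ) + 2 * (K + 1)) ↔ (l : ℕ) < c := by
        rw [← Nat.cast_lt (α := ℝ)]
        constructor <;> intro h <;> linarith
      simp only [bit, decide_true, if_true]
      simp only [e, mul_one]
  · rw [if_neg hβ, mul_zero, if_neg]
    have e3 : bit (decide (β = w2)) = 0 := by simp [bit, hβ]
    have e4 : bit (h (Sum.elim w1 β)) ≤ 1 := by
      unfold bit
      split_ifs <;> norm_num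
    rw [e3]
    nlinarith

/-- output weights -/
def U2_a {K p : ℕ} (j : Fin K × (Fin p → Bool)) : ℝ := (-1) ^ (j.1 : ℕ)

theorem U2_E5 {K p : ℕ} (h : (Fin p ⊕ Fin p → Bool) → Bool) (y : Blk K p → Bool) :
    0 + ∑ l, U2_a l * U2_z4 h y l = core h y := by
  rw [Fintype.sum_prod_type, zero_add]
  have e : ∀ l : Fin K, ∑ β : Fin p → Bool, U2_a (l, β) * U2_z4 h y (l, β) =
      (-1) ^ (l : ℕ) * (if (l : ℕ) < #{i : Fin K |
        (y (Sum.inl i) && y (Sum.inr (Sum.inl i))) = true} then 1 else 0) *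
        bit (h fun i => y (Sum.inr (Sum.inr i))) := by
    intro l
    have e' : ∀ β : Fin p → Bool, U2_a (l, β) * U2_z4 h y (l, β) =
        ((-1) ^ (l : ℕ) * (if (l : ℕ) < #{i : Fin K |
          (y (Sum.inl i) && y (Sum.inr (Sum.inl i))) = true} then 1 else 0)) *
          (if β = (fun b => y (Sum.inr (Sum.inr (Sum.inr b)))) then
            bit (h fun i => y (Sum.inr (Sum.inr i))) else 0) := by
      intro β
      rw [mul_assoc]
      rfl
    rw [Finset.sum_congr rfl (fun β _ => e' β), ← Finset.mul_sum]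
    simp only [Finset.sum_ite_eq', Finset.mem_univ, if_true]
  rw [Finset.sum_congr rfl (fun l _ => e l), ← Finset.sum_mul, U2_alt _ (U2_card_le _)]
  unfold core ip
  rfl

theorem upper (K p m : ℕ) (h : (Fin p ⊕ Fin p → Bool) → Bool) :
    Comp (Blk K p × Fin m)
      (fun x => core h fun i => par fun j => decide (0 < x (i, j)))
      (2 * ((K + K + (p + p)) * m) + K + 2 * 2 ^ p + K * 2 ^ p) 4 := by
  have h4 := comp_zero (Fin K × (Fin p → Bool)) U2_a 0
  have h3 := comp_succ (L := Fin K ⊕ ((Fin p → Bool) ⊕ (Fin p → Bool))) (U2_W4 h) U2_B4 h4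
  have h2 := comp_succ (L := Blk K p × Fin m) U2_W3 U2_B3 h3
  have h1 := comp_succ (L := Blk K p × Fin m) U2_W2 (fun j => -((j.2 : ℕ) : ℝ)) h2
  have h0 := comp_succ (L := Blk K p × Fin m) U2_W1 (fun _ => 0) h1
  have hF : (fun x : Blk K p × Fin m → ℝ => core h fun i => par fun j => decide (0 < x (i, j))) =
      fun x => (fun x : Blk K p × Fin m → ℝ =>
        (fun x : Blk K p × Fin m → ℝ =>
          (fun x : Fin K ⊕ ((Fin p → Bool) ⊕ (Fin p → Bool)) → ℝ =>
            (fun x : Fin K × (Fin p → Bool) → ℝ => 0 + ∑ l, U2_a l * x l)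
            fun j => if 0 < (∑ l, (U2_W4 h) j l * x l) + U2_B4 j then 1 else 0)
          fun j => if 0 < (∑ l, U2_W3 j l * x l) + U2_B3 j then 1 else 0)
        fun j => if 0 < (∑ l, U2_W2 j l * x l) + (fun j : Blk K p × Fin m => -((j.2 : ℕ) : ℝ)) j
          then 1 else 0)
        fun j => if 0 < (∑ l, U2_W1 j l * x l) + (fun _ => 0) j then 1 else 0 := by
    funext x
    have e1 := fun j => congrFun (U2_E1 x) j
    have e2 := fun j => congrFun (U2_E2 (fun j : Blk K p × Fin m => decide (0 < x j))) j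
    have e3 := fun j => congrFun (U2_E3 (fun j : Blk K p × Fin m => decide (0 < x j))) j
    have e4 := fun j => congrFun (U2_E4 h (fun b : Blk K p => par fun j' : Fin m =>
      decide (0 < x (b, j')))) j
    beta_reduce at e1 e2 e3 e4
    simp only [e1, e2, e3, e4, U2_E5]
  rw [hF]
  convert h0 using 1
  simp only [Fintype.card_prod, Fintype.card_sum, Fintype.card_fin, Fintype.card_fun,
    Fintype.card_bool]
  ring

end Pool.Agent.MP_244be3_lc.WN
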