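import Pool.Agent.MP_244be3_lc.WN.Base

set_option autoImplicit false

/-!
[WN-F3] The values of a linear form with structured weights.

Proof. The value is determined by the integer vector `∑ i ∉ E, c i e * u i` (`e < r`), each entry in
`[-M K, M K]`, and the restriction of `u` to the exceptional set `E`.
-/

namespace Pool.Agent.MP_244be3_lc.WN

open Finset Pool.Agent.MP_244be3_lc

open Classical in
theorem card_values {K r M t : ℕ} (θ : Fin K → ℝ) (h : NT r M t θ) :
    #(univ.image fun u : Fin K → Bool => ∑ i, θ i * bit (u i)) ≤ (2 * (M * K) + 1) ^ r * 2 ^ t := by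
  obtain ⟨E, hE, τ, hc⟩ := h
  choose! c hcM hcθ using hc
  let S : Finset ((Fin r → ℤ) × (E → Bool)) :=
    (Fintype.piFinset fun _ => Finset.Icc (-((M * K : ℕ) : ℤ)) ((M * K : ℕ) : ℤ)) ×ˢ Finset.univ
  let Φ : (Fin r → ℤ) × (E → Bool) → ℝ :=
    fun p => ∑ e, (p.1 e : ℝ) * τ e + ∑ i : E, θ i * bit (p.2 i)
  have hsub : (univ.image fun u : Fin K → Bool => ∑ i, θ i * bit (u i)) ⊆ S.image Φ := by
    intro x hx
    obtain ⟨u, _, rfl⟩ := Finset.mem_image.1 hx
    rw [Finset.mem_image]
    refine ⟨(fun e => ∑ i ∈ univ.filter (fun i => i ∉ E), c i e * (if u i then 1 else 0),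
      fun i => u i), ?_, ?_⟩
    · simp only [S, Finset.mem_product, Finset.mem_univ, and_true, Fintype.mem_piFinset,
        Finset.mem_Icc]
      intro e
      rw [← abs_le]
      refine (Finset.abs_sum_le_sum_abs _ _).trans ?_
      have h1 : ∀ i ∈ univ.filter (fun i => i ∉ E), |c i e * (if u i then 1 else 0)| ≤ (M : ℤ) := by
        intro i hi
        rw [Finset.mem_filter] at hi
        have := hcM i hi.2 e
        split_ifs
        · simpa using this
        · simp
      refine (Finset.sum_le_card_nsmul _ _ _ h1).trans ?_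
      have h2 : (univ.filter (fun i => i ∉ E)).card ≤ K := by
        refine (Finset.card_le_univ _).trans ?_
        simp
      rw [nsmul_eq_mul]
      push_cast
      have h3 : (((univ.filter (fun i => i ∉ E)).card : ℕ) : ℤ) ≤ K := by exact_mod_cast h2
      have h4 : (0 : ℤ) ≤ M := by positivity
      nlinarith
    · simp only [Φ]
      have h1 : ∑ i, θ i * bit (u i) = ∑ i ∈ univ.filter (fun i => i ∉ E), θ i * bit (u i) +
          ∑ i ∈ E, θ i * bit (u i) := by
        rw [← Finset.sum_filter_add_sum_filter_not univ (fun i => i ∉ E)]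
        congr 1
        refine Finset.sum_congr ?_ fun _ _ => rfl
        ext i; simp
      rw [h1]
      congr 1
      · have h2 : ∀ i ∈ univ.filter (fun i => i ∉ E), θ i * bit (u i) =
            ∑ e, (c i e : ℝ) * τ e * bit (u i) := by
          intro i hi
          rw [Finset.mem_filter] at hi
          rw [hcθ i hi.2, Finset.sum_mul]
        rw [Finset.sum_congr rfl h2, Finset.sum_comm]
        refine Finset.sum_congr rfl fun e _ => ?_
        push_cast
        rw [Finset.sum_mul]
        refine Finset.sum_congr rfl fun i _ => ?_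
        unfold bit
        split_ifs <;> simp
      · rw [← Finset.sum_coe_sort E (fun i => θ i * bit (u i))]
  refine (Finset.card_le_card hsub).trans (Finset.card_image_le.trans ?_)
  simp only [S, Finset.card_product, Fintype.card_piFinset, Finset.prod_const, Finset.card_univ,
    Int.card_Icc, Fintype.card_fin, Fintype.card_fun, Fintype.card_bool, Fintype.card_coe]
  have e1 : (((M * K : ℕ) : ℤ) + 1 - -((M * K : ℕ) : ℤ)).toNat = 2 * (M * K) + 1 := by omega
  rw [e1]
  exact Nat.mul_le_mul_left _ (Nat.pow_le_pow_right (by norm_num) hE)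

end Pool.Agent.MP_244be3_lc.WN
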