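import Pool.Agent.MP_244be3_lc.WN.FromNet
import Pool.Agent.MP_244be3_lc.WN.Restr
import Pool.Agent.MP_244be3_lc.WN.Count
import Pool.Agent.MP_244be3_lc.WN.Select
import Pool.Agent.MP_244be3_lc.WN.LowRank
import Pool.Agent.MP_244be3_lc.WN.Values
import Pool.Agent.MP_244be3_lc.WN.Upper

set_option autoImplicit false

/-!
Assembly of the finite form.
-/

namespace Pool.Agent.MP_244be3_lc.WN

open Finset Pool.Agent.MP_244be3_lc

/-- Threshold functions. -/
def IsGate {ι : Type} [Fintype ι] (f : (ι → Bool) → Bool) : Prop :=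
  ∃ (θ : ι → ℝ) (b : ℝ), ∀ y, f y = true ↔ 0 < (∑ i, θ i * bit (y i)) + b

theorem sum_fin_of_le {n m : ℕ} (h : n ≤ m) (f : Fin n → ℝ) :
    ∑ i : Fin m, (if hi : (i : ℕ) < n then f ⟨i, hi⟩ else 0) = ∑ i, f i := by
  symm
  refine Fintype.sum_of_injective (Fin.castLE h) (Fin.castLE_injective h) _ _ ?_ ?_
  · intro i hi
    rw [dif_neg]
    intro h1
    exact hi ⟨⟨i, h1⟩, Fin.ext rfl⟩
  · intro i
    simp

theorem enum {ι : Type} [Fintype ι] {G : (ι → Bool) → ℝ} {δ : ℝ} {S n0 : ℕ} {A : ℝ} {r M t : ℕ}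
    (hA : 0 ≤ A) (h : Rep G δ S n0 A r M t) :
    ∃ (lab : Fin n0 → {f : (ι → Bool) → Bool // IsGate f}) (c : Fin n0 → ℝ), ∃ g ≤ S,
      ∃ (θ : Fin g → ι → ℝ) (b a : Fin g → ℝ) (a0 : ℝ),
        (∀ j, |a j| ≤ A ∨ NT r M t (θ j)) ∧
        ∀ y, |G y - (a0 + ∑ j, a j * gate (θ j) (b j) y + ∑ i, c i * bit ((lab i).1 y))| ≤ δ := by
  classical
  obtain ⟨g, hg, θ, b, a, a0, E, hE, hj, hy⟩ := h
  let gf : Fin g → {f : (ι → Bool) → Bool // IsGate f} := fun j =>
    ⟨fun y => decide (0 < (∑ i, θ j i * bit (y i)) + b j), θ j, b j, fun y => by simp⟩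
  let cf : {f : (ι → Bool) → Bool // IsGate f} :=
    ⟨fun _ => false, 0, 0, fun y => by simp⟩
  have hgf : ∀ j y, bit ((gf j).1 y) = gate (θ j) (b j) y := by
    intro j y
    simp only [gf, bit, gate, decide_eq_true_eq]
  refine ⟨fun i => if hi : (i : ℕ) < #E then gf (E.equivFin.symm ⟨i, hi⟩) else cf,
    fun i => if hi : (i : ℕ) < #E then a (E.equivFin.symm ⟨i, hi⟩) else 0,
    g, hg, θ, b, fun j => if j ∈ E then 0 else a j, a0, ?_, ?_⟩
  · intro j
    beta_reduce
    by_cases h : j ∈ E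
    · left; rw [if_pos h, abs_zero]; exact hA
    · rw [if_neg h]; exact hj j h
  · intro y
    have e1 : ∑ i : Fin n0, (if hi : (i : ℕ) < #E then a (E.equivFin.symm ⟨i, hi⟩) else 0) *
        bit ((if hi : (i : ℕ) < #E then gf (E.equivFin.symm ⟨i, hi⟩) else cf).1 y) =
        ∑ j ∈ E, a j * gate (θ j) (b j) y := by
      let ff : Fin #E → ℝ := fun k => a (E.equivFin.symm k) *
            gate (θ (E.equivFin.symm k)) (b (E.equivFin.symm k)) y
      have h1 : ∀ i : Fin n0, (if hi : (i : ℕ) < #E then a (E.equivFin.symm ⟨i, hi⟩) else 0) *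
          bit ((if hi : (i : ℕ) < #E then gf (E.equivFin.symm ⟨i, hi⟩) else cf).1 y) =
          if hi : (i : ℕ) < #E then ff ⟨i, hi⟩ else 0 := by
        intro i
        by_cases hi : (i : ℕ) < #E
        · simp only [dif_pos hi, ff]
          rw [hgf]
        · simp only [dif_neg hi, zero_mul]
      rw [Finset.sum_congr rfl fun i _ => h1 i]
      refine (sum_fin_of_le hE ff).trans ?_
      rw [← Finset.sum_coe_sort E]
      exact E.equivFin.symm.sum_comp (fun k : E => a k * gate (θ k) (b k) y)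
    have e2 : ∑ j, (if j ∈ E then 0 else a j) * gate (θ j) (b j) y +
        ∑ j ∈ E, a j * gate (θ j) (b j) y = ∑ j, a j * gate (θ j) (b j) y := by
      rw [← Finset.sum_filter_add_sum_filter_not univ (fun j => j ∈ E)
        (fun j => a j * gate (θ j) (b j) y)]
      rw [Finset.filter_mem_eq_inter, Finset.univ_inter]
      rw [add_comm]
      congr 1
      rw [Finset.sum_filter]
      apply Finset.sum_congr rfl
      intro j _
      by_cases h : j ∈ E <;> simp [h]
    have e3 := hy y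
    rw [← e2, ← e1] at e3
    rw [add_assoc]
    exact e3

theorem card_label (ι : Type) [Fintype ι] (n0 : ℕ) :
    Nat.card (Fin n0 → {f : (ι → Bool) → Bool // IsGate f}) ≤
      2 ^ ((Fintype.card ι + 1) ^ 2 * n0) := by
  classical
  rw [Nat.card_eq_fintype_card, Fintype.card_fun, Fintype.card_fin, Fintype.card_subtype, pow_mul]
  refine Nat.pow_le_pow_left ?_ n0
  have h := card_gates ι
  convert h
  exact Iff.rfl

/-- The function on real inputs attached to a table `h`. -/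
noncomputable def fn (K p m : ℕ) (h : (Fin p ⊕ Fin p → Bool) → Bool)
    (x : Blk K p × Fin m → ℝ) : ℝ :=
  core h fun i => par fun j => decide (0 < x (i, j))

theorem card_blk (K p : ℕ) : Fintype.card (Blk K p) = 2 * K + 2 * p := by
  simp only [Blk, Fintype.card_sum, Fintype.card_fin]
  ring

/-- From a network for the table `h` to a representation on the block bits. -/
theorem rep_core {K p μ S W n0 t r M d : ℕ} {A δ : ℝ} (hr : 1 ≤ r) (hM : 1 ≤ M)
    (c1 : 4 * W * (2 * K + 2 * p) ^ 2 ≤ 2 ^ μ * (n0 + 1)) (c2 : 4 * S ≤ 2 ^ t)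
    (c3 : 2 * d ≤ 4 ^ μ) (h : (Fin p ⊕ Fin p → Bool) → Bool)
    (N : Net (Fintype.card (Blk K p × Fin (4 ^ μ)))) (hd : N.depth ≤ 2)
    (hN : ∀ x : Blk K p × Fin (4 ^ μ) → ℝ,
      |N.eval (fun i => x ((Fintype.equivFin _).symm i)) - fn K p (4 ^ μ) h x| ≤ δ)
    (hS : N.size ≤ S) (hW : (wild N A r M d).card ≤ W) :
    Rep (core (K := K) h) δ S n0 A r (M * S) t := by
  let F : (Fin (Fintype.card (Blk K p × Fin (4 ^ μ))) → Bool) → ℝ := fun s =>
    core (K := K) h fun i => par fun j => s (Fintype.equivFin _ (i, j))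
  have h1 : ∀ x : Fin (Fintype.card (Blk K p × Fin (4 ^ μ))) → ℝ,
      |N.eval x - F (fun i => decide (0 < x i))| ≤ δ := by
    intro x
    have h2 := hN (fun l => x (Fintype.equivFin _ l))
    simp only [Equiv.apply_symm_apply, fn] at h2
    exact h2
  have h2 : Rep F δ S W A r (M * S) d := rep_of_net N hd F h1 hr hM hS hW
  have h3 := h2.reindex (Fintype.equivFin (Blk K p × Fin (4 ^ μ))).symm
  simp only [F, Equiv.symm_apply_apply] at h3
  exact restrict (core (K := K) h) h3 (by rw [card_blk]; exact c1) c2 c3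

theorem NT.comp_inl {K : ℕ} {κ : Type} {r M t : ℕ} {θ : Fin K ⊕ κ → ℝ} (h : NT r M t θ) :
    NT r M t (fun i => θ (Sum.inl i)) := by
  classical
  obtain ⟨E, hE, τ, hτ⟩ := h
  refine ⟨E.preimage Sum.inl Sum.inl_injective.injOn, ?_, τ, ?_⟩
  · exact (Finset.card_preimage E Sum.inl Sum.inl_injective.injOn).le.trans
      ((Finset.card_filter_le _ _).trans hE)
  · intro i hi
    apply hτ
    intro h1
    exact hi (Finset.mem_preimage.2 h1)

open Classical in
theorem finite_form {K p μ e S W n0 t r M d : ℕ} {A δ : ℝ} (hp : 1 ≤ p) (hr : 1 ≤ r) (hM : 1 ≤ M)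
    (hA : 0 ≤ A)
    (c1 : 4 * W * (2 * K + 2 * p) ^ 2 ≤ 2 ^ μ * (n0 + 1)) (c2 : 4 * S ≤ 2 ^ t)
    (c3 : 2 * d ≤ 4 ^ μ) (c4 : n0 + 1 < 2 ^ e)
    (c5 : (2 * K + 2 * p + 1) ^ 2 * n0 + (p + p) * 2 ^ e < 2 ^ (p + p))
    (c6 : 2 * (1 + (2 ^ e * S) * ((2 * (M * S * K) + 1) ^ r * 2 ^ t)) < 2 ^ K)
    (c7 : (8 * ((K : ℝ) + 1) * ((2 ^ e * S) * (4 * A))) ^ 2 < 2 ^ K)
    (c8 : 8 * 2 ^ e * δ ≤ 1) :
    ∃ h : (Fin p ⊕ Fin p → Bool) → Bool,
      ∀ N : Net (Fintype.card (Blk K p × Fin (4 ^ μ))), N.depth ≤ 2 →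
        (∀ x : Blk K p × Fin (4 ^ μ) → ℝ,
          |N.eval (fun i => x ((Fintype.equivFin _).symm i)) - fn K p (4 ^ μ) h x| ≤ δ) →
        N.size ≤ S → W < (wild N A r M d).card := by
  by_contra hcon
  push Not at hcon
  choose N hd hN hS hW using hcon
  have key := fun h : (Fin p ⊕ Fin p → Bool) → Bool =>
    enum hA (rep_core hr hM c1 c2 c3 h (N h) (hd h) (hN h) (hS h) (hW h))
  choose lab c g hg θ b a a0 hj hy using key
  let conv : ((Fin (p + p) → Bool) → Bool) → ((Fin p ⊕ Fin p → Bool) → Bool) :=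
    fun h w => h (fun i => w (finSumFinEquiv.symm i))
  let hfin : Fintype (Fin n0 → {f : (Blk K p → Bool) → Bool // IsGate f}) := Fintype.ofFinite _
  have hcard : Fintype.card (Fin n0 → {f : (Blk K p → Bool) → Bool // IsGate f}) *
      2 ^ ((p + p) * 2 ^ e) < 2 ^ (2 ^ (p + p)) := by
    have h1 := card_label (Blk K p) n0
    rw [card_blk] at h1
    rw [Fintype.card_eq_nat_card]
    calc _ ≤ 2 ^ ((2 * K + 2 * p + 1) ^ 2 * n0) * 2 ^ ((p + p) * 2 ^ e) :=
          Nat.mul_le_mul_right _ h1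
      _ = 2 ^ ((2 * K + 2 * p + 1) ^ 2 * n0 + (p + p) * 2 ^ e) := (pow_add _ _ _).symm
      _ < _ := Nat.pow_lt_pow_right (by norm_num) c5
  obtain ⟨l, H, lam, w0, hl, hlam, hc0, hsum⟩ := select (p + p) e n0 (by omega)
    (fun h => lab (conv h)) (fun h => c (conv h)) c4 hcard
  let h' : (Fin e → Bool) → ((Fin p ⊕ Fin p → Bool) → Bool) := fun α => conv (H α)
  let w1 : Fin p ⊕ Fin p → Bool := fun i => w0 (finSumFinEquiv i)
  let Y : (Fin K → Bool) → (Fin K → Bool) → Blk K p → Bool := fun u v =>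
    Sum.elim u (Sum.elim v w1)
  have hcore : ∀ α u v, core (K := K) (h' α) (Y u v) = ip u v * bit (H α w0) := by
    intro α u v
    simp only [core, Y, h', conv, w1, Sum.elim_inl, Sum.elim_inr, Equiv.apply_symm_apply]
  have hip : ∀ u v, ∑ α, lam α * core (K := K) (h' α) (Y u v) = ip u v := by
    intro u v
    simp_rw [hcore]
    calc ∑ α, lam α * (ip u v * bit (H α w0)) = ip u v * ∑ α, lam α * bit (H α w0) := by
          rw [Finset.mul_sum]
          exact Finset.sum_congr rfl fun α _ => by ring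
      _ = ip u v := by rw [hsum, mul_one]
  let J : Type := Σ α : Fin e → Bool, Fin (g (h' α))
  let U : J → (Fin K → Bool) → ℝ := fun j u => ∑ i, θ (h' j.1) j.2 (Sum.inl i) * bit (u i)
  let V : J → (Fin K → Bool) → ℝ := fun j v =>
    (∑ i : Fin K ⊕ (Fin p ⊕ Fin p), θ (h' j.1) j.2 (Sum.inr i) * bit (Sum.elim v w1 i)) +
      b (h' j.1) j.2
  let bb : J → ℝ := fun j => -2 * (lam j.1 * a (h' j.1) j.2)
  have hgate : ∀ (j : J) u v, gate (θ (h' j.1) j.2) (b (h' j.1) j.2) (Y u v) =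
      if 0 < U j u + V j v then 1 else 0 := by
    intro j u v
    have : (∑ i, θ (h' j.1) j.2 i * bit (Y u v i)) + b (h' j.1) j.2 = U j u + V j v := by
      rw [Fintype.sum_sum_type, add_assoc]
      rfl
    rw [gate, this]
  have hδ : 0 ≤ δ := (abs_nonneg _).trans (hy (h' fun _ => false) (fun _ => false))
  have hmain : ∀ u v : Fin K → Bool,
      |chi u v - ((1 - 2 * ∑ α, lam α * a0 (h' α)) +
        ∑ j : J, bb j * (if 0 < U j u + V j v then 1 else 0))| ≤ 1 / 2 := by
    intro u v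
    have e1 : ∑ j : J, bb j * (if 0 < U j u + V j v then 1 else 0) =
        -2 * ∑ α, lam α * ∑ j, a (h' α) j * gate (θ (h' α) j) (b (h' α) j) (Y u v) := by
      rw [Fintype.sum_sigma, Finset.mul_sum]
      apply Finset.sum_congr rfl
      intro α _
      rw [Finset.mul_sum, Finset.mul_sum]
      apply Finset.sum_congr rfl
      intro j _
      rw [← hgate ⟨α, j⟩]
      simp only [bb]
      ring
    have e2 : ∑ α, lam α * ∑ i, c (h' α) i * bit ((lab (h' α) i).1 (Y u v)) = 0 := by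
      have h1 : ∀ α, ∀ i, lab (h' α) i = l i := fun α i => congrFun (hl α) i
      simp_rw [h1, Finset.mul_sum]
      rw [Finset.sum_comm]
      apply Finset.sum_eq_zero
      intro i _
      have h2 : ∑ α, lam α * (c (h' α) i * bit ((l i).1 (Y u v))) =
          (∑ α, lam α * c (h' α) i) * bit ((l i).1 (Y u v)) := by
        rw [Finset.sum_mul]
        exact Finset.sum_congr rfl fun α _ => by ring
      rw [h2]
      have h3 := hc0 i
      change ∑ α, lam α * c (h' α) i = 0 at h3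
      rw [h3, zero_mul]
    have e3 : chi u v = 1 - 2 * ip u v := by rw [ip_eq]; ring
    have e4 : chi u v - ((1 - 2 * ∑ α, lam α * a0 (h' α)) +
        ∑ j : J, bb j * (if 0 < U j u + V j v then 1 else 0)) =
        -2 * ∑ α, lam α * (core (K := K) (h' α) (Y u v) - (a0 (h' α) +
          ∑ j, a (h' α) j * gate (θ (h' α) j) (b (h' α) j) (Y u v) +
          ∑ i, c (h' α) i * bit ((lab (h' α) i).1 (Y u v)))) := by
      have h1 : ∑ α, lam α * (core (K := K) (h' α) (Y u v) - (a0 (h' α) +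
          ∑ j, a (h' α) j * gate (θ (h' α) j) (b (h' α) j) (Y u v) +
          ∑ i, c (h' α) i * bit ((lab (h' α) i).1 (Y u v)))) =
          ∑ α, lam α * core (K := K) (h' α) (Y u v) - (∑ α, lam α * a0 (h' α) +
          ∑ α, lam α * ∑ j, a (h' α) j * gate (θ (h' α) j) (b (h' α) j) (Y u v) +
          ∑ α, lam α * ∑ i, c (h' α) i * bit ((lab (h' α) i).1 (Y u v))) := by
        rw [← Finset.sum_add_distrib, ← Finset.sum_add_distrib, ← Finset.sum_sub_distrib]
        exact Finset.sum_congr rfl fun α _ => by ring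
      rw [h1, e2, hip, e1, e3]
      ring
    rw [e4, abs_mul]
    have e5 : |∑ α, lam α * (core (K := K) (h' α) (Y u v) - (a0 (h' α) +
          ∑ j, a (h' α) j * gate (θ (h' α) j) (b (h' α) j) (Y u v) +
          ∑ i, c (h' α) i * bit ((lab (h' α) i).1 (Y u v))))| ≤ 2 ^ e * (2 * δ) := by
      refine (Finset.abs_sum_le_sum_abs _ _).trans ?_
      have h1 : ∀ α ∈ (univ : Finset (Fin e → Bool)),
          |lam α * (core (K := K) (h' α) (Y u v) - (a0 (h' α) +
          ∑ j, a (h' α) j * gate (θ (h' α) j) (b (h' α) j) (Y u v) +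
          ∑ i, c (h' α) i * bit ((lab (h' α) i).1 (Y u v))))| ≤ 2 * δ := by
        intro α _
        rw [abs_mul]
        exact mul_le_mul (hlam α) (hy (h' α) (Y u v)) (abs_nonneg _) (by norm_num)
      refine (Finset.sum_le_sum h1).trans ?_
      simp
    have e6 : |(-2 : ℝ)| = 2 := by norm_num
    rw [e6]
    nlinarith
  have hJ : ∀ j : J, |bb j| ≤ 4 * A ∨
      #(univ.image (U j)) ≤ (2 * (M * S * K) + 1) ^ r * 2 ^ t := by
    intro j
    rcases hj (h' j.1) j.2 with h1 | h1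
    · left
      simp only [bb]
      rw [abs_mul, abs_mul]
      have h2 := hlam j.1
      have e6 : |(-2 : ℝ)| = 2 := by norm_num
      rw [e6]
      have h3 : |lam j.1| * |a (h' j.1) j.2| ≤ 2 * A :=
        mul_le_mul h2 h1 (abs_nonneg _) (by norm_num)
      linarith
    · right
      exact card_values _ (NT.comp_inl h1)
  have hJcard : Fintype.card J ≤ 2 ^ e * S := by
    simp only [J]
    rw [Fintype.card_sigma]
    calc ∑ α, Fintype.card (Fin (g (h' α))) ≤ ∑ _α : Fin e → Bool, S := by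
          apply Finset.sum_le_sum
          intro α _
          rw [Fintype.card_fin]
          exact hg _
      _ = 2 ^ e * S := by simp
  rcases chi_bound _ bb U V (4 * A) (by positivity) _ hmain hJ with h1 | h1
  · have h2 : 2 ^ K ≤ 2 * (1 + Fintype.card J * ((2 * (M * S * K) + 1) ^ r * 2 ^ t)) := by
      exact_mod_cast h1
    have h3 : 2 * (1 + Fintype.card J * ((2 * (M * S * K) + 1) ^ r * 2 ^ t)) ≤
        2 * (1 + (2 ^ e * S) * ((2 * (M * S * K) + 1) ^ r * 2 ^ t)) := by gcongr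
    omega
  · have h2 : ((Fintype.card J : ℕ) : ℝ) ≤ 2 ^ e * S := by exact_mod_cast hJcard
    have h3 : (8 * ((K : ℝ) + 1) * (Fintype.card J * (4 * A))) ^ 2 ≤
        (8 * ((K : ℝ) + 1) * ((2 ^ e * S) * (4 * A))) ^ 2 := by gcongr
    linarith

end Pool.Agent.MP_244be3_lc.WN
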