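import Pool.Agent.MP_244be3_lc.WN.Base

set_option autoImplicit false

/-!
[WN-A] From a network with at most two hidden layers that computes a function of the sign bits up
to an error `δ` to a representation `Rep`.

Proof. Follow `sumThr_of_net` in `Boolean.lean` (depth 0: the network is an affine function of `x`,
bounded since `F` has finitely many values, hence constant; no gates; depth 1:
every neuron is a literal, weight vector with one non-zero entry `q j` an integer with `|q j| ≤ 1`,
so `NT r M 0` holds with `t = (1, ..)`; depth 2: the weight of bit `t` in gate `j` is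
`∑ i ∈ range (N.width 1), if l i = t then N.W 1 j i * q i else 0`). If neuron `j` is
`Structured r M d (N.width 1) (N.W 1 j)` with exceptional set `E0`, the exceptional set of the
gate is the image of `E0 ∩ range (N.width 1)` under `l`, and outside of it all contributing weights
are integer combinations with coefficients at most `M`, at most `N.width 1 ≤ S` of them.
-/

namespace Pool.Agent.MP_244be3_lc.WN

open Finset Pool.Agent.MP_244be3_lc

private theorem single_NT {n : ℕ} {r M d : ℕ} (hr : 1 ≤ r) (hM : 1 ≤ M) (l : Fin n) (q : ℤ)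
    (hq : |q| ≤ 1) : NT r M d (fun i : Fin n => if l = i then (q : ℝ) else 0) := by
  refine ⟨∅, by simp, fun _ => 1, fun i _ => ?_⟩
  refine ⟨fun e => if e = ⟨0, hr⟩ then (if l = i then q else 0) else 0, fun e => ?_, ?_⟩
  · have h1 : (1 : ℤ) ≤ M := by exact_mod_cast hM
    by_cases he : e = ⟨0, hr⟩
    · by_cases hl : l = i
      · simp only [if_pos he, if_pos hl]; exact hq.trans h1
      · simp only [if_pos he, if_neg hl, abs_zero]; linarith
    · simp only [if_neg he, abs_zero]; linarith
  · have h1 : ∀ e : Fin r, (((if e = ⟨0, hr⟩ then (if l = i then q else 0) else 0 : ℤ) : ℝ)) * 1 =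
        if e = ⟨0, hr⟩ then (if l = i then (q : ℝ) else 0) else 0 := by
      intro e
      by_cases he : e = ⟨0, hr⟩
      · by_cases hl : l = i
        · simp [he, hl]
        · simp [he, hl]
      · simp [he]
    rw [Finset.sum_congr rfl fun e _ => h1 e, Finset.sum_ite_eq' univ (⟨0, hr⟩ : Fin r)
      (fun _ => if l = i then (q : ℝ) else 0)]
    simp

private theorem struct_NT {n : ℕ} {r M d m S : ℕ} (hm : m ≤ S) (w : ℕ → ℝ)
    (hw : Structured r M d m w) (l : ℕ → Fin n) (q : ℕ → ℤ) (hq : ∀ i, |q i| ≤ 1) :
    NT r (M * S) d (fun t : Fin n => ∑ i ∈ range m, if l i = t then w i * (q i : ℝ) else 0) := by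
  classical
  obtain ⟨E0, hE0, t, ht⟩ := hw
  refine ⟨(E0.filter (· < m)).image l, ?_, t, ?_⟩
  · exact (Finset.card_image_le.trans (Finset.card_filter_le _ _)).trans hE0
  · intro i hi
    have hcc : ∀ i' : ℕ, ∃ c : Fin r → ℤ, (i' < m → i' ∉ E0 →
        (∀ e, |c e| ≤ M) ∧ w i' = ∑ e, (c e : ℝ) * t e) := by
      intro i'
      by_cases h : i' < m ∧ i' ∉ E0
      · obtain ⟨c, hc⟩ := ht i' h.1 h.2
        exact ⟨c, fun _ _ => hc⟩
      · exact ⟨0, fun h1 h2 => absurd ⟨h1, h2⟩ h⟩
    choose cc hcc using hcc
    have hnot : ∀ i' ∈ range m, l i' = i → i' ∉ E0 := by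
      intro i' hi' hl hE
      exact hi (Finset.mem_image.2 ⟨i', Finset.mem_filter.2 ⟨hE, mem_range.1 hi'⟩, hl⟩)
    refine ⟨fun e => ∑ i' ∈ range m, if l i' = i then cc i' e * q i' else 0, fun e => ?_, ?_⟩
    · have h1 : ∀ i' ∈ range m, |if l i' = i then cc i' e * q i' else 0| ≤ (M : ℤ) := by
        intro i' hi'
        by_cases hl : l i' = i
        · rw [if_pos hl, abs_mul]
          have h2 := (hcc i' (mem_range.1 hi') (hnot i' hi' hl)).1 e
          calc |cc i' e| * |q i'| ≤ (M : ℤ) * 1 :=
                mul_le_mul h2 (hq i') (abs_nonneg _) (Int.natCast_nonneg _)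
            _ = M := mul_one _
        · rw [if_neg hl, abs_zero]
          exact Int.natCast_nonneg _
      calc |∑ i' ∈ range m, if l i' = i then cc i' e * q i' else 0|
          ≤ ∑ i' ∈ range m, |if l i' = i then cc i' e * q i' else 0| :=
            Finset.abs_sum_le_sum_abs _ _
        _ ≤ ∑ _i' ∈ range m, (M : ℤ) := Finset.sum_le_sum h1
        _ = (m * M : ℤ) := by rw [Finset.sum_const, Finset.card_range, nsmul_eq_mul]
        _ ≤ ((M * S : ℕ) : ℤ) := by
            push_cast
            rw [mul_comm (M : ℤ) (S : ℤ)]
            exact mul_le_mul_of_nonneg_right (by exact_mod_cast hm) (Int.natCast_nonneg _)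
    · have h1 : ∀ i' ∈ range m, (if l i' = i then w i' * (q i' : ℝ) else 0) =
          ∑ e, ((if l i' = i then cc i' e * q i' else 0 : ℤ) : ℝ) * t e := by
        intro i' hi'
        by_cases hl : l i' = i
        · rw [if_pos hl, (hcc i' (mem_range.1 hi') (hnot i' hi' hl)).2, Finset.sum_mul]
          refine Finset.sum_congr rfl fun e _ => ?_
          rw [if_pos hl]
          push_cast
          ring
        · rw [if_neg hl]
          symm
          refine Finset.sum_eq_zero fun e _ => ?_
          rw [if_neg hl]
          simp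
      refine (Finset.sum_congr rfl h1).trans ?_
      rw [Finset.sum_comm]
      refine Finset.sum_congr rfl fun e _ => ?_
      rw [← Finset.sum_mul]
      push_cast
      rfl

theorem rep_of_net {n : ℕ} (N : Net n) (hd : N.depth ≤ 2) (F : (Fin n → Bool) → ℝ)
    {δ : ℝ} (hN : ∀ x, |N.eval x - F (fun i => decide (0 < x i))| ≤ δ) {S W : ℕ} {A : ℝ}
    {r M d : ℕ} (hr : 1 ≤ r) (hM : 1 ≤ M) (hS : N.size ≤ S) (hW : (wild N A r M d).card ≤ W) :
    Rep F δ S W A r (M * S) d := by
  classical
  rcases Nat.eq_zero_or_pos n with hn | hn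
  · subst hn
    refine ⟨0, Nat.zero_le _, fun j => Fin.elim0 j, fun j => Fin.elim0 j, fun j => Fin.elim0 j,
      F Fin.elim0, ∅, by simp, fun j => Fin.elim0 j, ?_⟩
    intro u
    rw [Subsingleton.elim u Fin.elim0]
    have h := hN Fin.elim0
    simp only [Finset.univ_eq_empty, Finset.sum_empty, add_zero, sub_self, abs_zero]
    exact (abs_nonneg _).trans h
  have hd' : N.depth = 0 ∨ N.depth = 1 ∨ N.depth = 2 := by omega
  rcases hd' with h0 | h1 | h2
  · -- depth zero: the function is almost constant
    refine ⟨0, Nat.zero_le _, fun j => Fin.elim0 j, fun j => Fin.elim0 j, fun j => Fin.elim0 j,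
      N.a0, ∅, by simp, fun j => Fin.elim0 j, ?_⟩
    intro u
    simp only [Finset.univ_eq_empty, Finset.sum_empty, add_zero]
    have e1 : ∀ c : ℝ, 0 < c →
        |F u - (N.a0 + c * ∑ j : Fin n, N.a j * pt 1 u j)| ≤ δ := by
      intro c hc
      have e2 := hN (fun i => c * pt 1 u i)
      have e3 : (fun i => decide (0 < c * pt 1 u i)) = u := by
        rw [← decide_pt one_pos u]
        funext i
        simp only [mul_pos_iff_of_pos_left hc]
        rw [decide_pt one_pos]
      rw [e3, eval_zero N h0] at e2
      have e4 : ∑ j : Fin n, N.a j * (c * pt 1 u j) = c * ∑ j : Fin n, N.a j * pt 1 u j := by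
        rw [Finset.mul_sum]
        exact Finset.sum_congr rfl fun j _ => by ring
      rw [e4, abs_sub_comm] at e2
      exact e2
    have hcont : Filter.Tendsto
        (fun c : ℝ => |F u - (N.a0 + c * ∑ j : Fin n, N.a j * pt 1 u j)|)
        (nhdsWithin 0 (Set.Ioi 0)) (nhds |F u - (N.a0 + 0 * ∑ j : Fin n, N.a j * pt 1 u j)|) := by
      have : Continuous (fun c : ℝ => |F u - (N.a0 + c * ∑ j : Fin n, N.a j * pt 1 u j)|) := by
        fun_prop
      exact (this.tendsto 0).mono_left nhdsWithin_le_nhds
    have hle := le_of_tendsto hcont (Filter.eventually_of_mem self_mem_nhdsWithin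
      (fun c hc => e1 c hc))
    rwa [zero_mul, add_zero] at hle
  · -- depth one
    obtain ⟨ε, hε, l, p, q, hq, h⟩ := first_layer hn N
    have hsize : N.size = N.width 1 := by
      unfold Net.size
      rw [h1]
      simp
    refine ⟨N.width 1, hsize ▸ hS, fun j i => if l j = i then (q j : ℝ) else 0,
      fun j => p j - 1 / 2, fun j => N.a j, N.a0, ∅, by simp, fun j _ => Or.inr ?_, ?_⟩
    · have hS1 : 1 ≤ S := by
        have := j.2
        omega
      exact single_NT hr (Nat.mul_pos hM hS1) (l j) (q j) (hq j)
    · intro u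
      have hmain : N.a0 + ∑ j : Fin (N.width 1), N.a j *
          gate (fun i => if l j = i then (q j : ℝ) else 0) ((p j : ℝ) - 1 / 2) u =
          N.eval (pt ε u) := by
        rw [Net.eval, h1, Finset.sum_range]
        congr 1
        apply Finset.sum_congr rfl
        intro j _
        congr 1
        have h3 := h u j j.2
        have h4 : ∑ i : Fin n, (if l j = i then (q j : ℝ) else 0) * bit (u i) =
            q j * bit (u (l j)) := by
          rw [Finset.sum_eq_single (l j)]
          · rw [if_pos rfl]
          · intro i _ hi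
            rw [if_neg (Ne.symm hi), zero_mul]
          · intro hh; simp at hh
        unfold gate
        rw [h4]
        have h2 : N.act (pt ε u) 1 j = 0 ∨ N.act (pt ε u) 1 j = 1 := by
          rw [act_one]
          split_ifs
          · right; rfl
          · left; rfl
        rcases h2 with h2 | h2
        · rw [h2] at h3 ⊢
          rw [if_neg]
          linarith
        · rw [h2] at h3 ⊢
          rw [if_pos]
          linarith
      rw [hmain, abs_sub_comm]
      have := hN (pt ε u)
      rwa [decide_pt hε] at this
  · -- depth two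
    obtain ⟨ε, hε, l, p, q, hq, h⟩ := first_layer hn N
    have hsize : N.size = N.width 1 + N.width 2 := by
      unfold Net.size
      rw [h2]
      have : Icc 1 2 = ({1, 2} : Finset ℕ) := by decide
      rw [this, Finset.sum_insert (by decide), Finset.sum_singleton]
    refine ⟨N.width 2, by omega,
      fun j t => ∑ i ∈ range (N.width 1), if l i = t then N.W 1 j i * (q i : ℝ) else 0,
      fun j => (∑ i ∈ range (N.width 1), N.W 1 j i * p i) + N.B 1 j, fun j => N.a j, N.a0,
      univ.filter (fun j : Fin (N.width 2) => (j : ℕ) ∈ wild N A r M d), ?_, ?_, ?_⟩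
    · refine le_trans ?_ hW
      refine Finset.card_le_card_of_injOn (fun j : Fin (N.width 2) => (j : ℕ)) ?_ ?_
      · intro j hj
        exact (Finset.mem_filter.1 hj).2
      · intro a _ b _ hab
        exact Fin.ext hab
    · intro j hj
      have hj' : (j : ℕ) ∉ wild N A r M d := fun hh =>
        hj (Finset.mem_filter.2 ⟨Finset.mem_univ _, hh⟩)
      unfold wild at hj'
      rw [if_pos h2, Finset.mem_filter, not_and] at hj'
      have hj2 := hj' (mem_range.2 j.2)
      rw [not_and_or, not_not, not_lt] at hj2
      rcases hj2 with hj2 | hj2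
      · exact Or.inl hj2
      · exact Or.inr (struct_NT (by omega) (N.W 1 j) hj2 l q hq)
    · intro u
      have hmain : N.a0 + ∑ j : Fin (N.width 2), N.a j *
          gate (fun t => ∑ i ∈ range (N.width 1), if l i = t then N.W 1 j i * (q i : ℝ) else 0)
            ((∑ i ∈ range (N.width 1), N.W 1 j i * p i) + N.B 1 j) u = N.eval (pt ε u) := by
        rw [Net.eval, h2, Finset.sum_range]
        congr 1
        apply Finset.sum_congr rfl
        intro j _
        congr 1
        have e : (∑ i ∈ range (N.width 1), N.W 1 j i * N.act (pt ε u) 1 i) + N.B 1 j =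
            (∑ t : Fin n, (∑ i ∈ range (N.width 1),
              if l i = t then N.W 1 j i * (q i : ℝ) else 0) * bit (u t)) +
              ((∑ i ∈ range (N.width 1), N.W 1 j i * p i) + N.B 1 j) := by
          rw [← add_assoc]
          congr 1
          have e1 : (∑ t : Fin n, (∑ i ∈ range (N.width 1),
              if l i = t then N.W 1 j i * (q i : ℝ) else 0) *
              bit (u t)) = ∑ i ∈ range (N.width 1), N.W 1 j i * (q i * bit (u (l i))) := by
            simp_rw [Finset.sum_mul]
            rw [Finset.sum_comm]
            apply Finset.sum_congr rfl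
            intro i _
            rw [Finset.sum_eq_single (l i)]
            · rw [if_pos rfl]; ring
            · intro t _ ht
              rw [if_neg (Ne.symm ht), zero_mul]
            · intro hh; simp at hh
          rw [e1, ← Finset.sum_add_distrib]
          apply Finset.sum_congr rfl
          intro i hi
          rw [h u i (mem_range.1 hi)]
          ring
        rw [act_succ, e]
        rfl
      rw [hmain, abs_sub_comm]
      have := hN (pt ε u)
      rwa [decide_pt hε] at this

theorem Rep.reindex {ι κ : Type} [Fintype ι] [Fintype κ] (e : ι ≃ κ) {F : (ι → Bool) → ℝ}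
    {δ : ℝ} {S W : ℕ} {A : ℝ} {r M d : ℕ} (h : Rep F δ S W A r M d) :
    Rep (fun y : κ → Bool => F (fun i => y (e i))) δ S W A r M d := by
  classical
  obtain ⟨g, hg, θ, b, a, a0, E, hE, hj, hF⟩ := h
  refine ⟨g, hg, fun j k => θ j (e.symm k), b, a, a0, E, hE, fun j hjE => ?_, fun y => ?_⟩
  · rcases hj j hjE with h1 | ⟨E', hE', t, ht⟩
    · exact Or.inl h1
    · refine Or.inr ⟨E'.map e.toEmbedding, by rw [Finset.card_map]; exact hE', t, fun k hk => ?_⟩
      refine ht (e.symm k) (fun hmem => hk ?_)
      exact Finset.mem_map.2 ⟨e.symm k, hmem, e.apply_symm_apply k⟩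
  · have h1 : ∀ j, gate (fun k => θ j (e.symm k)) (b j) y = gate (θ j) (b j) (fun i => y (e i)) := by
      intro j
      unfold gate
      have h2 : ∑ k, θ j (e.symm k) * bit (y k) = ∑ i, θ j i * bit (y (e i)) := by
        rw [← Equiv.sum_comp e]
        simp
      rw [h2]
    simp only [h1]
    exact hF (fun i => y (e i))

end Pool.Agent.MP_244be3_lc.WN
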