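import Pool.Agent.MP_244be3_lc.WN.Base
import Pool.Agent.MP_244be3_lc.Disc

set_option autoImplicit false

/-!
[WN-F1] Kernels with small rectangle sums have small threshold sums.

Proof. As `reg_le` and `disc` in `Disc.lean`, with `chi` replaced by `Φ` and Lindsey's bound `rect`
replaced by the hypothesis. Induction on `i`: for `X0` with at most `2 ^ i` elements and any `Y0`,
`|∑ v ∈ Y0, ∑ u ∈ X0, if 0 < U u + V v then Φ u v else 0| ≤ (i + 1) √(c 2 ^ i #Y0)`.
-/

namespace Pool.Agent.MP_244be3_lc.WN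

open Finset Pool.Agent.MP_244be3_lc

variable {K : ℕ}

/-- The sum over a threshold region. -/
noncomputable def wnf1_reg (Φ : (Fin K → Bool) → (Fin K → Bool) → ℝ) (U V : (Fin K → Bool) → ℝ) (r : ℕ → (Fin K → Bool)) (a b : ℕ)
    (C : Finset (Fin K → Bool)) : ℝ :=
  ∑ v ∈ C, ∑ l ∈ Ico a b, if 0 < U (r l) + V v then Φ (r l) v else 0

theorem wnf1_rect (Φ : (Fin K → Bool) → (Fin K → Bool) → ℝ) (c : ℝ)
    (hΦ : ∀ X Y : Finset (Fin K → Bool),
      |∑ v ∈ Y, ∑ u ∈ X, Φ u v| ≤ √(c * (#X : ℝ) * #Y))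
    (r : ℕ → (Fin K → Bool)) (a b : ℕ)
    (hr : Set.InjOn r (Set.Ico a b)) (C : Finset (Fin K → Bool)) :
    |∑ v ∈ C, ∑ l ∈ Ico a b, Φ (r l) v| ≤ √(c * ((b - a : ℕ) : ℝ) * #C) := by
  have h3 : ∀ v : Fin K → Bool, ∑ l ∈ Ico a b, Φ (r l) v = ∑ u ∈ (Ico a b).image r, Φ u v := by
    intro v
    rw [Finset.sum_image]
    intro x hx y hy hxy
    exact hr (by simpa using hx) (by simpa using hy) hxy
  simp_rw [h3]
  have h4 := hΦ ((Ico a b).image r) C
  rwa [Finset.card_image_of_injOn (by simpa using hr), Nat.card_Ico] at h4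

theorem wnf1_reg_le (Φ : (Fin K → Bool) → (Fin K → Bool) → ℝ) (c : ℝ) (hc0 : 0 ≤ c)
    (hΦ : ∀ X Y : Finset (Fin K → Bool),
      |∑ v ∈ Y, ∑ u ∈ X, Φ u v| ≤ √(c * (#X : ℝ) * #Y))
    (U V : (Fin K → Bool) → ℝ) (r : ℕ → (Fin K → Bool)) :
    ∀ (i a : ℕ) (_ : Set.InjOn r (Set.Ico a (a + 2 ^ i)))
      (_ : ∀ l l', a ≤ l → l ≤ l' → l' < a + 2 ^ i → U (r l') ≤ U (r l))
      (C : Finset (Fin K → Bool)),
      |wnf1_reg Φ U V r a (a + 2 ^ i) C| ≤ (i + 1) * √(c * 2 ^ i * #C) := by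
  intro i
  induction i with
  | zero =>
    intro a _ _ C
    rw [Nat.cast_zero, zero_add, one_mul, pow_zero, pow_zero, mul_one]
    have h1 : wnf1_reg Φ U V r a (a + 1) C =
        ∑ v ∈ C.filter (fun v => 0 < U (r a) + V v), ∑ u ∈ {r a}, Φ u v := by
      unfold wnf1_reg
      rw [Finset.sum_filter]
      apply Finset.sum_congr rfl
      intro v _
      rw [Nat.Ico_succ_singleton, Finset.sum_singleton, Finset.sum_singleton]
    rw [h1]
    refine (hΦ _ _).trans ?_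
    apply Real.sqrt_le_sqrt
    rw [Finset.card_singleton, Nat.cast_one, mul_one]
    have h2 : (#(C.filter (fun v => 0 < U (r a) + V v)) : ℝ) ≤ #C := by
      exact_mod_cast Finset.card_filter_le _ _
    exact mul_le_mul_of_nonneg_left h2 hc0
  | succ i ih =>
    intro a hinj hanti C
    set b := a + 2 ^ i with hb
    have hc : a + 2 ^ (i + 1) = b + 2 ^ i := by rw [hb, pow_succ]; ring
    have hpos : 0 < 2 ^ i := by positivity
    rw [hc] at hinj hanti ⊢
    set C1 := C.filter fun v => ¬ 0 < U (r (b - 1)) + V v with hC1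
    set C2 := C.filter fun v => 0 < U (r (b - 1)) + V v with hC2
    have hsplit : wnf1_reg Φ U V r a (b + 2 ^ i) C =
        wnf1_reg Φ U V r a b C1 + (∑ v ∈ C2, ∑ l ∈ Ico a b, Φ (r l) v) + wnf1_reg Φ U V r b (b + 2 ^ i) C2 := by
      unfold wnf1_reg
      rw [← Finset.sum_filter_add_sum_filter_not C (fun v => 0 < U (r (b - 1)) + V v)]
      rw [← hC1, ← hC2]
      have e1 : ∑ v ∈ C2, ∑ l ∈ Ico a (b + 2 ^ i), (if 0 < U (r l) + V v then Φ (r l) v else 0) =
          (∑ v ∈ C2, ∑ l ∈ Ico a b, Φ (r l) v) +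
            ∑ v ∈ C2, ∑ l ∈ Ico b (b + 2 ^ i), if 0 < U (r l) + V v then Φ (r l) v else 0 := by
        rw [← Finset.sum_add_distrib]
        apply Finset.sum_congr rfl
        intro v hv
        rw [← Finset.sum_Ico_consecutive _ (show a ≤ b by omega) (show b ≤ b + 2 ^ i by omega)]
        congr 1
        apply Finset.sum_congr rfl
        intro l hl
        rw [Finset.mem_Ico] at hl
        have h1 := hanti l (b - 1) hl.1 (by omega) (by omega)
        have h2 : 0 < U (r (b - 1)) + V v := (Finset.mem_filter.1 hv).2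
        rw [if_pos (by linarith)]
      have e2 : ∑ v ∈ C1, ∑ l ∈ Ico a (b + 2 ^ i), (if 0 < U (r l) + V v then Φ (r l) v else 0) =
          ∑ v ∈ C1, ∑ l ∈ Ico a b, if 0 < U (r l) + V v then Φ (r l) v else 0 := by
        apply Finset.sum_congr rfl
        intro v hv
        rw [← Finset.sum_Ico_consecutive _ (show a ≤ b by omega) (show b ≤ b + 2 ^ i by omega)]
        have e3 : ∑ l ∈ Ico b (b + 2 ^ i), (if 0 < U (r l) + V v then Φ (r l) v else 0) = 0 := by
          apply Finset.sum_eq_zero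
          intro l hl
          rw [Finset.mem_Ico] at hl
          have h1 := hanti (b - 1) l (by omega) (by omega) hl.2
          have h2 : ¬ 0 < U (r (b - 1)) + V v := (Finset.mem_filter.1 hv).2
          rw [if_neg (by push Not at h2 ⊢; linarith)]
        rw [e3, add_zero]
      rw [e1, e2]
      ring
    have i1 := ih a (hinj.mono (by rw [← hb]; exact Set.Ico_subset_Ico_right (by omega)))
      (fun l l' h1 h2 h3 => hanti l l' h1 h2 (by omega)) C1
    rw [← hb] at i1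
    have i2 := ih b (hinj.mono (Set.Ico_subset_Ico_left (by omega)))
      (fun l l' h1 h2 h3 => hanti l l' (by omega) h2 h3) C2
    have i3 := wnf1_rect Φ c hΦ r a b (hinj.mono (Set.Ico_subset_Ico_right (by omega))) C2
    have hba : ((b - a : ℕ) : ℝ) = 2 ^ i := by
      have : b - a = 2 ^ i := by omega
      rw [this]
      push_cast
      rfl
    rw [hba] at i3
    have hcard : (#C1 : ℝ) + #C2 = #C := by
      have h := Finset.card_filter_add_card_filter_not (s := C) (fun v => 0 < U (r (b - 1)) + V v)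
      rw [← hC1, ← hC2] at h
      have : #C1 + #C2 = #C := by omega
      exact_mod_cast this
    -- arithmetic
    set X : ℝ := c * 2 ^ i with hX
    have hX0 : 0 ≤ X := by positivity
    have hx1 : 0 ≤ (#C1 : ℝ) := Nat.cast_nonneg _
    have hx2 : 0 ≤ (#C2 : ℝ) := Nat.cast_nonneg _
    have hpow : c * 2 ^ (i + 1) * #C = X * (2 * (#C1 + #C2)) := by
      rw [hcard, hX, pow_succ]; ring
    rw [hpow]
    rw [Real.sqrt_mul hX0] at i1 i2 i3 ⊢
    have s1 : √(#C1 : ℝ) + √(#C2 : ℝ) ≤ √(2 * ((#C1 : ℝ) + #C2)) := by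
      apply Real.le_sqrt_of_sq_le
      have e1 := Real.sq_sqrt hx1
      have e2 := Real.sq_sqrt hx2
      nlinarith [sq_nonneg (√(#C1 : ℝ) - √(#C2 : ℝ))]
    have s2 : √(#C2 : ℝ) ≤ √(2 * ((#C1 : ℝ) + #C2)) := by
      apply Real.sqrt_le_sqrt
      linarith
    have hsX : 0 ≤ √X := Real.sqrt_nonneg _
    have hi : (0 : ℝ) ≤ i + 1 := by positivity
    rw [hsplit]
    calc |wnf1_reg Φ U V r a b C1 + (∑ v ∈ C2, ∑ l ∈ Ico a b, Φ (r l) v) + wnf1_reg Φ U V r b (b + 2 ^ i) C2| ≤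
        |wnf1_reg Φ U V r a b C1| + |∑ v ∈ C2, ∑ l ∈ Ico a b, Φ (r l) v| +
          |wnf1_reg Φ U V r b (b + 2 ^ i) C2| := abs_add_three _ _ _
      _ ≤ (i + 1) * (√X * √(#C1 : ℝ)) + √X * √(#C2 : ℝ) + (i + 1) * (√X * √(#C2 : ℝ)) := by
          linarith
      _ = √X * ((i + 1) * (√(#C1 : ℝ) + √(#C2 : ℝ)) + √(#C2 : ℝ)) := by ring
      _ ≤ √X * ((i + 1) * √(2 * ((#C1 : ℝ) + #C2)) + √(2 * ((#C1 : ℝ) + #C2))) := by
          gcongr
      _ = ((i + 1 : ℕ) + 1) * (√X * √(2 * ((#C1 : ℝ) + #C2))) := by push_cast; ring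

theorem kernel_threshold {K : ℕ} (Φ : (Fin K → Bool) → (Fin K → Bool) → ℝ) (c : ℝ) (hc : 0 ≤ c)
    (hΦ : ∀ X Y : Finset (Fin K → Bool),
      |∑ v ∈ Y, ∑ u ∈ X, Φ u v| ≤ √(c * (#X : ℝ) * #Y))
    (U V : (Fin K → Bool) → ℝ) :
    |∑ v, ∑ u, if 0 < U u + V v then Φ u v else 0| ≤ (K + 1) * √(c * 2 ^ K * 2 ^ K) := by
  have hcard : Fintype.card (Fin K → Bool) = 2 ^ K := by
    rw [Fintype.card_fun, Fintype.card_bool, Fintype.card_fin]
  let e : Fin (2 ^ K) ≃ (Fin K → Bool) := (Fintype.equivFinOfCardEq hcard).symm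
  let f : Fin (2 ^ K) → ℝ := fun i => -U (e i)
  let σ := Tuple.sort f
  have hmono : Monotone (f ∘ σ) := Tuple.monotone_sort f
  let r : ℕ → (Fin K → Bool) := fun l =>
    if h : l < 2 ^ K then e (σ ⟨l, h⟩) else fun _ => false
  have hr : ∀ (l : ℕ) (h : l < 2 ^ K), r l = e (σ ⟨l, h⟩) := fun l h => dif_pos h
  have hinj : Set.InjOn r (Set.Ico 0 (0 + 2 ^ K)) := by
    intro x hx y hy hxy
    rw [Set.mem_Ico, zero_add] at hx hy
    rw [hr x hx.2, hr y hy.2] at hxy
    have := σ.injective (e.injective hxy)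
    simpa using this
  have hanti : ∀ l l', 0 ≤ l → l ≤ l' → l' < 0 + 2 ^ K → U (r l') ≤ U (r l) := by
    intro l l' _ h2 h3
    rw [zero_add] at h3
    rw [hr l (by omega), hr l' h3]
    have := hmono (show (⟨l, by omega⟩ : Fin (2 ^ K)) ≤ ⟨l', h3⟩ from h2)
    simp only [Function.comp, f] at this
    linarith
  have h := wnf1_reg_le Φ c hc hΦ U V r K 0 hinj hanti univ
  have h1 : wnf1_reg Φ U V r 0 (0 + 2 ^ K) univ = ∑ v, ∑ u, if 0 < U u + V v then Φ u v else 0 := by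
    unfold wnf1_reg
    apply Finset.sum_congr rfl
    intro v _
    rw [zero_add, ← Finset.range_eq_Ico, Finset.sum_range]
    rw [← (σ.trans e).sum_comp]
    apply Finset.sum_congr rfl
    intro i _
    rw [hr i i.2]
    rfl
  rw [h1] at h
  have h2 : (#(univ : Finset (Fin K → Bool)) : ℝ) = 2 ^ K := by
    rw [Finset.card_univ, hcard]
    push_cast
    rfl
  rwa [h2] at h


end Pool.Agent.MP_244be3_lc.WN
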