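import Pool.Agent.MP_244be3_lc.WN.Base

set_option autoImplicit false

/-!
[WN-B0] Littlewood-Offord (Erdős), half open interval of length `w`.

Proof. Fix the bits outside of `G` (`#κ - #G` bits). The sets `{i ∈ G | bit i ≠ (θ i < 0)}` of the
remaining assignments with sum in the interval form an antichain (a proper inclusion changes the
sum by at least `w`, but two sums in `(τ, τ + w]` differ by less than `w`), so by
`IsAntichain.sperner` there are at most `choose #G (#G / 2)` of them. Also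
`choose r (r / 2) / 2 ^ r ≤ 1 / √(r + 1)` (induction for even `r`, and
`choose (2 n + 1) n = choose (2 n + 2) (n + 1) / 2`).
-/

namespace Pool.Agent.MP_244be3_lc.WN

open Finset Pool.Agent.MP_244be3_lc

theorem littlewood_offord {κ : Type} [Fintype κ] [DecidableEq κ] (θ : κ → ℝ) (w : ℝ) (hw : 0 < w)
    (G : Finset κ) (hG : ∀ i ∈ G, w ≤ |θ i|) (τ : ℝ) :
    (#{x : κ → Bool | τ < ∑ i, θ i * bit (x i) ∧ ∑ i, θ i * bit (x i) ≤ τ + w}) * 2 ^ #G ≤
      (#G).choose (#G / 2) * 2 ^ Fintype.card κ := by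
  classical
  set Bad : Finset (κ → Bool) :=
    {x : κ → Bool | τ < ∑ i, θ i * bit (x i) ∧ ∑ i, θ i * bit (x i) ≤ τ + w} with hBad
  let r : (κ → Bool) → ((Gᶜ : Finset κ) → Bool) := fun x i => x i
  let A : (κ → Bool) → Finset G := fun x =>
    univ.filter fun i => (x i = true ∧ 0 < θ i) ∨ (x i = false ∧ θ i < 0)
  have hne : ∀ i ∈ G, θ i ≠ 0 := by
    intro i hi h0
    have := hG i hi
    rw [h0, abs_zero] at this
    linarith
  have hterm : ∀ (x : κ → Bool) (i : G), θ i * bit (x i) =
      (if i ∈ A x then |θ i| else 0) + min (θ i) 0 := by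
    intro x i
    have h0 := hne i i.2
    have hmem : i ∈ A x ↔ (x i = true ∧ 0 < θ i) ∨ (x i = false ∧ θ i < 0) := by
      simp [A]
    rcases lt_or_gt_of_ne h0 with hneg | hpos
    · cases hx : x i
      · rw [if_pos (hmem.mpr (Or.inr ⟨hx, hneg⟩)), abs_of_neg hneg, min_eq_left hneg.le]
        simp [bit]
      · rw [if_neg, min_eq_left hneg.le]
        · simp [bit]
        · rw [hmem, hx]
          rintro (h | h)
          · linarith [h.2]
          · exact absurd h.1 (by simp)
    · cases hx : x i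
      · rw [if_neg, min_eq_right hpos.le]
        · simp [bit]
        · rw [hmem, hx]
          rintro (h | h)
          · exact absurd h.1 (by simp)
          · linarith [h.2]
      · rw [if_pos (hmem.mpr (Or.inl ⟨hx, hpos⟩)), abs_of_pos hpos, min_eq_right hpos.le]
        simp [bit]
  have hsum : ∀ x : κ → Bool, ∑ i, θ i * bit (x i) = ∑ i ∈ A x, |θ i| +
      (∑ i : G, min (θ i) 0 + ∑ i : (Gᶜ : Finset κ), θ i * bit (r x i)) := by
    intro x
    rw [← Finset.sum_add_sum_compl G, ← Finset.sum_coe_sort G, ← Finset.sum_coe_sort Gᶜ,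
      Finset.sum_congr rfl fun i _ => hterm x i, Finset.sum_add_distrib, Finset.sum_ite_mem,
      Finset.univ_inter, add_assoc]
  have hfib : ∀ y ∈ Bad.image r, #(Bad.filter fun x => r x = y) ≤ (#G).choose (#G / 2) := by
    intro y _
    have hinj : Set.InjOn A (Bad.filter fun x => r x = y : Finset (κ → Bool)) := by
      intro x hx x' hx' hAA
      rw [Finset.mem_coe, Finset.mem_filter] at hx hx'
      funext i
      by_cases hi : i ∈ G
      · have h0 := hne i hi
        have h1 : (⟨i, hi⟩ : G) ∈ A x ↔ (⟨i, hi⟩ : G) ∈ A x' := by rw [hAA]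
        simp only [A, Finset.mem_filter, Finset.mem_univ, true_and] at h1
        rcases lt_or_gt_of_ne h0 with hneg | hpos
        · have h2 : ¬ 0 < θ i := not_lt.mpr hneg.le
          simp only [h2, hneg, and_false, false_or, and_true] at h1
          cases hx1 : x i <;> cases hx2 : x' i <;> simp_all
        · have h2 : ¬ θ i < 0 := not_lt.mpr hpos.le
          simp only [h2, hpos, and_false, or_false, and_true] at h1
          cases hx1 : x i <;> cases hx2 : x' i <;> simp_all
      · have h1 : r x = r x' := hx.2.trans hx'.2.symm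
        exact congrFun h1 ⟨i, Finset.mem_compl.mpr hi⟩
    rw [← Finset.card_image_of_injOn hinj]
    have hanti : IsAntichain (· ⊆ ·)
        (SetLike.coe ((Bad.filter fun x => r x = y).image A)) := by
      intro a ha b hb hab hsub
      rw [Finset.mem_coe, Finset.mem_image] at ha hb
      obtain ⟨x, hx, rfl⟩ := ha
      obtain ⟨x', hx', rfl⟩ := hb
      rw [Finset.mem_filter, hBad, Finset.mem_filter] at hx hx'
      have h1 := hx.1.2.1
      have h2 := hx'.1.2.2
      rw [hsum x, hx.2] at h1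
      rw [hsum x', hx'.2] at h2
      obtain ⟨i, hi, hi'⟩ := Finset.exists_of_ssubset (hsub.ssubset_of_ne hab)
      have h3 : ∑ j ∈ A x, |θ j| + |θ i| ≤ ∑ j ∈ A x', |θ j| := by
        have h4 : insert i (A x) ⊆ A x' := Finset.insert_subset hi hsub
        have h5 := Finset.sum_le_sum_of_subset_of_nonneg (f := fun j : G => |θ j|) h4
          (fun j _ _ => abs_nonneg (θ j))
        rw [Finset.sum_insert hi'] at h5
        linarith
      have h4 := hG i i.2
      linarith
    have h2 := hanti.sperner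
    rw [Fintype.card_coe] at h2
    exact h2
  have h1 := Finset.card_le_mul_card_image (f := r) Bad ((#G).choose (#G / 2)) hfib
  have h2 : #(Bad.image r) ≤ 2 ^ #(Gᶜ) := by
    refine (Finset.card_le_univ _).trans ?_
    rw [Fintype.card_fun, Fintype.card_bool, Fintype.card_coe]
  calc #Bad * 2 ^ #G ≤ ((#G).choose (#G / 2) * #(Bad.image r)) * 2 ^ #G := Nat.mul_le_mul_right _ h1
    _ ≤ ((#G).choose (#G / 2) * 2 ^ #(Gᶜ)) * 2 ^ #G := by gcongr
    _ = (#G).choose (#G / 2) * 2 ^ Fintype.card κ := by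
        rw [mul_assoc, ← pow_add, Finset.card_compl, Nat.sub_add_cancel (Finset.card_le_univ G)]

theorem WNB0_central (n : ℕ) : (n.centralBinom) ^ 2 * (2 * n + 1) ≤ 16 ^ n := by
  induction n with
  | zero => simp
  | succ n ih =>
    have h1 := Nat.succ_mul_centralBinom_succ n
    have h2 : (n + 1) ^ 2 * ((n + 1).centralBinom ^ 2 * (2 * (n + 1) + 1)) ≤
        (n + 1) ^ 2 * 16 ^ (n + 1) := by
      calc (n + 1) ^ 2 * ((n + 1).centralBinom ^ 2 * (2 * (n + 1) + 1))
          = ((n + 1) * (n + 1).centralBinom) ^ 2 * (2 * n + 3) := by ring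
        _ = (2 * (2 * n + 1) * n.centralBinom) ^ 2 * (2 * n + 3) := by rw [h1]
        _ = (n.centralBinom ^ 2 * (2 * n + 1)) * (4 * ((2 * n + 1) * (2 * n + 3))) := by ring
        _ ≤ 16 ^ n * (4 * ((2 * n + 1) * (2 * n + 3))) := Nat.mul_le_mul_right _ ih
        _ ≤ 16 ^ n * (4 * (4 * (n + 1) ^ 2)) := by
            refine Nat.mul_le_mul_left _ (Nat.mul_le_mul_left _ ?_)
            nlinarith
        _ = (n + 1) ^ 2 * 16 ^ (n + 1) := by ring
    exact Nat.le_of_mul_le_mul_left h2 (by positivity)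

theorem WNB0_central' (n : ℕ) : (n.centralBinom : ℝ) / 4 ^ n ≤ 1 / √(2 * (n : ℝ) + 1) := by
  have h1 : ((n.centralBinom : ℝ)) ^ 2 * (2 * n + 1) ≤ 16 ^ n := by
    exact_mod_cast WNB0_central n
  have hpos : (0 : ℝ) < 2 * n + 1 := by positivity
  rw [div_le_div_iff₀ (by positivity) (Real.sqrt_pos.mpr hpos), one_mul]
  have h2 : (n.centralBinom : ℝ) * √(2 * (n : ℝ) + 1) =
      √((n.centralBinom : ℝ) ^ 2 * (2 * n + 1)) := by
    rw [Real.sqrt_mul (sq_nonneg _), Real.sqrt_sq (Nat.cast_nonneg _)]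
  rw [h2]
  refine Real.sqrt_le_iff.mpr ⟨by positivity, ?_⟩
  calc _ ≤ (16 : ℝ) ^ n := h1
    _ = (4 ^ n) ^ 2 := by
        rw [← pow_mul, mul_comm, pow_mul]
        norm_num

theorem choose_half_le (r : ℕ) : ((r.choose (r / 2) : ℕ) : ℝ) / 2 ^ r ≤ 1 / √((r : ℝ) + 1) := by
  rcases Nat.even_or_odd' r with ⟨n, rfl | rfl⟩
  · have h1 : 2 * n / 2 = n := by omega
    rw [h1, ← Nat.centralBinom_eq_two_mul_choose, pow_mul]
    have h2 := WNB0_central' n
    norm_num
    norm_num at h2
    exact h2
  · have h1 : (2 * n + 1) / 2 = n := by omega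
    rw [h1]
    have h3 : (n + 1).centralBinom = 2 * (2 * n + 1).choose n := by
      rw [Nat.centralBinom_eq_two_mul_choose, show 2 * (n + 1) = (2 * n + 1) + 1 by ring,
        Nat.choose_succ_succ, Nat.choose_symm_half]
      ring
    have h2 := WNB0_central' (n + 1)
    rw [h3] at h2
    have h4 : (((2 * n + 1).choose n : ℕ) : ℝ) / 2 ^ (2 * n + 1) =
        ((2 * (2 * n + 1).choose n : ℕ) : ℝ) / 4 ^ (n + 1) := by
      have e1 : (4 : ℝ) ^ (n + 1) = 2 * 2 ^ (2 * n + 1) := by
        rw [show (4 : ℝ) = 2 ^ 2 by norm_num, ← pow_mul]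
        ring
      rw [e1]
      push_cast
      rw [mul_div_mul_left _ _ (two_ne_zero)]
    rw [h4]
    refine h2.trans ?_
    refine one_div_le_one_div_of_le (Real.sqrt_pos.mpr (by positivity)) (Real.sqrt_le_sqrt ?_)
    push_cast
    linarith

end Pool.Agent.MP_244be3_lc.WN
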