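import Pool.Agent.MP_244be3_lc.WN.LO

set_option autoImplicit false

/-!
[WN-B1] Random subcubes: a threshold gate on `k` blocks of `4 ^ μ` bits is constant on all but a
fraction `2 k ^ 2 / 2 ^ μ` of the subcubes `put al x`.

Proof. `m = 4 ^ μ`, `k = card ι`. Fix `al`. Let `w i = |θ (i, al i)|`, `i0` with `w i0` maximal,
`w = w i0`. If `w = 0` the gate is constant. The gate at `put al x y` is `1` iff
`Z x + b + ∑ i, θ (i, al i) * bit (xor (y i) (restpar ..)) > 0` with
`Z x = ∑ i, ∑ j ≠ al i, θ (i, j) * bit (x i j)`; if it is not constant in `y` then `Z x` lies in the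
half open interval `(- b - ∑ θ⁺, - b + ∑ θ⁻]` of length `∑ i, w i ≤ k * w`, which is covered by `k`
half open intervals of length `w`. With `R i j = #{j' ≠ j | |θ (i, j')| ≥ |θ (i, j)|}` and
`ρ = R i0 (al i0)`, `littlewood_offord` (index type `ι × Fin m`, weights set to zero on the alive
positions, `G` the pairs `(i0, j')` counted in `ρ`) gives for each such interval at most the
fraction `choose ρ (ρ / 2) / 2 ^ ρ ≤ 1 / √(ρ + 1)` of the `x`. So the number of bad `x` is at most
`2 ^ (k m) * k / √(R i0 (al i0) + 1) ≤ 2 ^ (k m) * k * ∑ i, 1 / √(R i (al i) + 1)`, and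
`∑ al, ∑ i, 1 / √(R i (al i) + 1) = m ^ (k - 1) * ∑ i, ∑ j, 1 / √(R i j + 1)
≤ m ^ (k - 1) * k * ∑ j < m, 1 / √(j + 1) ≤ m ^ (k - 1) * k * 2 √m`
(sort the `|θ (i, j)|` decreasingly: the entry at position `j` has `R i j ≥ j`).
-/

namespace Pool.Agent.MP_244be3_lc.WN

open Finset Pool.Agent.MP_244be3_lc

/-! ### ranks -/

theorem nonconst_rank {β : Type} [DecidableEq β] (a : β → ℝ) (f : ℕ → ℝ) (hf : Antitone f)
    (S : Finset β) :
    ∑ j ∈ S, f (#{j' ∈ S | j' ≠ j ∧ a j ≤ a j'}) ≤ ∑ r ∈ range #S, f r := by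
  induction S using Finset.induction_on_min_value (f := a) with
  | empty => simp
  | insert c S hc hmin ih =>
    rw [Finset.sum_insert hc, Finset.card_insert_of_notMem hc, Finset.sum_range_succ, add_comm]
    refine add_le_add ?_ ?_
    · refine le_trans (Finset.sum_le_sum fun j hj => ?_) ih
      apply hf
      apply Finset.card_le_card
      intro j' hj'
      rw [Finset.mem_filter] at hj' ⊢
      exact ⟨Finset.mem_insert_of_mem hj'.1, hj'.2⟩
    · apply hf
      apply Finset.card_le_card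
      intro j' hj'
      rw [Finset.mem_filter]
      refine ⟨Finset.mem_insert_of_mem hj', ?_, hmin j' hj'⟩
      rintro rfl
      exact hc hj'

theorem nonconst_sqrt (n : ℕ) : ∑ r ∈ range n, 1 / √((r : ℝ) + 1) ≤ 2 * √(n : ℝ) := by
  induction n with
  | zero => simp
  | succ n ih =>
    rw [Finset.sum_range_succ]
    have h0 : (0 : ℝ) ≤ n := Nat.cast_nonneg n
    have h1 : 0 < √((n : ℝ) + 1) := Real.sqrt_pos.2 (by linarith)
    have h2 : √((n : ℝ) + 1) * √((n : ℝ) + 1) = (n : ℝ) + 1 := Real.mul_self_sqrt (by linarith)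
    have h3 : √(n : ℝ) * √(n : ℝ) = (n : ℝ) := Real.mul_self_sqrt h0
    have h4 : 0 ≤ √(n : ℝ) := Real.sqrt_nonneg _
    have h5 : 1 / √((n : ℝ) + 1) ≤ 2 * √((n : ℝ) + 1) - 2 * √(n : ℝ) := by
      rw [div_le_iff₀ h1]
      nlinarith [sq_nonneg (√((n : ℝ) + 1) - √(n : ℝ))]
    push_cast
    linarith

theorem nonconst_rank_sum {m : ℕ} (a : Fin m → ℝ) :
    ∑ j, 1 / √(((#{j' : Fin m | j' ≠ j ∧ a j ≤ a j'} : ℕ) : ℝ) + 1) ≤ 2 * √(m : ℝ) := by
  have hf : Antitone (fun r : ℕ => 1 / √((r : ℝ) + 1)) := by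
    intro r s hrs
    have h0 : (0 : ℝ) ≤ r := Nat.cast_nonneg r
    have h1 : (r : ℝ) ≤ s := by exact_mod_cast hrs
    exact one_div_le_one_div_of_le (Real.sqrt_pos.2 (by linarith))
      (Real.sqrt_le_sqrt (by linarith))
  have h := nonconst_rank a _ hf univ
  rw [Finset.card_univ, Fintype.card_fin] at h
  exact h.trans (nonconst_sqrt m)

/-! ### averaging over one coordinate -/

theorem nonconst_avg {ι : Type} [Fintype ι] [DecidableEq ι] {m : ℕ} (i : ι) (g : Fin m → ℝ) :
    (m : ℝ) * ∑ al : ι → Fin m, g (al i) = (Fintype.card (ι → Fin m) : ℝ) * ∑ j, g j := by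
  have h1 : ∑ al : ι → Fin m, g (al i) =
      ∑ p : Fin m × ({j : ι // j ≠ i} → Fin m), g p.1 := by
    refine Fintype.sum_equiv (Equiv.funSplitAt i (Fin m)) _ _ fun al => ?_
    rfl
  have h2 : (Fintype.card (ι → Fin m) : ℝ) =
      (m : ℝ) * (Fintype.card ({j : ι // j ≠ i} → Fin m) : ℝ) := by
    rw [Fintype.card_congr (Equiv.funSplitAt i (Fin m)), Fintype.card_prod, Fintype.card_fin]
    push_cast
    ring
  rw [h1, Fintype.sum_prod_type, h2]
  simp only [Finset.sum_const, Finset.card_univ, nsmul_eq_mul]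
  rw [← Finset.mul_sum]
  ring

/-! ### one choice of alive positions -/

theorem nonconst_cover (S τ w : ℝ) (hw : 0 < w) (k : ℕ) (h1 : τ < S) (h2 : S ≤ τ + k * w) :
    ∃ l < k, τ + l * w < S ∧ S ≤ τ + l * w + w := by
  induction k with
  | zero =>
    simp at h2
    linarith
  | succ k ih =>
    by_cases h : S ≤ τ + k * w
    · obtain ⟨l, hl, h3, h4⟩ := ih h
      exact ⟨l, by omega, h3, h4⟩
    · refine ⟨k, by omega, by linarith, ?_⟩
      push_cast at h2
      linarith

open Classical in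
theorem nonconst_al {ι : Type} [Fintype ι] {m : ℕ} (θ : ι × Fin m → ℝ) (b : ℝ)
    (al : ι → Fin m) :
    ((#{x : ι → Fin m → Bool | ¬ ∃ c, ∀ y, gate θ b (put al x y) = c} : ℕ) : ℝ) ≤
      (Fintype.card ι : ℝ) * (Fintype.card (ι → Fin m → Bool) : ℝ) *
        ∑ i, 1 / √(((#{j' : Fin m | j' ≠ al i ∧ |θ (i, al i)| ≤ |θ (i, j')|} : ℕ) : ℝ) + 1) := by
  have hRHS : 0 ≤ (Fintype.card ι : ℝ) * (Fintype.card (ι → Fin m → Bool) : ℝ) *
        ∑ i, 1 / √(((#{j' : Fin m | j' ≠ al i ∧ |θ (i, al i)| ≤ |θ (i, j')|} : ℕ) : ℝ) + 1) := by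
    positivity
  by_cases h0 : ∀ i, θ (i, al i) = 0
  · have hemp : (univ.filter fun x : ι → Fin m → Bool =>
        ¬ ∃ c, ∀ y, gate θ b (put al x y) = c) = ∅ := by
      apply Finset.filter_eq_empty_iff.2
      intro x _
      rw [not_not]
      refine ⟨gate θ b (put al x (fun _ => false)), fun y => ?_⟩
      have : ∑ p, θ p * bit (put al x y p) = ∑ p, θ p * bit (put al x (fun _ => false) p) := by
        refine Finset.sum_congr rfl fun p _ => ?_
        by_cases hp : p.2 = al p.1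
        · have : θ p = 0 := by
            have := h0 p.1
            rw [← hp] at this
            exact this
          rw [this, zero_mul, zero_mul]
        · simp only [put, if_neg hp]
      unfold gate
      rw [this]
    rw [hemp]
    simpa using hRHS
  · rw [not_forall] at h0
    obtain ⟨i1, hi1⟩ := h0
    obtain ⟨i0, _, hmax⟩ := Finset.exists_max_image (univ : Finset ι)
      (fun i => |θ (i, al i)|) ⟨i1, Finset.mem_univ _⟩
    set w : ℝ := |θ (i0, al i0)| with hw
    have hw0 : 0 < w := lt_of_lt_of_le (abs_pos.2 hi1) (hmax i1 (Finset.mem_univ _))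
    set θ' : ι × Fin m → ℝ := fun p => if p.2 = al p.1 then 0 else θ p with hθ'
    -- the alive part
    have hsplit : ∀ (x : ι → Fin m → Bool) (y : ι → Bool),
        ∑ p, θ p * bit (put al x y p) = ∑ p : ι × Fin m, θ' p * bit (x p.1 p.2) +
          ∑ i, θ (i, al i) * bit (xor (y i) (restpar (al i) (x i))) := by
      intro x y
      have e1 : ∀ p : ι × Fin m, θ p * bit (put al x y p) = θ' p * bit (x p.1 p.2) +
          (if p.2 = al p.1 then
            θ (p.1, al p.1) * bit (xor (y p.1) (restpar (al p.1) (x p.1))) else 0) := by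
        intro p
        by_cases hp : p.2 = al p.1
        · simp only [put, hθ', if_pos hp, zero_mul, zero_add]
          rw [← hp]
        · simp only [put, hθ', if_neg hp, add_zero]
      rw [Finset.sum_congr rfl fun p _ => e1 p, Finset.sum_add_distrib]
      congr 1
      rw [Fintype.sum_prod_type]
      refine Finset.sum_congr rfl fun i _ => ?_
      simp
    have hbit : ∀ c : Bool, bit c = 0 ∨ bit c = 1 := by
      intro c; cases c <;> simp [bit]
    set Pp : ℝ := ∑ i, max (θ (i, al i)) 0 with hPp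
    set Nn : ℝ := ∑ i, max (-θ (i, al i)) 0 with hNn
    have hVle : ∀ z : ι → Bool, ∑ i, θ (i, al i) * bit (z i) ≤ Pp := by
      intro z
      refine Finset.sum_le_sum fun i _ => ?_
      rcases hbit (z i) with h | h
      · rw [h, mul_zero]; exact le_max_right _ _
      · rw [h, mul_one]; exact le_max_left _ _
    have hVge : ∀ z : ι → Bool, -Nn ≤ ∑ i, θ (i, al i) * bit (z i) := by
      intro z
      rw [hNn, ← Finset.sum_neg_distrib]
      refine Finset.sum_le_sum fun i _ => ?_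
      rcases hbit (z i) with h | h
      · rw [h, mul_zero]
        have := le_max_right (-θ (i, al i)) 0
        linarith
      · rw [h, mul_one]
        have := le_max_left (-θ (i, al i)) 0
        linarith
    have hPN : Pp + Nn ≤ (Fintype.card ι : ℝ) * w := by
      rw [hPp, hNn, ← Finset.sum_add_distrib]
      have : ∀ i ∈ (univ : Finset ι), max (θ (i, al i)) 0 + max (-θ (i, al i)) 0 ≤ w := by
        intro i hi
        have h1 := hmax i hi
        refine le_trans (le_of_eq ?_) h1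
        rcases le_total 0 (θ (i, al i)) with h | h
        · rw [max_eq_left h, max_eq_right (by linarith), add_zero, abs_of_nonneg h]
        · rw [max_eq_right h, max_eq_left (by linarith), zero_add, abs_of_nonpos h]
      refine (Finset.sum_le_sum this).trans (le_of_eq ?_)
      rw [Finset.sum_const, Finset.card_univ, nsmul_eq_mul]
    -- the bad assignments
    set B : ℕ → Finset (ι → Fin m → Bool) := fun l => univ.filter fun x =>
      (-b - Pp + l * w) < ∑ p : ι × Fin m, θ' p * bit (x p.1 p.2) ∧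
        ∑ p : ι × Fin m, θ' p * bit (x p.1 p.2) ≤ (-b - Pp + l * w) + w with hB
    have hsub : (univ.filter fun x : ι → Fin m → Bool =>
        ¬ ∃ c, ∀ y, gate θ b (put al x y) = c) ⊆ (range (Fintype.card ι)).biUnion B := by
      intro x hx
      rw [Finset.mem_filter] at hx
      have hx2 := hx.2
      have hy1 : ∃ y, 0 < (∑ p, θ p * bit (put al x y p)) + b := by
        by_contra hno
        push Not at hno
        apply hx2
        refine ⟨0, fun y => ?_⟩
        unfold gate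
        rw [if_neg (not_lt.2 (hno y))]
      have hy2 : ∃ y, (∑ p, θ p * bit (put al x y p)) + b ≤ 0 := by
        by_contra hno
        push Not at hno
        apply hx2
        refine ⟨1, fun y => ?_⟩
        unfold gate
        rw [if_pos (hno y)]
      obtain ⟨y1, h1⟩ := hy1
      obtain ⟨y2, h2⟩ := hy2
      rw [hsplit] at h1 h2
      have h3 := hVle (fun i => xor (y1 i) (restpar (al i) (x i)))
      have h4 := hVge (fun i => xor (y2 i) (restpar (al i) (x i)))
      obtain ⟨l, hl, h5, h6⟩ := nonconst_cover (∑ p : ι × Fin m, θ' p * bit (x p.1 p.2))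
        (-b - Pp) w hw0 (Fintype.card ι) (by linarith) (by linarith)
      rw [Finset.mem_biUnion]
      refine ⟨l, Finset.mem_range.2 hl, ?_⟩
      rw [hB, Finset.mem_filter]
      exact ⟨Finset.mem_univ _, h5, h6⟩
    -- Littlewood-Offord for each interval
    set ρ : ℕ := #{j' : Fin m | j' ≠ al i0 ∧ |θ (i0, al i0)| ≤ |θ (i0, j')|} with hρ
    have hC : (Fintype.card (ι → Fin m → Bool) : ℝ) = 2 ^ Fintype.card (ι × Fin m) := by
      rw [← Fintype.card_congr (Equiv.curry ι (Fin m) Bool), Fintype.card_fun,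
        Fintype.card_bool]
      push_cast
      rfl
    have hBl : ∀ l, ((#(B l) : ℕ) : ℝ) ≤ (Fintype.card (ι → Fin m → Bool) : ℝ) *
        (1 / √((ρ : ℝ) + 1)) := by
      intro l
      set G : Finset (ι × Fin m) := (univ.filter fun j' : Fin m =>
        j' ≠ al i0 ∧ |θ (i0, al i0)| ≤ |θ (i0, j')|).map
          ⟨fun j => (i0, j), fun j j' h => congrArg Prod.snd h⟩ with hG
      have hGc : #G = ρ := by rw [hG, Finset.card_map]
      have hGw : ∀ p ∈ G, w ≤ |θ' p| := by
        intro p hp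
        rw [hG, Finset.mem_map] at hp
        obtain ⟨j', hj', rfl⟩ := hp
        rw [Finset.mem_filter] at hj'
        have : θ' (i0, j') = θ (i0, j') := if_neg hj'.2.1
        show w ≤ |θ' (i0, j')|
        rw [this]
        exact hj'.2.2
      have hLO := littlewood_offord θ' w hw0 G hGw (-b - Pp + l * w)
      have hcard : #(B l) = #{x : ι × Fin m → Bool | (-b - Pp + l * w) < ∑ i, θ' i * bit (x i) ∧
          ∑ i, θ' i * bit (x i) ≤ (-b - Pp + l * w) + w} := by
        refine Finset.card_equiv (Equiv.curry ι (Fin m) Bool).symm fun x => ?_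
        rw [hB, Finset.mem_filter, Finset.mem_filter]
        exact ⟨fun h => ⟨Finset.mem_univ _, h.2⟩, fun h => ⟨Finset.mem_univ _, h.2⟩⟩
      rw [← hcard, hGc] at hLO
      have hLO' : ((#(B l) : ℕ) : ℝ) * 2 ^ ρ ≤
          ((ρ.choose (ρ / 2) : ℕ) : ℝ) * 2 ^ Fintype.card (ι × Fin m) := by
        exact_mod_cast hLO
      have h2ρ : (0 : ℝ) < 2 ^ ρ := by positivity
      have h1 : ((#(B l) : ℕ) : ℝ) ≤
          (2 ^ Fintype.card (ι × Fin m)) * (((ρ.choose (ρ / 2) : ℕ) : ℝ) / 2 ^ ρ) := by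
        rw [← mul_div_assoc, le_div_iff₀ h2ρ]
        linarith
      rw [hC]
      exact h1.trans (mul_le_mul_of_nonneg_left (choose_half_le ρ) (by positivity))
    have hle : ((#{x : ι → Fin m → Bool | ¬ ∃ c, ∀ y, gate θ b (put al x y) = c} : ℕ) : ℝ) ≤
        (Fintype.card ι : ℝ) * ((Fintype.card (ι → Fin m → Bool) : ℝ) *
        (1 / √((ρ : ℝ) + 1))) := by
      have h1 : (#{x : ι → Fin m → Bool | ¬ ∃ c, ∀ y, gate θ b (put al x y) = c}) ≤
          ∑ l ∈ range (Fintype.card ι), #(B l) :=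
        (Finset.card_le_card hsub).trans Finset.card_biUnion_le
      have h2 : ((#{x : ι → Fin m → Bool | ¬ ∃ c, ∀ y, gate θ b (put al x y) = c} : ℕ) : ℝ) ≤
          ∑ l ∈ range (Fintype.card ι), ((#(B l) : ℕ) : ℝ) := by
        exact_mod_cast h1
      refine h2.trans ((Finset.sum_le_sum fun l _ => hBl l).trans (le_of_eq ?_))
      rw [Finset.sum_const, Finset.card_range, nsmul_eq_mul]
    refine hle.trans ?_
    rw [mul_assoc]
    refine mul_le_mul_of_nonneg_left ?_ (Nat.cast_nonneg _)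
    refine mul_le_mul_of_nonneg_left ?_ (Nat.cast_nonneg _)
    exact Finset.single_le_sum (f := fun i =>
      1 / √(((#{j' : Fin m | j' ≠ al i ∧ |θ (i, al i)| ≤ |θ (i, j')|} : ℕ) : ℝ) + 1))
      (fun i _ => by positivity) (Finset.mem_univ i0)

open Classical in
theorem nonconst_count {ι : Type} [Fintype ι] (μ : ℕ) (θ : ι × Fin (4 ^ μ) → ℝ) (b : ℝ) :
    2 ^ μ * #{p : (ι → Fin (4 ^ μ)) × (ι → Fin (4 ^ μ) → Bool) |
        ¬ ∃ c, ∀ y, gate θ b (put p.1 p.2 y) = c} ≤
      2 * Fintype.card ι ^ 2 *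
        Fintype.card ((ι → Fin (4 ^ μ)) × (ι → Fin (4 ^ μ) → Bool)) := by
  have hreal : (2 : ℝ) ^ μ * ((#{p : (ι → Fin (4 ^ μ)) × (ι → Fin (4 ^ μ) → Bool) |
        ¬ ∃ c, ∀ y, gate θ b (put p.1 p.2 y) = c} : ℕ) : ℝ) ≤
      2 * (Fintype.card ι : ℝ) ^ 2 *
        (Fintype.card ((ι → Fin (4 ^ μ)) × (ι → Fin (4 ^ μ) → Bool)) : ℝ) := by
    have h1 : ((#{p : (ι → Fin (4 ^ μ)) × (ι → Fin (4 ^ μ) → Bool) |
        ¬ ∃ c, ∀ y, gate θ b (put p.1 p.2 y) = c} : ℕ) : ℝ) =
        ∑ al : ι → Fin (4 ^ μ), ((#{x : ι → Fin (4 ^ μ) → Bool |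
          ¬ ∃ c, ∀ y, gate θ b (put al x y) = c} : ℕ) : ℝ) := by
      rw [← Nat.cast_sum]
      congr 1
      rw [Finset.card_filter, Fintype.sum_prod_type]
      refine Finset.sum_congr rfl fun al _ => ?_
      rw [Finset.card_filter]
    rw [h1]
    set C : ℝ := (Fintype.card (ι → Fin (4 ^ μ) → Bool) : ℝ) with hC
    set D : ℝ := (Fintype.card (ι → Fin (4 ^ μ)) : ℝ) with hD
    set R : ι → Fin (4 ^ μ) → ℝ := fun i j =>
      1 / √(((#{j' : Fin (4 ^ μ) | j' ≠ j ∧ |θ (i, j)| ≤ |θ (i, j')|} : ℕ) : ℝ) + 1) with hR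
    have h2 : ∑ al : ι → Fin (4 ^ μ), ((#{x : ι → Fin (4 ^ μ) → Bool |
          ¬ ∃ c, ∀ y, gate θ b (put al x y) = c} : ℕ) : ℝ) ≤
        (Fintype.card ι : ℝ) * C * ∑ i, ∑ al : ι → Fin (4 ^ μ), R i (al i) := by
      refine (Finset.sum_le_sum fun al _ => nonconst_al θ b al).trans (le_of_eq ?_)
      rw [← Finset.mul_sum, Finset.sum_comm]
    have hp : (0 : ℝ) < 2 ^ μ := by positivity
    have hm : ((4 ^ μ : ℕ) : ℝ) = 2 ^ μ * 2 ^ μ := by
      push_cast
      rw [← mul_pow]
      norm_num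
    have hsq : √((4 ^ μ : ℕ) : ℝ) = 2 ^ μ := by
      rw [hm, Real.sqrt_mul_self hp.le]
    have h3 : ∀ i, 2 ^ μ * ∑ al : ι → Fin (4 ^ μ), R i (al i) ≤ 2 * D := by
      intro i
      have h4 := nonconst_avg i (R i)
      have h5 := nonconst_rank_sum (fun j => |θ (i, j)|)
      rw [hsq] at h5
      have h6 : ∑ j, R i j ≤ 2 * 2 ^ μ := h5
      rw [hm] at h4
      have h7 : 2 ^ μ * (2 ^ μ * ∑ al : ι → Fin (4 ^ μ), R i (al i)) ≤ 2 ^ μ * (2 * D) := by
        rw [← mul_assoc, h4]
        have h8 : D * ∑ j, R i j ≤ D * (2 * 2 ^ μ) :=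
          mul_le_mul_of_nonneg_left h6 (Nat.cast_nonneg _)
        linarith
      exact le_of_mul_le_mul_left h7 hp
    have h9 : 2 ^ μ * ∑ i, ∑ al : ι → Fin (4 ^ μ), R i (al i) ≤
        (Fintype.card ι : ℝ) * (2 * D) := by
      rw [Finset.mul_sum]
      refine (Finset.sum_le_sum fun i _ => h3 i).trans (le_of_eq ?_)
      rw [Finset.sum_const, Finset.card_univ, nsmul_eq_mul]
    have hCD : (Fintype.card ((ι → Fin (4 ^ μ)) × (ι → Fin (4 ^ μ) → Bool)) : ℝ) = D * C := by
      rw [Fintype.card_prod]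
      push_cast
      rfl
    rw [hCD]
    have hk : (0 : ℝ) ≤ (Fintype.card ι : ℝ) * C := by positivity
    calc (2 : ℝ) ^ μ * ∑ al : ι → Fin (4 ^ μ), ((#{x : ι → Fin (4 ^ μ) → Bool |
          ¬ ∃ c, ∀ y, gate θ b (put al x y) = c} : ℕ) : ℝ)
        ≤ 2 ^ μ * ((Fintype.card ι : ℝ) * C * ∑ i, ∑ al : ι → Fin (4 ^ μ), R i (al i)) :=
          mul_le_mul_of_nonneg_left h2 hp.le
      _ = ((Fintype.card ι : ℝ) * C) * (2 ^ μ * ∑ i, ∑ al : ι → Fin (4 ^ μ), R i (al i)) := by
          ring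
      _ ≤ ((Fintype.card ι : ℝ) * C) * ((Fintype.card ι : ℝ) * (2 * D)) :=
          mul_le_mul_of_nonneg_left h9 hk
      _ = 2 * (Fintype.card ι : ℝ) ^ 2 * (D * C) := by ring
  exact_mod_cast hreal

end Pool.Agent.MP_244be3_lc.WN
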