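import Pool.Agent.MP_244be3_lc.WN.Finite

set_option autoImplicit false

/-!
The choice of the parameters.
-/

namespace Pool.Agent.MP_244be3_lc.WN

open Finset Filter Topology Pool.Agent.MP_244be3_lc

theorem Structured.mono {r M d N r' M' d' : ℕ} {w : ℕ → ℝ} (hr : r ≤ r') (hM : M ≤ M')
    (hd : d ≤ d') (h : Structured r M d N w) : Structured r' M' d' N w := by
  obtain ⟨E, hE, t, ht⟩ := h
  refine ⟨E, hE.trans hd, fun i => if hi : (i : ℕ) < r then t ⟨i, hi⟩ else 0, ?_⟩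
  intro j hj hjE
  obtain ⟨c, hc, hc'⟩ := ht j hj hjE
  refine ⟨fun i => if hi : (i : ℕ) < r then c ⟨i, hi⟩ else 0, ?_, ?_⟩
  · intro i
    by_cases hi : (i : ℕ) < r
    · simp only [dif_pos hi]
      exact (hc _).trans (by exact_mod_cast hM)
    · simp only [dif_neg hi, abs_zero]
      positivity
  · rw [hc', ← sum_fin_of_le hr]
    apply Finset.sum_congr rfl
    intro i _
    by_cases hi : (i : ℕ) < r
    · simp only [dif_pos hi]
    · simp only [dif_neg hi, Int.cast_zero, zero_mul]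

theorem wild_mono {n : ℕ} (N : Net n) {A A' : ℝ} {r M d r' M' d' : ℕ} (hA : A ≤ A')
    (hr : r ≤ r') (hM : M ≤ M') (hd : d ≤ d') : wild N A' r' M' d' ⊆ wild N A r M d := by
  classical
  unfold wild
  split_ifs
  · intro j hj
    rw [Finset.mem_filter] at hj ⊢
    exact ⟨hj.1, hA.trans_lt hj.2.1, fun h => hj.2.2 (h.mono hr hM hd)⟩
  · exact Finset.Subset.refl _

theorem wild_card_le {n : ℕ} (N : Net n) (A : ℝ) (r M d : ℕ) : #(wild N A r M d) ≤ N.size := by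
  classical
  unfold wild
  split_ifs with h
  · refine (Finset.card_filter_le _ _).trans ?_
    rw [Finset.card_range, Net.size, h]
    exact Finset.single_le_sum (f := fun i => N.width i) (fun _ _ => Nat.zero_le _)
      (by simp : (2 : ℕ) ∈ Icc 1 2)
  · simp

/-- The number of neurons of the deep network. -/
def sz (a i : ℕ) : ℕ :=
  2 * (((2 ^ i) ^ 4 + (2 ^ i) ^ 4 + (4 * a * i + 4 * a * i)) * 4 ^ (2 * a * i)) + (2 ^ i) ^ 4 +
    2 * 2 ^ (4 * a * i) + (2 ^ i) ^ 4 * 2 ^ (4 * a * i)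

theorem four_pow (a i : ℕ) : 4 ^ (2 * a * i) = (2 ^ i) ^ (4 * a) := by
  rw [← pow_mul, show (4 : ℕ) = 2 ^ 2 by norm_num, ← pow_mul]
  congr 1
  ring

theorem two_pow_p (a i : ℕ) : 2 ^ (4 * a * i) = (2 ^ i) ^ (4 * a) := by
  rw [← pow_mul]
  congr 1
  ring

theorem sz_le {a i : ℕ} (hq : 8 * a + 20 ≤ 2 ^ i) : sz a i ≤ (2 ^ i) ^ (4 * (a + 2)) := by
  unfold sz
  rw [four_pow, two_pow_p]
  have hi : i < 2 ^ i := Nat.lt_two_pow_self
  set q := 2 ^ i with hqdef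
  have h1 : 8 * a * i ≤ q ^ 2 := by nlinarith
  have hq1 : 1 ≤ q := by omega
  have h2 : q ^ 2 ≤ q ^ 4 := Nat.pow_le_pow_right hq1 (by norm_num)
  have h3 : q ^ 4 + q ^ 4 + (4 * a * i + 4 * a * i) ≤ 3 * q ^ 4 := by nlinarith
  have h4 : 1 ≤ q ^ (4 * a) := Nat.one_le_pow _ _ hq1
  have h5 : 1 ≤ q ^ 4 := Nat.one_le_pow _ _ hq1
  have h6 : 2 * ((q ^ 4 + q ^ 4 + (4 * a * i + 4 * a * i)) * q ^ (4 * a)) ≤
      2 * ((3 * q ^ 4) * q ^ (4 * a)) := by gcongr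
  have h7 : q ^ (4 * (a + 2)) = q ^ 4 * (q ^ 4 * q ^ (4 * a)) := by
    rw [← pow_add, ← pow_add]; congr 1; ring
  have h8 : 12 ≤ q ^ 4 := by
    calc 12 ≤ 20 ^ 1 := by norm_num
      _ ≤ q ^ 1 := by simpa using (show 20 ≤ q by omega)
      _ ≤ q ^ 4 := Nat.pow_le_pow_right hq1 (by norm_num)
  rw [h7]
  have h9 : q ^ 4 ≤ q ^ 4 * q ^ (4 * a) := Nat.le_mul_of_pos_right _ h4
  have h10 : q ^ (4 * a) ≤ q ^ 4 * q ^ (4 * a) := Nat.le_mul_of_pos_left _ h5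
  calc _ ≤ 2 * ((3 * q ^ 4) * q ^ (4 * a)) + q ^ 4 * q ^ (4 * a) +
        2 * (q ^ 4 * q ^ (4 * a)) + q ^ 4 * q ^ (4 * a) := by gcongr
    _ = 10 * (q ^ 4 * q ^ (4 * a)) := by ring
    _ ≤ _ := by gcongr; omega

theorem le_sz (a i : ℕ) : (2 ^ i) ^ (4 * a) ≤ sz a i := by
  unfold sz
  rw [two_pow_p]
  omega

end Pool.Agent.MP_244be3_lc.WN
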